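import Pool.Agent.Y979.HV.Geom

/-!
# Areas of Euclidean rectangles in the upper half plane
-/

set_option autoImplicit false

open UpperHalfPlane Real MeasureTheory
open scoped ENNReal

namespace Pool.Agent.Y979.HV

noncomputable section

/-- a Euclidean box -/
def box (I : Set ℝ) (c d : ℝ) : Set ℍ := {z | z.re ∈ I ∧ z.im ∈ Set.Ico c d}

theorem measurableSet_box {I : Set ℝ} (hI : MeasurableSet I) (c d : ℝ) :
    MeasurableSet (box I c d) := by
  have h1 : Measurable (fun z : ℍ => z.re) := UpperHalfPlane.continuous_re.measurable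
  have h2 : Measurable (fun z : ℍ => z.im) := UpperHalfPlane.continuous_im.measurable
  exact (h1 hI).inter (h2 measurableSet_Ico)

theorem lintegral_inv_sq {c d : ℝ} (hc : 0 < c) (hcd : c ≤ d) :
    ∫⁻ y in Set.Ico c d, (((1 / ‖y‖₊) ^ 2 : NNReal) : ℝ≥0∞) = ENNReal.ofReal (1 / c - 1 / d) := by
  have hd : 0 < d := lt_of_lt_of_le hc hcd
  have h0 : (0 : ℝ) ∉ Set.uIcc c d := by
    rw [Set.uIcc_of_le hcd]
    intro h
    exact absurd h.1 (not_le.mpr hc)
  have e1 : ∫⁻ y in Set.Ico c d, (((1 / ‖y‖₊) ^ 2 : NNReal) : ℝ≥0∞) =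
      ∫⁻ y in Set.Ioc c d, ENNReal.ofReal (y ^ (-2 : ℤ)) := by
    rw [setLIntegral_congr Ico_ae_eq_Ioc]
    refine setLIntegral_congr_fun measurableSet_Ioc fun y hy => ?_
    have hy0 : 0 < y := hc.trans hy.1
    show (((1 / ‖y‖₊) ^ 2 : NNReal) : ℝ≥0∞) = ENNReal.ofReal (y ^ (-2 : ℤ))
    rw [ENNReal.ofReal, ENNReal.coe_inj]
    apply NNReal.eq
    rw [Real.coe_toNNReal _ (by positivity)]
    push_cast
    rw [Real.norm_of_nonneg hy0.le, zpow_neg, one_div, inv_pow]
    norm_cast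
  rw [e1, ← ofReal_integral_eq_lintegral_ofReal]
  · rw [← intervalIntegral.integral_of_le hcd, integral_zpow]
    · congr 1
      norm_num
      ring
    · exact Or.inr ⟨by norm_num, h0⟩
  · have : IntervalIntegrable (fun y : ℝ => y ^ (-2 : ℤ)) volume c d :=
      intervalIntegral.intervalIntegrable_zpow (Or.inr h0)
    exact this.1
  · filter_upwards [ae_restrict_mem measurableSet_Ioc] with y hy
    have hy0 : 0 < y := hc.trans hy.1
    show (0 : ℝ) ≤ y ^ (-2 : ℤ)
    positivity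

/-- the hyperbolic area of a Euclidean box -/
theorem volume_box {I : Set ℝ} (hI : MeasurableSet I) {c d : ℝ} (hc : 0 < c) (hcd : c ≤ d) :
    volume (box I c d) = volume I * ENNReal.ofReal (1 / c - 1 / d) := by
  rw [UpperHalfPlane.volume_eq_lintegral]
  have himg : UpperHalfPlane.coe '' (box I c d) =
      Complex.measurableEquivRealProd ⁻¹' (I ×ˢ Set.Ico c d) := by
    ext w
    constructor
    · rintro ⟨z, hz, rfl⟩
      exact hz
    · intro hw
      have h1 : w.re ∈ I ∧ w.im ∈ Set.Ico c d := hw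
      refine ⟨⟨w, lt_of_lt_of_le hc h1.2.1⟩, h1, rfl⟩
  rw [himg]
  have hmp := Complex.volume_preserving_equiv_real_prod
  have h2 := hmp.setLIntegral_comp_preimage (hI.prod measurableSet_Ico)
    (f := fun p : ℝ × ℝ => (1 : ℝ≥0∞) * (((1 / ‖p.2‖₊) ^ 2 : NNReal) : ℝ≥0∞)) (s := I ×ˢ Set.Ico c d)
    (by
      have : Measurable fun p : ℝ × ℝ => (1 / ‖p.2‖₊) ^ 2 :=
        (measurable_const.div measurable_snd.nnnorm).pow_const 2
      exact measurable_const.mul this.coe_nnreal_ennreal)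
  have h3 : ∫⁻ z : ℂ in Complex.measurableEquivRealProd ⁻¹' (I ×ˢ Set.Ico c d),
      (((1 / ‖z.im‖₊) ^ 2 : NNReal) : ℝ≥0∞) =
      ∫⁻ z : ℂ in Complex.measurableEquivRealProd ⁻¹' (I ×ˢ Set.Ico c d),
      (1 : ℝ≥0∞) * (((1 / ‖(Complex.measurableEquivRealProd z).2‖₊) ^ 2 : NNReal) : ℝ≥0∞) := by
    refine lintegral_congr fun z => ?_
    rw [one_mul]
    rfl
  have h4 : Measurable fun p : ℝ => (((1 / ‖p‖₊) ^ 2 : NNReal) : ℝ≥0∞) := by
    have : Measurable fun p : ℝ => (1 / ‖p‖₊) ^ 2 :=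
      (measurable_const.div measurable_nnnorm).pow_const 2
    exact this.coe_nnreal_ennreal
  have h5 := lintegral_prod_mul (μ := volume.restrict I) (ν := volume.restrict (Set.Ico c d))
    (f := fun _ : ℝ => (1 : ℝ≥0∞)) (g := fun y : ℝ => (((1 / ‖y‖₊) ^ 2 : NNReal) : ℝ≥0∞))
    aemeasurable_const h4.aemeasurable
  rw [h3, h2, Measure.volume_eq_prod, ← Measure.prod_restrict]
  refine h5.trans ?_
  rw [lintegral_inv_sq hc hcd]
  simp

end

end Pool.Agent.Y979.HV
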