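import Pool.Agent.Y979.HV.Region
import Pool.Agent.Y979.HV.Area

/-!
# Distance bounds and test rectangles
-/

set_option autoImplicit false

open UpperHalfPlane Real

namespace Pool.Agent.Y979.HV

noncomputable section

theorem exp_le_two_cosh (t : ℝ) : Real.exp t ≤ 2 * Real.cosh t := by
  rw [Real.cosh_eq]
  have := Real.exp_pos (-t)
  linarith

theorem cosh_le_exp {t : ℝ} (ht : 0 ≤ t) : Real.cosh t ≤ Real.exp t := by
  rw [Real.cosh_eq]
  have : Real.exp (-t) ≤ Real.exp t := Real.exp_le_exp.mpr (by linarith)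
  linarith

theorem norm_le_exp (z w : ℍ) : ‖(w : ℂ)‖ ≤ ‖(z : ℂ)‖ * Real.exp (dist z w) := by
  have h := abs_sc_sub_le w z
  rw [dist_comm] at h
  have h1 := (abs_le.mp h).2
  rw [← exp_sc w, ← exp_sc z, ← Real.exp_add]
  exact Real.exp_le_exp.mpr (by linarith)

theorem im_ge_exp (z w : ℍ) : z.im / Real.exp (dist z w) ≤ w.im :=
  UpperHalfPlane.im_div_exp_dist_le z w

/-- the test rectangles -/
theorem cosh_dist_rect {z w : ℍ} {q : ℤ} {θ : ℝ} (hθ : 1 ≤ θ) (h1 : (2 : ℝ) ^ q ≤ z.im)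
    (h2 : z.im < (2 : ℝ) ^ (q + 1)) (h3 : |z.re - w.re| ≤ (2 : ℝ) ^ q)
    (h4 : (2 : ℝ) ^ q / θ ≤ w.im) (h5 : w.im < (2 : ℝ) ^ q) :
    Real.cosh (dist z w) ≤ 3 * θ := by
  have hq : (0 : ℝ) < (2 : ℝ) ^ q := by positivity
  set Y : ℝ := (2 : ℝ) ^ q with hY
  have h2' : z.im < 2 * Y := by
    rw [zpow_add₀ (by norm_num), zpow_one] at h2
    linarith
  have hz := z.im_pos
  have hw := w.im_pos
  rw [cosh_dist_eq, norm_sq_eq, norm_sq_eq, div_le_iff₀ (by positivity)]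
  have e1 : (z.re - w.re) ^ 2 ≤ Y ^ 2 := by
    rw [← sq_abs]
    exact pow_le_pow_left₀ (abs_nonneg _) h3 2
  have e2 : z.im ^ 2 ≤ (2 * Y) ^ 2 := pow_le_pow_left₀ hz.le h2'.le 2
  have e3 : w.im ^ 2 ≤ Y ^ 2 := pow_le_pow_left₀ hw.le h5.le 2
  have e4 : Y ^ 2 ≤ θ * (z.im * w.im) := by
    rw [div_le_iff₀ (by linarith)] at h4
    calc Y ^ 2 = Y * Y := sq Y
      _ ≤ z.im * (w.im * θ) := mul_le_mul h1 h4 hq.le hz.le
      _ = θ * (z.im * w.im) := by ring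
  nlinarith

/-- the big boxes -/
def bigBox (g : ℕ) (n : ℤ) : Set ℍ :=
  box (Set.Ioo (-(2 : ℝ) ^ (n + g)) ((2 : ℝ) ^ (n + g))) ((2 : ℝ) ^ (n - g)) ((2 : ℝ) ^ (n + g))

theorem measurableSet_bigBox (g : ℕ) (n : ℤ) : MeasurableSet (bigBox g n) :=
  measurableSet_box measurableSet_Ioo _ _

theorem volume_bigBox_le (g : ℕ) (n : ℤ) :
    MeasureTheory.volume (bigBox g n) ≤ ENNReal.ofReal ((2 : ℝ) ^ (2 * g + 1)) := by
  have h1 : (2 : ℝ) ^ (n - g) ≤ (2 : ℝ) ^ (n + g) :=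
    zpow_le_zpow_right₀ (by norm_num) (by omega)
  unfold bigBox
  rw [volume_box measurableSet_Ioo (by positivity) h1, Real.volume_Ioo,
    ← ENNReal.ofReal_mul (by
      have : (0 : ℝ) < (2 : ℝ) ^ (n + g) := by positivity
      linarith)]
  apply ENNReal.ofReal_le_ofReal
  have h2 : (0 : ℝ) < (2 : ℝ) ^ n := by positivity
  have e1 : (2 : ℝ) ^ (n + g) = 2 ^ n * 2 ^ g := by
    rw [zpow_add₀ (by norm_num), zpow_natCast]
  have e2 : (2 : ℝ) ^ (n - g) = 2 ^ n / 2 ^ g := by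
    rw [zpow_sub₀ (by norm_num), zpow_natCast]
  rw [e1, e2]
  have h3 : (0 : ℝ) < (2 : ℝ) ^ g := by positivity
  have h4 : ((2 : ℝ) ^ n * 2 ^ g - -(2 ^ n * 2 ^ g)) * (1 / (2 ^ n / 2 ^ g) - 1 / (2 ^ n * 2 ^ g))
      = 2 ^ (2 * g + 1) - 2 := by
    rw [pow_succ, two_mul, pow_add]
    field_simp
    ring
  rw [h4]
  linarith

theorem volume_bigBox_ne_top (g : ℕ) (n : ℤ) : MeasureTheory.volume (bigBox g n) ≠ ⊤ :=
  ne_top_of_le_ne_top ENNReal.ofReal_ne_top (volume_bigBox_le g n)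

theorem dist_I_eq (z : ℍ) : Real.cosh (dist (I : ℍ) z) = kp z * Real.cosh (sc z) := by
  have hz := norm_pos' z
  have hi := z.im_pos
  have h1 : Real.cosh (sc z) = (‖(z : ℂ)‖ ^ 2 + 1) / (2 * ‖(z : ℂ)‖) := by
    rw [Real.cosh_eq, Real.exp_neg, exp_sc]
    field_simp
  rw [cosh_dist_eq, h1, kp]
  have e1 : ‖((I : ℍ) : ℂ)‖ = 1 := by simp
  have e2 : (I : ℍ).re = 0 := UpperHalfPlane.I_re
  have e3 : (I : ℍ).im = 1 := UpperHalfPlane.I_im
  rw [e1, e2, e3]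
  field_simp
  ring

theorem dist_I_le {z : ℍ} {C : ℝ} (h : Real.cosh (dist (I : ℍ) z) ≤ C) :
    dist (I : ℍ) z ≤ Real.log (2 * C) := by
  have h1 := exp_le_two_cosh (dist (I : ℍ) z)
  rw [← Real.log_exp (dist (I : ℍ) z)]
  exact Real.log_le_log (Real.exp_pos _) (by linarith)

theorem dist_le_log {z w : ℍ} {C : ℝ} (h : Real.cosh (dist z w) ≤ C) :
    dist z w ≤ Real.log (2 * C) := by
  have h1 := exp_le_two_cosh (dist z w)
  rw [← Real.log_exp (dist z w)]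
  exact Real.log_le_log (Real.exp_pos _) (by linarith)

/-- big boxes are bounded -/
theorem bigBox_subset_closedBall (g : ℕ) (n : ℤ) : ∃ R : ℝ, bigBox g n ⊆ Metric.closedBall I R := by
  refine ⟨Real.log (2 * (((1 + ((2 : ℝ) ^ (n + g)) ^ 2 + ((2 : ℝ) ^ (n + g)) ^ 2)) /
    (2 * (2 : ℝ) ^ (n - g)))), ?_⟩
  rintro z ⟨⟨h1, h2⟩, h3, h4⟩
  rw [Metric.mem_closedBall, dist_comm]
  apply dist_I_le
  have hz := z.im_pos
  rw [cosh_dist_eq]
  have e1 : ‖((I : ℍ) : ℂ)‖ = 1 := by simp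
  have e2 : (I : ℍ).re = 0 := UpperHalfPlane.I_re
  have e3 : (I : ℍ).im = 1 := UpperHalfPlane.I_im
  rw [e1, e2, e3, norm_sq_eq]
  have hp : (0 : ℝ) < (2 : ℝ) ^ (n - g) := by positivity
  have hre : z.re ^ 2 ≤ ((2 : ℝ) ^ (n + g)) ^ 2 := by
    rw [← sq_abs]
    exact pow_le_pow_left₀ (abs_nonneg _) (abs_le.mpr ⟨h1.le, h2.le⟩) 2
  have him : z.im ^ 2 ≤ ((2 : ℝ) ^ (n + g)) ^ 2 := pow_le_pow_left₀ hz.le h4.le 2
  apply div_le_div₀ (by positivity) (by linarith) (by positivity)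
  linarith

theorem closedBall_subset_bigBox (z : ℍ) (R : ℝ) : ∃ g : ℕ, Metric.closedBall z R ⊆ bigBox g 0 := by
  obtain ⟨g, hg⟩ := pow_unbounded_of_one_lt (max (‖(z : ℂ)‖ * Real.exp R) (Real.exp R / z.im))
    (show (1 : ℝ) < 2 by norm_num)
  refine ⟨g, fun w hw => ?_⟩
  rw [Metric.mem_closedBall, dist_comm] at hw
  have h1 : ‖(w : ℂ)‖ ≤ ‖(z : ℂ)‖ * Real.exp R :=
    (norm_le_exp z w).trans (mul_le_mul_of_nonneg_left (Real.exp_le_exp.mpr hw) (norm_nonneg _))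
  have h2 : z.im / Real.exp R ≤ w.im := by
    refine le_trans ?_ (im_ge_exp z w)
    exact div_le_div_of_nonneg_left z.im_pos.le (Real.exp_pos _) (Real.exp_le_exp.mpr hw)
  have h3 : ‖(w : ℂ)‖ < (2 : ℝ) ^ g := lt_of_le_of_lt (h1.trans (le_max_left _ _)) hg
  have h4 : Real.exp R / z.im < (2 : ℝ) ^ g := lt_of_le_of_lt (le_max_right _ _) hg
  have h5 : |w.re| < (2 : ℝ) ^ g := lt_of_le_of_lt (abs_re_le_norm w) h3
  have e1 : (2 : ℝ) ^ ((0 : ℤ) + g) = 2 ^ g := by rw [zero_add, zpow_natCast]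
  have e2 : (2 : ℝ) ^ ((0 : ℤ) - g) = (2 ^ g)⁻¹ := by rw [zero_sub, zpow_neg, zpow_natCast]
  refine ⟨?_, ?_, ?_⟩
  · rw [e1]
    exact abs_lt.mp h5
  · rw [e2]
    refine le_trans ?_ h2
    have hz := z.im_pos
    have he := Real.exp_pos R
    rw [inv_le_comm₀ (by positivity) (by positivity), inv_div]
    exact h4.le
  · rw [e1]
    exact lt_of_le_of_lt (im_le_norm w) h3

theorem locFin_of_box {A : Set ℍ} (h : ∀ g : ℕ, (A ∩ bigBox g 0).Finite) : LocFin A := by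
  intro z R
  obtain ⟨g, hg⟩ := closedBall_subset_bigBox z R
  exact (h g).subset (Set.inter_subset_inter_right _ hg)

theorem LocFin.box {A : Set ℍ} (h : LocFin A) (g : ℕ) (n : ℤ) : (A ∩ bigBox g n).Finite := by
  obtain ⟨R, hR⟩ := bigBox_subset_closedBall g n
  exact (h I R).subset (Set.inter_subset_inter_right _ hR)

end

end Pool.Agent.Y979.HV
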