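import Pool.Agent.Y979.HV.ChainB

/-!
# Tightness of the deviation of geodesics in the hyperbolic Poisson-Voronoi graph
-/

set_option autoImplicit false

open UpperHalfPlane Real MeasureTheory ProbabilityTheory
open scoped ENNReal

namespace Pool.Agent.Y979.HV

noncomputable section

theorem axisPt_im (t : ℝ) : (axisPt t).im = Real.exp t := rfl
theorem axisPt_re (t : ℝ) : (axisPt t).re = 0 := rfl

theorem axisPt_norm (t : ℝ) : ‖(axisPt t : ℂ)‖ = Real.exp t := by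
  have h := norm_sq_eq (axisPt t)
  rw [axisPt_re, axisPt_im] at h
  have h1 : ‖(axisPt t : ℂ)‖ ^ 2 = (Real.exp t) ^ 2 := by rw [h]; ring
  exact (sq_eq_sq₀ (norm_nonneg _) (Real.exp_pos t).le).mp h1

theorem sc_axisPt (t : ℝ) : sc (axisPt t) = t := by
  rw [sc, axisPt_norm, Real.log_exp]

theorem kp_axisPt (t : ℝ) : kp (axisPt t) = 1 := by
  rw [kp, axisPt_norm, axisPt_im, div_self (Real.exp_pos t).ne']

/-- a geodesic between cells on both sides of the origin visits a cell that contains a point of a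
bounded region -/
theorem geodesic_visits {A : Set ℍ} {Λ C : ℝ} {α h m₀ : ℕ} (hG : Good A Λ C α h m₀)
    (hΛ : 1 ≤ Λ) (hC : 0 < C) (hα : 7 ≤ α) (hh : 64 * (C + 2) * 2 ^ α ≤ 2 ^ h) {x y : A}
    {a b : ℍ} (ha : a ∈ cell A x) (hb : b ∈ cell A y) (hsa : sc a ≤ 0) (hsb : 0 ≤ sc b)
    (hka : kp a ≤ (2 : ℝ) ^ (h + 1)) (hkb : kp b ≤ (2 : ℝ) ^ (h + 1))
    (p : (voronoiGraph A).Walk x y) (hp : p.length = (voronoiGraph A).dist x y) :
    ∃ v ∈ p.support, ∃ q ∈ cell A v, kp q ≤ (2 : ℝ) ^ (h + 1) ∧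
      |sc q| ≤ m₀ + (h + 4 + 6656 * Λ) := by
  classical
  set k := p.length with hk
  have htouch : ∀ i : ℕ, i < k →
      ∃ z : ℍ, z ∈ cell A (p.getVert i) ∩ cell A (p.getVert (i + 1)) := fun i hi =>
    exists_touch (p.adj_getVert_succ hi)
  choose! t ht using htouch
  set z : ℕ → ℍ := fun i => if i = 0 then a else if i ≤ k then t (i - 1) else b with hz
  have hz0 : z 0 = a := by simp [hz]
  have hzs : ∀ i, i < k → z (i + 1) = t i := by
    intro i hi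
    have h1 : i + 1 ≤ k := hi
    simp [hz, h1]
  have hzk : z (k + 1) = b := by
    simp [hz]
  have hz1 : ∀ i ≤ k, z i ∈ cell A (p.getVert i) := by
    intro i hi
    rcases Nat.eq_zero_or_pos i with h0 | h0
    · subst h0
      rw [hz0, p.getVert_zero]
      exact ha
    · obtain ⟨j, rfl⟩ : ∃ j, i = j + 1 := ⟨i - 1, by omega⟩
      rw [hzs j hi]
      exact (ht j hi).2
  have hz2 : ∀ i ≤ k, z (i + 1) ∈ cell A (p.getVert i) := by
    intro i hi
    rcases hi.lt_or_eq with h0 | h0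
    · rw [hzs i h0]
      exact (ht i h0).1
    · rw [h0, hzk, hk, p.getVert_length]
      exact hb
  obtain ⟨i, hi, q, hqc, hqk, hqs⟩ := chain_core hG hΛ hC hα hh (k := k) p.getVert z hz1 hz2
    (by rw [hz0]; exact hsa) (by rw [hzk]; exact hsb) (by rw [hz0]; exact hka)
    (by rw [hzk]; exact hkb) (fun i j hij hj w => geodesic_segment hp hij hj w)
  exact ⟨p.getVert i, p.getVert_mem_support i, q, hqc, hqk, hqs⟩

theorem I_mem_reg {a b t : ℝ} (ha : a < 1) (hb : 1 < b) (ht : 0 < t) : (I : ℍ) ∈ reg a b t := by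
  refine ⟨?_, ?_, ?_⟩
  · simpa using ha
  · simpa using hb
  · rw [UpperHalfPlane.I_re, UpperHalfPlane.I_im, abs_zero]
    linarith

theorem discPt_zero : discPt 0 = I := by
  unfold discPt axisPt
  apply UpperHalfPlane.ext
  apply Complex.ext
  · simp
  · simp

/-- deterministic bound for the deviation -/
theorem deviation_le {Λ C : ℝ} {α h m₀ : ℕ} (hΛ : 1 ≤ Λ) (hC : 0 < C) (hα : 7 ≤ α)
    (hh : 64 * (C + 2) * 2 ^ α ≤ 2 ^ h) :
    ∃ g : ℕ, ∀ A : Set ℍ, Good A Λ C α h m₀ → ∀ r ∈ Set.Ico (0 : ℝ) 1,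
      deviation A r ≤ (A ∩ bigBox g 0).encard := by
  obtain ⟨M, hM⟩ := exists_nat_gt (2 * (m₀ + (h + 4 + 6656 * Λ)))
  obtain ⟨R, hR⟩ := reg_subset_closedBall (a := (2 : ℝ) ^ (-(M : ℤ)) / 2) (b := (2 : ℝ) ^ (M : ℤ))
    (t := 2 ^ (h + 1)) (by positivity)
  obtain ⟨g, hg⟩ := closedBall_subset_bigBox I (R + Real.log (2 * (Λ * (1 + R))))
  refine ⟨g, fun A hG r hr => ?_⟩
  have hne : A.Nonempty := by
    obtain ⟨x, hx, _⟩ := hG.cover I
    exact ⟨x, hx⟩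
  have hM0 : (0 : ℝ) < M := by
    have h1 : (0 : ℝ) ≤ m₀ := Nat.cast_nonneg _
    have h2 : (0 : ℝ) ≤ h := Nat.cast_nonneg _
    linarith
  have hM0' : 0 < M := by exact_mod_cast hM0
  have hIreg : (I : ℍ) ∈ reg ((2 : ℝ) ^ (-(M : ℤ)) / 2) ((2 : ℝ) ^ (M : ℤ)) (2 ^ (h + 1)) := by
    have h1 : (2 : ℝ) ^ (-(M : ℤ)) ≤ 1 := by
      have : (2 : ℝ) ^ (-(M : ℤ)) ≤ (2 : ℝ) ^ (0 : ℤ) :=
        zpow_le_zpow_right₀ (by norm_num) (by omega)
      simpa using this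
    have h2 : (1 : ℝ) < (2 : ℝ) ^ (M : ℤ) := by
      have : (2 : ℝ) ^ (0 : ℤ) < (2 : ℝ) ^ (M : ℤ) :=
        zpow_lt_zpow_right₀ (by norm_num) (by omega)
      simpa using this
    exact I_mem_reg (by linarith) h2 (by positivity)
  -- the number of cells meeting the region
  have hcount : ((meeting A (reg ((2 : ℝ) ^ (-(M : ℤ)) / 2) ((2 : ℝ) ^ (M : ℤ))
      (2 ^ (h + 1)))).ncard : ℕ∞) ≤ (A ∩ bigBox g 0).encard := by
    have hfin := meeting_finite hG.loc hne hR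
    rw [hfin.cast_ncard_eq, ← Subtype.val_injective.encard_image]
    apply Set.encard_le_encard
    rintro _ ⟨x, ⟨z, hzU, hz⟩, rfl⟩
    refine ⟨x.2, hg ?_⟩
    have h1 := hR hzU
    rw [Metric.mem_closedBall, dist_comm] at h1
    have h2 := cell_radius hG.cover hz
    have h3 : Real.cosh (dist z x) ≤ Λ * (1 + R) :=
      h2.trans (mul_le_mul_of_nonneg_left (by linarith) (by linarith))
    have h4 := dist_le_log h3
    rw [Metric.mem_closedBall, dist_comm]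
    have h5 := dist_triangle (I : ℍ) z x
    linarith
  unfold deviation
  refine iSup_le fun x => iSup_le fun y => iSup_le fun c => iSup_le fun hx => iSup_le fun hy =>
    iSup_le fun hc => iSup_le fun p => iSup_le fun hp => ?_
  have hpow : (1 : ℝ) ≤ 2 ^ (h + 1) := one_le_pow₀ (by norm_num)
  have hlog0 : 0 ≤ Real.log ((1 + r) / (1 - r)) := by
    apply Real.log_nonneg
    rw [le_div_iff₀ (by linarith [hr.2])]
    linarith [hr.1]
  obtain ⟨v, hv, q, hqc, hqk, hqs⟩ := geodesic_visits hG hΛ hC hα hh hx hy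
    (by
      unfold discPt
      rw [sc_axisPt]
      apply Real.log_nonpos
      · apply div_nonneg <;> linarith [hr.1, hr.2]
      · rw [div_le_one (by linarith [hr.1])]
        linarith [hr.1])
    (by
      unfold discPt
      rw [sc_axisPt]
      exact hlog0)
    (by unfold discPt; rw [kp_axisPt]; exact hpow)
    (by unfold discPt; rw [kp_axisPt]; exact hpow) p hp
  refine (iInf₂_le v hv).trans (le_trans ?_ hcount)
  have hqreg : q ∈ reg ((2 : ℝ) ^ (-(M : ℤ)) / 2) ((2 : ℝ) ^ (M : ℤ)) (2 ^ (h + 1)) := by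
    obtain ⟨h1, h2⟩ := norm_bounds hqs hM
    refine ⟨?_, h2, ?_⟩
    · have : (0 : ℝ) < (2 : ℝ) ^ (-(M : ℤ)) := by positivity
      linarith
    · have a1 : |q.re| < ‖(q : ℂ)‖ := by
        have b1 := norm_sq_eq q
        have b2 := q.im_pos
        have b3 : |q.re| ^ 2 < ‖(q : ℂ)‖ ^ 2 := by
          rw [b1, sq_abs]
          nlinarith
        exact lt_of_pow_lt_pow_left₀ 2 (norm_pos' q).le b3
      rw [kp, div_le_iff₀ q.im_pos] at hqk
      linarith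
  rw [discPt_zero] at hc
  obtain ⟨w, hw⟩ := walk_of_reg hG.loc hne (by positivity) (by
    have h1 : (2 : ℝ) ^ (-(M : ℤ)) ≤ (2 : ℝ) ^ (M : ℤ) :=
      zpow_le_zpow_right₀ (by norm_num) (by omega)
    have : (0 : ℝ) < (2 : ℝ) ^ (-(M : ℤ)) := by positivity
    linarith) (by positivity) hqreg hIreg hqc hc
  have hw' : w.length ≤ (meeting A (reg ((2 : ℝ) ^ (-(M : ℤ)) / 2) ((2 : ℝ) ^ (M : ℤ))
      (2 ^ (h + 1)))).ncard := by exact_mod_cast hw
  exact (w.edist_le).trans (by exact_mod_cast hw')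

/-! ### Connectedness -/

theorem connected_of_locFin {A : Set ℍ} (hA : LocFin A) (hne : A.Nonempty) :
    (voronoiGraph A).Connected := by
  have hpre : (voronoiGraph A).Preconnected := by
    intro x y
    set a : ℝ := min ‖((x : ℍ) : ℂ)‖ ‖((y : ℍ) : ℂ)‖ / 2 with ha
    set b : ℝ := max ‖((x : ℍ) : ℂ)‖ ‖((y : ℍ) : ℂ)‖ + 1 with hb
    set t : ℝ := max (|(x : ℍ).re| / (x : ℍ).im) (|(y : ℍ).re| / (y : ℍ).im) + 1 with ht
    have hx0 := norm_pos' (x : ℍ)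
    have hy0 := norm_pos' (y : ℍ)
    have hmin : 0 < min ‖((x : ℍ) : ℂ)‖ ‖((y : ℍ) : ℂ)‖ := lt_min hx0 hy0
    have ha0 : 0 < a := by positivity
    have hmm : min ‖((x : ℍ) : ℂ)‖ ‖((y : ℍ) : ℂ)‖ ≤ max ‖((x : ℍ) : ℂ)‖ ‖((y : ℍ) : ℂ)‖ :=
      min_le_max
    have hxi := (x : ℍ).im_pos
    have hyi := (y : ℍ).im_pos
    have ht0 : 0 < t := by
      have : 0 ≤ |(x : ℍ).re| / (x : ℍ).im := by positivity
      have := le_max_left (|(x : ℍ).re| / (x : ℍ).im) (|(y : ℍ).re| / (y : ℍ).im)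
      linarith
    have hxr : (x : ℍ) ∈ reg a b t := by
      refine ⟨?_, ?_, ?_⟩
      · have := min_le_left ‖((x : ℍ) : ℂ)‖ ‖((y : ℍ) : ℂ)‖
        rw [ha]; linarith
      · have := le_max_left ‖((x : ℍ) : ℂ)‖ ‖((y : ℍ) : ℂ)‖
        rw [hb]; linarith
      · rw [← div_lt_iff₀ hxi]
        have := le_max_left (|(x : ℍ).re| / (x : ℍ).im) (|(y : ℍ).re| / (y : ℍ).im)
        rw [ht]; linarith
    have hyr : (y : ℍ) ∈ reg a b t := by
      refine ⟨?_, ?_, ?_⟩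
      · have := min_le_right ‖((x : ℍ) : ℂ)‖ ‖((y : ℍ) : ℂ)‖
        rw [ha]; linarith
      · have := le_max_right ‖((x : ℍ) : ℂ)‖ ‖((y : ℍ) : ℂ)‖
        rw [hb]; linarith
      · rw [← div_lt_iff₀ hyi]
        have := le_max_right (|(x : ℍ).re| / (x : ℍ).im) (|(y : ℍ).re| / (y : ℍ).im)
        rw [ht]; linarith
    obtain ⟨w, _⟩ := walk_of_reg hA hne ha0 (by rw [ha, hb]; linarith) ht0 hxr hyr
      (x := x) (y := y) mem_cell_self mem_cell_self
    exact ⟨w⟩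
  have : Nonempty A := hne.to_subtype
  exact ⟨hpre⟩

variable {Ω : Type*} [MeasurableSpace Ω] {P : Measure Ω} [IsProbabilityMeasure P] {lam : ℝ}
  {Q : Ω → Set ℍ}

theorem ae_locFin (hQ : IsPoissonProcess P lam Q) (hlam : 0 < lam) :
    ∀ᵐ ω ∂P, LocFin (Q ω) := by
  have h1 : ∀ g : ℕ, ∀ᵐ ω ∂P, (Q ω ∩ bigBox g 0).Finite := fun g =>
    hQ.ae_finite hlam.le (measurableSet_bigBox g 0) (volume_bigBox_ne_top g 0)
  filter_upwards [ae_all_iff.mpr h1] with ω hω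
  exact locFin_of_box hω

theorem ae_nonempty (hQ : IsPoissonProcess P lam Q) (hlam : 0 < lam) :
    ∀ᵐ ω ∂P, (Q ω).Nonempty := by
  rw [ae_iff]
  by_contra hcon
  have hpos : 0 < P {ω | ¬ (Q ω).Nonempty} := pos_iff_ne_zero.mpr hcon
  obtain ⟨ε, hε0, hε⟩ := exists_between hpos
  obtain ⟨Λ, _, hΛ⟩ := cover_event hQ hlam hε0
  have hsub : {ω | ¬ (Q ω).Nonempty} ⊆ {ω | ¬ CoverOK (Q ω) Λ} := by
    intro ω hω hc
    obtain ⟨x, hx, _⟩ := hc I
    exact hω ⟨x, hx⟩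
  exact absurd ((measure_mono hsub).trans hΛ) (not_le.mpr hε)

theorem StripOK.mono {A : Set ℍ} {C : ℝ} {m n : ℕ} (h : StripOK A C m) (hmn : m ≤ n) :
    StripOK A C n := fun k hk => h k (hmn.trans hk)

theorem LowOK.mono {A : Set ℍ} {h m n : ℕ} (hL : LowOK A h m) (hmn : m ≤ n) :
    LowOK A h n := fun k hk => hL k (hmn.trans hk)

theorem HighOK.mono {A : Set ℍ} {h c m n : ℕ} (hH : HighOK A h c m) (hmn : m ≤ n) :
    HighOK A h c n := fun k hk => hH k (hmn.trans hk)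

/-- good configurations have probability close to one -/
theorem good_event (hQ : IsPoissonProcess P lam Q) (hlam : 0 < lam) {ε : ℝ≥0∞} (hε : 0 < ε) :
    ∃ (Λ C : ℝ) (α h m₀ : ℕ), 1 ≤ Λ ∧ 0 < C ∧ 7 ≤ α ∧ 64 * (C + 2) * 2 ^ α ≤ (2 : ℝ) ^ h ∧
      P {ω | ¬ Good (Q ω) Λ C α h m₀} ≤ ε := by
  have hε4 : 0 < ε / 4 := ENNReal.div_pos hε.ne' ENNReal.ofNat_ne_top
  obtain ⟨Λ, hΛ, hcover⟩ := cover_event hQ hlam hε4
  obtain ⟨C, hC, hstrip⟩ := strip_event hQ hlam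
  obtain ⟨c₁, hhigh⟩ := high_event hQ hlam
  set α := c₁ + 7 with hα
  obtain ⟨h, hh⟩ := pow_unbounded_of_one_lt (64 * (C + 2) * 2 ^ α) (show (1 : ℝ) < 2 by norm_num)
  obtain ⟨m1, hm1⟩ := hstrip (ε / 4) hε4
  obtain ⟨m2, hm2⟩ := low_event hQ hlam (h + 1) (ε / 4) hε4
  obtain ⟨m3, hm3⟩ := hhigh (2 * α - 3) (by omega) h (ε / 4) hε4
  refine ⟨Λ, C, α, h, max m1 (max m2 m3), hΛ, hC, by omega, hh.le, ?_⟩
  have hnull : P {ω | ¬ (LocFin (Q ω) ∧ (Q ω).Nonempty)} = 0 := by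
    have := (ae_locFin hQ hlam).and (ae_nonempty hQ hlam)
    rwa [ae_iff] at this
  have hsub : {ω | ¬ Good (Q ω) Λ C α h (max m1 (max m2 m3))} ⊆
      {ω | ¬ (LocFin (Q ω) ∧ (Q ω).Nonempty)} ∪ ({ω | ¬ CoverOK (Q ω) Λ} ∪
      ({ω | LocFin (Q ω) ∧ (Q ω).Nonempty ∧ ¬ StripOK (Q ω) C m1} ∪
      ({ω | LocFin (Q ω) ∧ (Q ω).Nonempty ∧ ¬ LowOK (Q ω) (h + 1) m2} ∪
      {ω | ¬ HighOK (Q ω) h (2 * α - 3) m3}))) := by
    intro ω hω
    by_contra hcon
    simp only [Set.mem_union, not_or, Set.mem_ofPred_eq, not_not] at hcon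
    obtain ⟨⟨e1, e2⟩, e3, e4, e5, e6⟩ := hcon
    apply hω
    have e4' : StripOK (Q ω) C m1 := by
      by_contra hn
      exact e4 ⟨e1, e2, hn⟩
    have e5' : LowOK (Q ω) (h + 1) m2 := by
      by_contra hn
      exact e5 ⟨e1, e2, hn⟩
    exact ⟨e1, e3, e4'.mono (le_max_left _ _),
      e5'.mono ((le_max_left _ _).trans (le_max_right _ _)),
      e6.mono ((le_max_right _ _).trans (le_max_right _ _))⟩
  refine (measure_mono hsub).trans ((measure_union_le _ _).trans ?_)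
  rw [hnull, zero_add]
  calc _ ≤ ε / 4 + (ε / 4 + (ε / 4 + ε / 4)) := by
        refine (measure_union_le _ _).trans (add_le_add hcover ?_)
        refine (measure_union_le _ _).trans (add_le_add hm1 ?_)
        exact (measure_union_le _ _).trans (add_le_add hm2 hm3)
    _ = ε := by
        have h1 : ε / 4 + (ε / 4 + (ε / 4 + ε / 4)) = 4 * (ε / 4) := by ring
        rw [h1, ENNReal.mul_div_cancel (by norm_num) (by norm_num)]

theorem count_tail (hQ : IsPoissonProcess P lam Q) (hlam : 0 < lam) (g : ℕ) {ε : ℝ≥0∞}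
    (hε : 0 < ε) : ∃ M : ℕ, P {ω | (M : ℕ∞) < (Q ω ∩ bigBox g 0).encard} ≤ ε := by
  have hfin := hQ.ae_finite hlam.le (measurableSet_bigBox g 0) (volume_bigBox_ne_top g 0)
  have hmeas : ∀ M : ℕ, MeasurableSet {ω | (M : ℕ∞) < (Q ω ∩ bigBox g 0).encard} := fun M =>
    (hQ.measurable_count _ (measurableSet_bigBox g 0)) (MeasurableSet.of_discrete (s := Set.Ioi (M : ℕ∞)))
  have hanti : Antitone fun M : ℕ => {ω | (M : ℕ∞) < (Q ω ∩ bigBox g 0).encard} := by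
    intro M N hMN ω hω
    have h1 : (M : ℕ∞) ≤ N := by exact_mod_cast hMN
    exact lt_of_le_of_lt h1 hω
  have hlim := tendsto_measure_iInter_atTop (μ := P)
    (s := fun M : ℕ => {ω | (M : ℕ∞) < (Q ω ∩ bigBox g 0).encard})
    (fun M => (hmeas M).nullMeasurableSet) hanti ⟨0, measure_ne_top _ _⟩
  have hzero : P (⋂ M : ℕ, {ω | (M : ℕ∞) < (Q ω ∩ bigBox g 0).encard}) = 0 := by
    rw [ae_iff] at hfin
    refine measure_mono_null ?_ hfin
    intro ω hω hf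
    rw [Set.mem_iInter] at hω
    have h1 := hω (Q ω ∩ bigBox g 0).ncard
    have h2 : ((Q ω ∩ bigBox g 0).ncard : ℕ∞) = (Q ω ∩ bigBox g 0).encard := hf.cast_ncard_eq
    have h3 : ((Q ω ∩ bigBox g 0).ncard : ℕ∞) < (Q ω ∩ bigBox g 0).encard := h1
    rw [h2] at h3
    exact lt_irrefl _ h3
  rw [hzero] at hlim
  obtain ⟨M, hM⟩ := ((tendsto_order.mp hlim).2 ε hε).exists
  exact ⟨M, hM.le⟩

/-- the deviation is tight even uniformly in the parameter -/
theorem tight_uniform (hQ : IsPoissonProcess P lam Q) (hlam : 0 < lam) :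
    Filter.Tendsto (fun M : ℕ => P {ω | ∃ r ∈ Set.Ico (0 : ℝ) 1,
      (M : ℕ∞) < deviation (Q ω) r}) Filter.atTop (nhds 0) := by
  rw [ENNReal.tendsto_nhds_zero]
  intro ε hε
  have hε2 : 0 < ε / 2 := ENNReal.div_pos hε.ne' ENNReal.ofNat_ne_top
  obtain ⟨Λ, C, α, h, m₀, hΛ, hC, hα, hh, hgood⟩ := good_event hQ hlam hε2
  obtain ⟨g, hg⟩ := deviation_le (m₀ := m₀) hΛ hC hα hh
  obtain ⟨M, hM⟩ := count_tail hQ hlam g hε2
  filter_upwards [Filter.eventually_ge_atTop M] with N hN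
  have hsub : {ω | ∃ r ∈ Set.Ico (0 : ℝ) 1, (N : ℕ∞) < deviation (Q ω) r} ⊆
      {ω | ¬ Good (Q ω) Λ C α h m₀} ∪ {ω | (M : ℕ∞) < (Q ω ∩ bigBox g 0).encard} := by
    rintro ω ⟨r, hr, hω⟩
    by_cases hG : Good (Q ω) Λ C α h m₀
    · right
      have h1 := hg (Q ω) hG r hr
      have h2 : (M : ℕ∞) ≤ N := by exact_mod_cast hN
      exact lt_of_le_of_lt h2 (lt_of_lt_of_le hω h1)
    · exact Or.inl hG
  refine (measure_mono hsub).trans ((measure_union_le _ _).trans ?_)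
  calc _ ≤ ε / 2 + ε / 2 := add_le_add hgood hM
    _ = ε := ENNReal.add_halves ε

/-- the main theorem: tightness of the deviation -/
theorem tight (hQ : IsPoissonProcess P lam Q) (hlam : 0 < lam) :
    Filter.Tendsto (fun M : ℕ => ⨆ r ∈ Set.Ico (0 : ℝ) 1,
      P {ω | (M : ℕ∞) < deviation (Q ω) r}) Filter.atTop (nhds 0) := by
  refine tendsto_of_tendsto_of_tendsto_of_le_of_le tendsto_const_nhds (tight_uniform hQ hlam)
    (fun M => zero_le) fun M => iSup₂_le fun r hr => measure_mono fun ω hω => ⟨r, hr, hω⟩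

/-- almost surely the graph is connected and the cells cover the plane -/
theorem ae_connected (hQ : IsPoissonProcess P lam Q) (hlam : 0 < lam) :
    ∀ᵐ ω ∂P, (voronoiGraph (Q ω)).Connected ∧ ∀ z : ℍ, ∃ x ∈ Q ω, z ∈ cell (Q ω) x := by
  filter_upwards [ae_locFin hQ hlam, ae_nonempty hQ hlam] with ω h1 h2
  exact ⟨connected_of_locFin h1 h2, exists_nucleus h1 h2⟩

end

end Pool.Agent.Y979.HV
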