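import Mathlib

/-!
# Geometry of the upper half plane in coordinates adapted to the imaginary axis

`sc z = log |z|` is the coordinate of the foot of the perpendicular from `z` to the imaginary
axis, `kp z = |z| / im z` is the hyperbolic cosine of the distance from `z` to that axis.
-/

set_option autoImplicit false

open UpperHalfPlane Real

namespace Pool.Agent.Y979.HV

noncomputable section

/-- the coordinate along the imaginary axis -/
def sc (z : ℍ) : ℝ := Real.log ‖(z : ℂ)‖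

/-- the hyperbolic cosine of the distance to the imaginary axis -/
def kp (z : ℍ) : ℝ := ‖(z : ℂ)‖ / z.im

theorem norm_pos' (z : ℍ) : 0 < ‖(z : ℂ)‖ := by
  have := z.ne_zero
  positivity

theorem exp_sc (z : ℍ) : Real.exp (sc z) = ‖(z : ℂ)‖ := Real.exp_log (norm_pos' z)

theorem norm_sq_eq (z : ℍ) : ‖(z : ℂ)‖ ^ 2 = z.re ^ 2 + z.im ^ 2 := by
  rw [← Complex.normSq_eq_norm_sq, Complex.normSq_apply]
  simp only [UpperHalfPlane.coe_re, UpperHalfPlane.coe_im]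
  ring

theorem im_le_norm (z : ℍ) : z.im ≤ ‖(z : ℂ)‖ := by
  have h := norm_sq_eq z
  have h1 := z.im_pos
  have h2 := norm_pos' z
  nlinarith [sq_nonneg z.re]

theorem abs_re_le_norm (z : ℍ) : |z.re| ≤ ‖(z : ℂ)‖ := by
  have h := norm_sq_eq z
  have h2 := norm_pos' z
  refine abs_le_of_sq_le_sq ?_ h2.le
  nlinarith [sq_nonneg z.im]

theorem one_le_kp (z : ℍ) : 1 ≤ kp z := by
  unfold kp
  rw [le_div_iff₀ z.im_pos]
  simpa using im_le_norm z

theorem kp_pos (z : ℍ) : 0 < kp z := lt_of_lt_of_le one_pos (one_le_kp z)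

/-- the formula for the distance in terms of `sc` -/
theorem cosh_dist_sc (z w : ℍ) : Real.cosh (dist z w) =
    (‖(z : ℂ)‖ * ‖(w : ℂ)‖ * Real.cosh (sc z - sc w) - z.re * w.re) / (z.im * w.im) := by
  have hz := norm_pos' z
  have hw := norm_pos' w
  have h1 : Real.cosh (sc z - sc w) = (‖(z : ℂ)‖ ^ 2 + ‖(w : ℂ)‖ ^ 2) / (2 * ‖(z : ℂ)‖ * ‖(w : ℂ)‖) := by
    rw [Real.cosh_eq, neg_sub, Real.exp_sub, Real.exp_sub, exp_sc, exp_sc]
    field_simp
  have h2 : dist (z : ℂ) w ^ 2 = (z.re - w.re) ^ 2 + (z.im - w.im) ^ 2 := by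
    rw [Complex.dist_eq, ← Complex.normSq_eq_norm_sq, Complex.normSq_apply]
    simp only [Complex.sub_re, Complex.sub_im, UpperHalfPlane.coe_re, UpperHalfPlane.coe_im]
    ring
  rw [UpperHalfPlane.cosh_dist, h1, h2]
  have hzi := z.im_pos
  have hwi := w.im_pos
  have e1 := norm_sq_eq z
  have e2 := norm_sq_eq w
  rw [show ‖(z : ℂ)‖ * ‖(w : ℂ)‖ * ((‖(z : ℂ)‖ ^ 2 + ‖(w : ℂ)‖ ^ 2) / (2 * ‖(z : ℂ)‖ * ‖(w : ℂ)‖))
      = (‖(z : ℂ)‖ ^ 2 + ‖(w : ℂ)‖ ^ 2) / 2 by field_simp, e1, e2]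
  field_simp
  ring

/-- the basic lower bound for the distance -/
theorem kp_mul_le (z w : ℍ) :
    1 + kp z * kp w * (Real.cosh (sc z - sc w) - 1) ≤ Real.cosh (dist z w) := by
  rw [cosh_dist_sc]
  unfold kp
  have hz := norm_pos' z
  have hw := norm_pos' w
  have hzi := z.im_pos
  have hwi := w.im_pos
  have e1 := norm_sq_eq z
  have e2 := norm_sq_eq w
  have key : z.re * w.re + z.im * w.im ≤ ‖(z : ℂ)‖ * ‖(w : ℂ)‖ := by
    apply le_of_sq_le_sq _ (by positivity)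
    rw [mul_pow, e1, e2]
    nlinarith [sq_nonneg (z.re * w.im - z.im * w.re)]
  rw [le_div_iff₀ (by positivity)]
  have : (1 + ‖(z : ℂ)‖ / z.im * (‖(w : ℂ)‖ / w.im) * (Real.cosh (sc z - sc w) - 1)) * (z.im * w.im)
      = z.im * w.im + ‖(z : ℂ)‖ * ‖(w : ℂ)‖ * (Real.cosh (sc z - sc w) - 1) := by
    field_simp
  rw [this]
  nlinarith

theorem cosh_sc_le (z w : ℍ) : Real.cosh (sc z - sc w) ≤ Real.cosh (dist z w) := by
  have h := kp_mul_le z w
  have h1 := one_le_kp z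
  have h2 := one_le_kp w
  have h3 := Real.one_le_cosh (sc z - sc w)
  have h4 : 1 ≤ kp z * kp w := by nlinarith
  nlinarith

theorem abs_sc_sub_le (z w : ℍ) : |sc z - sc w| ≤ dist z w := by
  have h := cosh_sc_le z w
  rw [Real.cosh_le_cosh] at h
  rwa [abs_of_nonneg (dist_nonneg : 0 ≤ dist z w)] at h

theorem half_sq_le_cosh (t : ℝ) : t ^ 2 / 2 ≤ Real.cosh t - 1 := by
  have h1 : Real.cosh t = 1 + 2 * Real.sinh (t / 2) ^ 2 := by
    have := Real.cosh_two_mul (t / 2)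
    rw [show 2 * (t / 2) = t by ring, Real.cosh_sq] at this
    linarith
  have h2 : |t / 2| ≤ |Real.sinh (t / 2)| := by
    rw [Real.abs_sinh]
    exact Real.self_le_sinh_iff.mpr (abs_nonneg _)
  have h3 : (t / 2) ^ 2 ≤ Real.sinh (t / 2) ^ 2 := sq_le_sq.mpr h2
  rw [h1]
  nlinarith

theorem cosh_dist_eq (z w : ℍ) : Real.cosh (dist z w) =
    (‖(z : ℂ)‖ ^ 2 + ‖(w : ℂ)‖ ^ 2 - 2 * (z.re * w.re)) / (2 * (z.im * w.im)) := by
  have h2 : dist (z : ℂ) w ^ 2 = (z.re - w.re) ^ 2 + (z.im - w.im) ^ 2 := by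
    rw [Complex.dist_eq, ← Complex.normSq_eq_norm_sq, Complex.normSq_apply]
    simp only [Complex.sub_re, Complex.sub_im, UpperHalfPlane.coe_re, UpperHalfPlane.coe_im]
    ring
  rw [UpperHalfPlane.cosh_dist, h2, norm_sq_eq, norm_sq_eq]
  have hzi := z.im_pos
  have hwi := w.im_pos
  field_simp
  ring

/-- positive combinations in the hyperboloid model -/
theorem exists_comb (z w : ℍ) (α β : ℝ) (hα : 0 ≤ α) (hβ : 0 ≤ β) (h : 0 < α + β) :
    ∃ u : ℍ, ∀ x : ℍ, Real.cosh (dist u x) =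
      (α * Real.cosh (dist z x) + β * Real.cosh (dist w x)) /
        √(α ^ 2 + β ^ 2 + 2 * α * β * Real.cosh (dist z w)) := by
  have hzi := z.im_pos
  have hwi := w.im_pos
  set N : ℝ := α ^ 2 + β ^ 2 + 2 * α * β * Real.cosh (dist z w) with hN
  have hc := Real.one_le_cosh (dist z w)
  have hNpos : 0 < N := by
    have : (α + β) ^ 2 ≤ N := by
      rw [hN]
      nlinarith [mul_nonneg hα hβ]
    have h2 : 0 < (α + β) ^ 2 := by positivity
    linarith
  set p : ℝ := α / z.im + β / w.im with hp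
  have hppos : 0 < p := by
    rcases hα.lt_or_eq with h1 | h1
    · have : 0 < α / z.im := by positivity
      have : 0 ≤ β / w.im := by positivity
      linarith
    · have hb : 0 < β := by linarith
      have : 0 < β / w.im := by positivity
      have : 0 ≤ α / z.im := by positivity
      linarith
  set q : ℝ := α * z.re / z.im + β * w.re / w.im with hq
  have hs : 0 < √N := Real.sqrt_pos.mpr hNpos
  have hss : √N ^ 2 = N := Real.sq_sqrt hNpos.le
  have him : 0 < √N / p := by positivity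
  refine ⟨⟨⟨q / p, √N / p⟩, him⟩, fun x => ?_⟩
  have hxi := x.im_pos
  have hNeq : N = p * (α * ‖(z : ℂ)‖ ^ 2 / z.im + β * ‖(w : ℂ)‖ ^ 2 / w.im) - q ^ 2 := by
    rw [hN, hp, hq, cosh_dist_eq, norm_sq_eq, norm_sq_eq]
    field_simp
    ring
  rw [cosh_dist_eq, cosh_dist_eq z x, cosh_dist_eq w x, norm_sq_eq]
  simp only [UpperHalfPlane.mk_re, UpperHalfPlane.mk_im]
  have e : (q / p) ^ 2 + (√N / p) ^ 2 = (α * ‖(z : ℂ)‖ ^ 2 / z.im + β * ‖(w : ℂ)‖ ^ 2 / w.im) / p := by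
    rw [div_pow, div_pow, hss, hNeq]
    field_simp
    ring
  rw [e]
  have hA : α = α / z.im * z.im := by field_simp
  have hB : β = β / w.im * w.im := by field_simp
  have hpq : (α * ‖(z : ℂ)‖ ^ 2 / z.im + β * ‖(w : ℂ)‖ ^ 2 / w.im) + p * ‖(x : ℂ)‖ ^ 2 - 2 * (q * x.re)
      = α / z.im * (‖(z : ℂ)‖ ^ 2 + ‖(x : ℂ)‖ ^ 2 - 2 * (z.re * x.re))
        + β / w.im * (‖(w : ℂ)‖ ^ 2 + ‖(x : ℂ)‖ ^ 2 - 2 * (w.re * x.re)) := by
    rw [hp, hq]
    ring
  have hl : ((α * ‖(z : ℂ)‖ ^ 2 / z.im + β * ‖(w : ℂ)‖ ^ 2 / w.im) / p + ‖(x : ℂ)‖ ^ 2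
      - 2 * (q / p * x.re)) / (2 * (√N / p * x.im))
      = ((α * ‖(z : ℂ)‖ ^ 2 / z.im + β * ‖(w : ℂ)‖ ^ 2 / w.im) + p * ‖(x : ℂ)‖ ^ 2 - 2 * (q * x.re))
        / (2 * √N * x.im) := by
    generalize (α * ‖(z : ℂ)‖ ^ 2 / z.im + β * ‖(w : ℂ)‖ ^ 2 / w.im) = G
    generalize √N = S at hs
    have hS := hs.ne'
    have hP := hppos.ne'
    field_simp
  rw [hl, hpq]
  have hz0 := hzi.ne'
  have hw0 := hwi.ne'
  have hx0 := hxi.ne'
  have hS0 := hs.ne'
  field_simp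

end

end Pool.Agent.Y979.HV
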