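import Pool.Agent.Y979.HV.Defs
import Pool.Agent.Y979.HV.Geom

/-!
# Voronoi cells in the hyperbolic plane
-/

set_option autoImplicit false

open UpperHalfPlane Real

namespace Pool.Agent.Y979.HV

noncomputable section

theorem cosh_inj_dist {a b : ℝ} (ha : 0 ≤ a) (hb : 0 ≤ b) (h : Real.cosh a = Real.cosh b) :
    a = b := by
  have h1 : Real.cosh a ≤ Real.cosh b := h.le
  have h2 : Real.cosh b ≤ Real.cosh a := h.ge
  rw [Real.cosh_le_cosh, abs_of_nonneg ha, abs_of_nonneg hb] at h1
  rw [Real.cosh_le_cosh, abs_of_nonneg ha, abs_of_nonneg hb] at h2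
  exact le_antisymm h1 h2

theorem cosh_dist_le_iff (z w u v : ℍ) :
    Real.cosh (dist z w) ≤ Real.cosh (dist u v) ↔ dist z w ≤ dist u v := by
  rw [Real.cosh_le_cosh, abs_of_nonneg dist_nonneg, abs_of_nonneg dist_nonneg]

theorem sinh_add_sq (a b : ℝ) : Real.sinh b ^ 2 + Real.sinh a ^ 2 +
    2 * Real.sinh b * Real.sinh a * Real.cosh (a + b) = Real.sinh (a + b) ^ 2 := by
  rw [Real.sinh_add, Real.cosh_add]
  have h1 := Real.cosh_sq a
  have h2 := Real.cosh_sq b
  linear_combination (-(Real.sinh b ^ 2)) * h1 - (Real.sinh a ^ 2) * h2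

/-- Stewart's formula: distances to a point of a geodesic segment -/
theorem stewart {z w u : ℍ} (h : dist z u + dist u w = dist z w) (x : ℍ) :
    Real.sinh (dist z w) * Real.cosh (dist u x) =
      Real.sinh (dist u w) * Real.cosh (dist z x) + Real.sinh (dist z u) * Real.cosh (dist w x) := by
  have ha : 0 ≤ dist z u := dist_nonneg
  have hb : 0 ≤ dist u w := dist_nonneg
  rcases (dist_nonneg : 0 ≤ dist z w).eq_or_lt with h0 | h0
  · have h1 : dist z u = 0 := by linarith
    have h2 : dist u w = 0 := by linarith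
    rw [h1, h2, ← h0]
    simp
  set a := dist z u with hadef
  set b := dist u w with hbdef
  have hsa : 0 ≤ Real.sinh a := Real.sinh_nonneg_iff.mpr ha
  have hsb : 0 ≤ Real.sinh b := Real.sinh_nonneg_iff.mpr hb
  have hD : 0 < Real.sinh (dist z w) := Real.sinh_pos_iff.mpr h0
  have hpos : 0 < Real.sinh b + Real.sinh a := by
    rcases ha.eq_or_lt with h1 | h1
    · have h2 : 0 < b := by linarith
      have := Real.sinh_pos_iff.mpr h2
      linarith
    · have := Real.sinh_pos_iff.mpr h1
      linarith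
  obtain ⟨u', hu'⟩ := exists_comb z w (Real.sinh b) (Real.sinh a) hsb hsa hpos
  have hN : √(Real.sinh b ^ 2 + Real.sinh a ^ 2 + 2 * Real.sinh b * Real.sinh a *
      Real.cosh (dist z w)) = Real.sinh (dist z w) := by
    rw [← h, sinh_add_sq a b, Real.sqrt_sq]
    rw [h]
    exact hD.le
  have h1 := hu' u
  rw [hN] at h1
  have h2 : Real.cosh (dist u' u) = 1 := by
    rw [h1, ← hadef, dist_comm w u, ← hbdef]
    rw [div_eq_one_iff_eq hD.ne', ← h, Real.sinh_add]
    ring
  have h3 : dist u' u = 0 := by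
    apply cosh_inj_dist dist_nonneg le_rfl
    rw [h2, Real.cosh_zero]
  have h4 : u' = u := dist_eq_zero.mp h3
  have h5 := hu' x
  rw [hN, h4] at h5
  rw [h5]
  field_simp

/-- points on geodesic segments exist -/
theorem exists_on_segment {z w : ℍ} {s : ℝ} (hs : 0 ≤ s) (hs' : s ≤ dist z w) :
    ∃ u : ℍ, dist z u = s ∧ dist u w = dist z w - s := by
  rcases (dist_nonneg : 0 ≤ dist z w).eq_or_lt with h0 | h0
  · refine ⟨z, ?_, ?_⟩
    · rw [dist_self]; linarith
    · linarith
  set D := dist z w with hDdef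
  have hb : 0 ≤ D - s := by linarith
  have hsa : 0 ≤ Real.sinh s := Real.sinh_nonneg_iff.mpr hs
  have hsb : 0 ≤ Real.sinh (D - s) := Real.sinh_nonneg_iff.mpr hb
  have hD : 0 < Real.sinh D := Real.sinh_pos_iff.mpr h0
  have hpos : 0 < Real.sinh (D - s) + Real.sinh s := by
    rcases hs.eq_or_lt with h1 | h1
    · have h2 : 0 < D - s := by linarith
      have := Real.sinh_pos_iff.mpr h2
      linarith
    · have := Real.sinh_pos_iff.mpr h1
      linarith
  obtain ⟨u, hu⟩ := exists_comb z w (Real.sinh (D - s)) (Real.sinh s) hsb hsa hpos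
  have hN : √(Real.sinh (D - s) ^ 2 + Real.sinh s ^ 2 + 2 * Real.sinh (D - s) * Real.sinh s *
      Real.cosh (dist z w)) = Real.sinh D := by
    have := sinh_add_sq s (D - s)
    rw [show s + (D - s) = D by ring] at this
    rw [← hDdef, this, Real.sqrt_sq hD.le]
  refine ⟨u, ?_, ?_⟩
  · have h1 := hu z
    rw [hN, dist_self, Real.cosh_zero, dist_comm w z, ← hDdef] at h1
    apply cosh_inj_dist dist_nonneg hs
    rw [dist_comm, h1, div_eq_iff hD.ne', Real.sinh_sub]
    ring
  · have h1 := hu w
    rw [hN, dist_self, Real.cosh_zero, ← hDdef] at h1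
    apply cosh_inj_dist dist_nonneg hb
    rw [h1, div_eq_iff hD.ne']
    have h2 := Real.cosh_sq D
    have h3 := Real.cosh_sq s
    rw [Real.cosh_sub, Real.sinh_sub]
    linear_combination (-(Real.sinh s)) * h2

theorem mem_cell_self {A : Set ℍ} {x : ℍ} : x ∈ cell A x := by
  intro y _
  rw [dist_self]
  exact dist_nonneg

theorem isClosed_cell (A : Set ℍ) (x : ℍ) : IsClosed (cell A x) := by
  have : cell A x = ⋂ y ∈ A, {z | dist z x ≤ dist z y} := by
    ext z
    simp [cell]
  rw [this]
  refine isClosed_biInter fun y _ => isClosed_le ?_ ?_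
  · exact continuous_id.dist continuous_const
  · exact continuous_id.dist continuous_const

/-- cells are star shaped around their nucleus -/
theorem mem_cell_of_between {A : Set ℍ} {x z u : ℍ} (hz : z ∈ cell A x)
    (hu : dist x u + dist u z = dist x z) : u ∈ cell A x := by
  intro y hy
  have h1 := hz y hy
  have h2 := dist_triangle z u y
  rw [dist_comm z u] at h2
  rw [dist_comm z x] at h1
  rw [dist_comm u x]
  linarith

/-- cells are convex -/
theorem mem_cell_of_segment {A : Set ℍ} {x z w u : ℍ} (hz : z ∈ cell A x) (hw : w ∈ cell A x)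
    (hu : dist z u + dist u w = dist z w) : u ∈ cell A x := by
  intro y hy
  rcases (dist_nonneg : 0 ≤ dist z w).eq_or_lt with h0 | h0
  · have h1 : dist z u = 0 := by
      have : 0 ≤ dist z u := dist_nonneg
      have : 0 ≤ dist u w := dist_nonneg
      linarith
    rw [← dist_eq_zero.mp h1]
    exact hz y hy
  have hD : 0 < Real.sinh (dist z w) := Real.sinh_pos_iff.mpr h0
  have e1 := stewart hu x
  have e2 := stewart hu y
  have h1 := (cosh_dist_le_iff _ _ _ _).mpr (hz y hy)
  have h2 := (cosh_dist_le_iff _ _ _ _).mpr (hw y hy)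
  have hsa : 0 ≤ Real.sinh (dist z u) := Real.sinh_nonneg_iff.mpr dist_nonneg
  have hsb : 0 ≤ Real.sinh (dist u w) := Real.sinh_nonneg_iff.mpr dist_nonneg
  rw [← cosh_dist_le_iff]
  have h3 : Real.sinh (dist z w) * Real.cosh (dist u x) ≤
      Real.sinh (dist z w) * Real.cosh (dist u y) := by
    rw [e1, e2]
    have := mul_le_mul_of_nonneg_left h1 hsb
    have := mul_le_mul_of_nonneg_left h2 hsa
    linarith
  exact le_of_mul_le_mul_left h3 hD

theorem adj_of_two {A : Set ℍ} {x y : A} (hxy : x ≠ y) {z w : ℍ} (hzw : z ≠ w)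
    (hz : z ∈ cell A x ∩ cell A y) (hw : w ∈ cell A x ∩ cell A y) :
    (voronoiGraph A).Adj x y :=
  ⟨hxy, z, w, hzw, fun _ hu => ⟨mem_cell_of_segment hz.1 hw.1 hu, mem_cell_of_segment hz.2 hw.2 hu⟩⟩

theorem exists_touch {A : Set ℍ} {x y : A} (h : (voronoiGraph A).Adj x y) :
    ∃ z : ℍ, z ∈ cell A x ∩ cell A y := by
  obtain ⟨_, z, w, _, h2⟩ := h
  refine ⟨z, h2 z ?_⟩
  rw [dist_self, zero_add]

/-- local finiteness -/
def LocFin (A : Set ℍ) : Prop := ∀ (z : ℍ) (R : ℝ), (A ∩ Metric.closedBall z R).Finite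

theorem exists_nucleus {A : Set ℍ} (hA : LocFin A) (hne : A.Nonempty) (z : ℍ) :
    ∃ x ∈ A, z ∈ cell A x := by
  obtain ⟨x0, hx0⟩ := hne
  have hfin := hA z (dist x0 z)
  have hne' : (A ∩ Metric.closedBall z (dist x0 z)).Nonempty :=
    ⟨x0, hx0, Metric.mem_closedBall.mpr le_rfl⟩
  obtain ⟨x, hx, hmin⟩ := Set.exists_min_image _ (fun x => dist z x) hfin hne'
  refine ⟨x, hx.1, fun y hy => ?_⟩
  by_cases hyb : y ∈ Metric.closedBall z (dist x0 z)
  · exact hmin y ⟨hy, hyb⟩
  · rw [Metric.mem_closedBall, not_le] at hyb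
    have := Metric.mem_closedBall.mp hx.2
    rw [dist_comm z x, dist_comm z y]
    linarith

/-- cells that meet an open set meet it in infinitely many points -/
theorem infinite_inter {A : Set ℍ} (hA : LocFin A) {x : ℍ} {U : Set ℍ} (hU : IsOpen U)
    {z : ℍ} (hz : z ∈ U) (hzc : z ∈ cell A x) : (U ∩ cell A x).Infinite := by
  obtain ⟨ε, hε, hball⟩ := Metric.isOpen_iff.mp hU z hz
  -- it suffices to find a point w ≠ z and with the segment [z,w] in the cell
  obtain ⟨w, hwz, hw⟩ : ∃ w : ℍ, w ≠ z ∧ ∀ u, dist z u + dist u w = dist z w → u ∈ cell A x := by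
    by_cases hxz : x = z
    · subst hxz
      -- a small ball around x is in the cell
      have hfin := hA x 1
      obtain ⟨δ, hδ, hδ'⟩ : ∃ δ > 0, ∀ y ∈ A, y ≠ x → δ ≤ dist x y := by
        have hfin' : ((A ∩ Metric.closedBall x 1) \ {x}).Finite := hfin.sdiff
        rcases ((A ∩ Metric.closedBall x 1) \ {x}).eq_empty_or_nonempty with he | hne
        · refine ⟨1, one_pos, fun y hy hyx => ?_⟩
          by_contra hcon
          push Not at hcon
          have : y ∈ (A ∩ Metric.closedBall x 1) \ {x} :=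
            ⟨⟨hy, by rw [Metric.mem_closedBall, dist_comm]; exact hcon.le⟩, hyx⟩
          rw [he] at this
          exact this
        · obtain ⟨y0, hy0, hmin⟩ := Set.exists_min_image _ (fun y => dist x y) hfin' hne
          have hpos : 0 < dist x y0 := dist_pos.mpr (fun h => hy0.2 h.symm)
          refine ⟨min 1 (dist x y0), lt_min one_pos hpos, fun y hy hyx => ?_⟩
          by_cases hyb : y ∈ Metric.closedBall x 1
          · exact (min_le_right _ _).trans (hmin y ⟨⟨hy, hyb⟩, hyx⟩)
          · rw [Metric.mem_closedBall, not_le, dist_comm] at hyb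
            exact (min_le_left _ _).trans hyb.le
      -- a point at distance δ/4 from x
      obtain ⟨v, hv⟩ : ∃ v : ℍ, v ≠ x := by
        refine ⟨⟨⟨x.re, 2 * x.im⟩, by have := x.im_pos; simpa using this⟩, fun h => ?_⟩
        have h1 := congrArg UpperHalfPlane.im h
        have h2 := x.im_pos
        simp only [UpperHalfPlane.mk_im] at h1
        linarith
      have hvd : 0 < dist x v := dist_pos.mpr (Ne.symm hv)
      obtain ⟨w, hw1, _⟩ := exists_on_segment (z := x) (w := v) (s := min (δ / 2) (dist x v))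
        (by positivity) (min_le_right _ _)
      refine ⟨w, fun h => ?_, fun u hu y hy => ?_⟩
      · rw [h, dist_self] at hw1
        have : 0 < min (δ / 2) (dist x v) := lt_min (by linarith) hvd
        linarith
      · by_cases hyx : y = x
        · rw [hyx]
        · have h1 := hδ' y hy hyx
          have h2 : dist x w ≤ δ / 2 := hw1 ▸ min_le_left _ _
          have h3 := dist_triangle x u y
          have h4 : 0 ≤ dist u w := dist_nonneg
          rw [dist_comm u x]
          linarith
    · refine ⟨x, hxz, fun u hu => mem_cell_of_between hzc ?_⟩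
      rw [dist_comm x u, dist_comm u z, dist_comm x z]
      linarith
  have hd : 0 < dist z w := dist_pos.mpr hwz.symm
  -- points at distance s, 0 < s < min
  set S := min (ε / 2) (dist z w) with hS
  have hSpos : 0 < S := lt_min (by linarith) hd
  have hex : ∀ s : ℝ, s ∈ Set.Ioo 0 S → ∃ u, dist z u = s ∧ dist u w = dist z w - s := by
    intro s hs
    exact exists_on_segment hs.1.le (hs.2.le.trans (min_le_right _ _))
  choose! f hf using hex
  have hinj : Set.InjOn f (Set.Ioo 0 S) := by
    intro s hs t ht hst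
    have h1 := (hf s hs).1
    have h2 := (hf t ht).1
    rw [hst] at h1
    linarith
  have hinf : (f '' (Set.Ioo 0 S)).Infinite := (Set.infinite_image_iff hinj).mpr
    (Set.Ioo_infinite hSpos)
  refine hinf.mono ?_
  rintro _ ⟨s, hs, rfl⟩
  refine ⟨hball ?_, hw _ ?_⟩
  · rw [Metric.mem_ball, dist_comm, (hf s hs).1]
    have := hs.2
    have := min_le_left (ε / 2) (dist z w)
    linarith
  · rw [(hf s hs).1, (hf s hs).2]
    ring

end

end Pool.Agent.Y979.HV
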