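import Pool.Agent.Y979.HV.HighDet

/-!
# Geodesics of the Voronoi graph: preliminary lemmas
-/

set_option autoImplicit false

open UpperHalfPlane Real MeasureTheory

namespace Pool.Agent.Y979.HV

noncomputable section

/-- the good configurations -/
structure Good (A : Set ℍ) (Λ C : ℝ) (α h m₀ : ℕ) : Prop where
  loc : LocFin A
  cover : CoverOK A Λ
  strip : StripOK A C m₀
  low : LowOK A (h + 1) m₀
  high : HighOK A h (2 * α - 3) m₀

theorem cell_radius {A : Set ℍ} {Λ : ℝ} (hc : CoverOK A Λ) {q v : ℍ} (hq : q ∈ cell A v) :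
    Real.cosh (dist q v) ≤ Λ * (1 + dist (I : ℍ) q) := by
  obtain ⟨x, hx, h⟩ := hc q
  exact ((cosh_dist_le_iff q v q x).mpr (hq x hx)).trans h

theorem sublinear {Λ η u D : ℝ} (hΛ : 1 ≤ Λ) (hη : 0 < η) (hD : 0 ≤ D)
    (h : Real.cosh u ≤ Λ * (1 + D + u)) : u ≤ η * D + 2 * Λ * (2 + 1 / η) := by
  by_contra hcon
  push Not at hcon
  have hη' : 0 < 1 / η := by positivity
  have hB : 1 ≤ 2 * Λ * (2 + 1 / η) := by nlinarith
  have hηD : 0 ≤ η * D := by positivity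
  have hu1 : 1 < u := by linarith
  have h1 : D < u * (1 / η) := by
    have : η * D < u := by linarith
    have h2 := mul_lt_mul_of_pos_right this hη'
    have h3 : η * D * (1 / η) = D := by field_simp
    linarith
  have h2 := half_sq_le_cosh u
  have h3 : u ^ 2 / 2 < Λ * (u * (2 + 1 / η)) := by
    have : Λ * (1 + D + u) < Λ * (u * (2 + 1 / η)) := by
      apply mul_lt_mul_of_pos_left _ (by linarith)
      nlinarith
    linarith
  have h4 : u ^ 2 < (2 * Λ * (2 + 1 / η)) * u := by linarith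
  have h5 : u < 2 * Λ * (2 + 1 / η) := by
    rw [sq] at h4
    exact lt_of_mul_lt_mul_right h4 (by linarith)
  linarith

/-- the extent of a cell that contains a point close to the axis -/
theorem low_extent {A : Set ℍ} {Λ : ℝ} (hΛ : 1 ≤ Λ) (hc : CoverOK A Λ) {q v z : ℍ}
    (hq : q ∈ cell A v) (hz : z ∈ cell A v) :
    |sc v - sc z| ≤ 1 / 64 * dist (I : ℍ) q + 520 * Λ := by
  have h1 : dist q v ≤ 1 / 128 * dist (I : ℍ) q + 2 * Λ * (2 + 1 / (1 / 128)) := by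
    apply sublinear hΛ (by norm_num) dist_nonneg
    refine (cell_radius hc hq).trans ?_
    have : 0 ≤ dist q v := dist_nonneg
    apply mul_le_mul_of_nonneg_left _ (by linarith)
    linarith
  have h2 : dist (I : ℍ) v ≤ dist (I : ℍ) q + dist q v := dist_triangle _ _ _
  have h3 : dist z v ≤ 1 / 128 * dist (I : ℍ) v + 2 * Λ * (2 + 1 / (1 / 128)) := by
    apply sublinear hΛ (by norm_num) dist_nonneg
    refine (cell_radius hc hz).trans ?_
    have h4 : dist (I : ℍ) z ≤ dist (I : ℍ) v + dist v z := dist_triangle _ _ _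
    rw [dist_comm v z] at h4
    apply mul_le_mul_of_nonneg_left _ (by linarith)
    linarith
  have h5 := abs_sc_sub_le v z
  rw [dist_comm] at h5
  have h6 : 0 ≤ dist (I : ℍ) q := dist_nonneg
  norm_num at h1 h3
  linarith

theorem dist_I_low {q : ℍ} {h : ℕ} {m : ℝ} (hm : 0 ≤ m) (h1 : kp q ≤ (2 : ℝ) ^ (h + 1))
    (h2 : |sc q| ≤ m) : dist (I : ℍ) q ≤ m + h + 2 := by
  have h3 : Real.cosh (dist (I : ℍ) q) ≤ (2 : ℝ) ^ (h + 1) * Real.exp m := by
    rw [dist_I_eq]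
    refine mul_le_mul h1 ?_ (Real.cosh_pos _).le (by positivity)
    refine le_trans ?_ (cosh_le_exp hm)
    rw [Real.cosh_le_cosh, abs_of_nonneg hm]
    exact h2
  refine (dist_I_le h3).trans ?_
  have h4 : (2 : ℝ) * (2 ^ (h + 1) * Real.exp m) = 2 ^ (h + 2) * Real.exp m := by ring
  rw [h4, Real.log_mul (by positivity) (Real.exp_pos _).ne', Real.log_exp, Real.log_pow]
  have h5 : Real.log 2 ≤ 1 := by
    have := Real.log_two_lt_d9
    linarith
  have h6 : ((h + 2 : ℕ) : ℝ) * Real.log 2 ≤ ((h + 2 : ℕ) : ℝ) * 1 :=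
    mul_le_mul_of_nonneg_left h5 (Nat.cast_nonneg _)
  push_cast at h6 ⊢
  linarith

/-- the point of the axis with norm `2 ^ n` -/
def dyad (n : ℤ) : ℍ := ⟨⟨0, (2 : ℝ) ^ n⟩, by positivity⟩

theorem dyad_re (n : ℤ) : (dyad n).re = 0 := rfl
theorem dyad_im (n : ℤ) : (dyad n).im = (2 : ℝ) ^ n := rfl

theorem dyad_norm (n : ℤ) : ‖(dyad n : ℂ)‖ = (2 : ℝ) ^ n := by
  have h := norm_sq_eq (dyad n)
  rw [dyad_re, dyad_im] at h
  have h1 : ‖(dyad n : ℂ)‖ ^ 2 = ((2 : ℝ) ^ n) ^ 2 := by rw [h]; ring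
  exact (sq_eq_sq₀ (norm_nonneg _) (by positivity)).mp h1

theorem walk_of_reg {A : Set ℍ} (hA : LocFin A) (hne : A.Nonempty) {a b t : ℝ} (ha : 0 < a)
    (hab : a < b) (ht : 0 < t) {x y : A} {p q : ℍ} (hp : p ∈ reg a b t) (hq : q ∈ reg a b t)
    (hpx : p ∈ cell A x) (hqy : q ∈ cell A y) :
    ∃ w : (voronoiGraph A).Walk x y, (w.length : ℝ) ≤ ((meeting A (reg a b t)).ncard : ℝ) := by
  obtain ⟨R, hR⟩ := reg_subset_closedBall (a := a) (b := b) (t := t) ha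
  obtain ⟨w, hw⟩ := exists_walk_meeting hA (isOpen_reg a b t)
    (fun B hB => reg_diff_preconnected ha hab ht hB) (meeting_finite hA hne hR)
    (x := x) (y := y) ⟨p, hp, hpx⟩ ⟨q, hq, hqy⟩
  exact ⟨w, by exact_mod_cast hw.le⟩

/-- from a point close to the axis one reaches the cell of an axis point in few steps -/
theorem walk_to_axis {A : Set ℍ} {Λ C : ℝ} {α h m₀ : ℕ} (hG : Good A Λ C α h m₀) {M : ℕ}
    (hM : m₀ ≤ M + 1) {x : A} {p : ℍ} (hpx : p ∈ cell A x) (hk : kp p ≤ (2 : ℝ) ^ (h + 1))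
    (h1 : (2 : ℝ) ^ (-(M : ℤ)) ≤ ‖(p : ℂ)‖) (h2 : ‖(p : ℂ)‖ < (2 : ℝ) ^ (M : ℤ)) :
    ∃ n : ℤ, |n| ≤ M ∧ ∀ u : A, dyad n ∈ cell A u →
      ∃ w : (voronoiGraph A).Walk x u, (w.length : ℝ) ≤ (M : ℝ) + 1 := by
  have hne : A.Nonempty := by
    obtain ⟨x, hx, _⟩ := hG.cover I
    exact ⟨x, hx⟩
  have hpn := norm_pos' p
  have s1 := Int.zpow_log_le_self (b := 2) (by norm_num) hpn
  have s2 := Int.lt_zpow_succ_log_self (b := 2) (by norm_num) ‖(p : ℂ)‖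
  push_cast at s1 s2
  set n := Int.log 2 ‖(p : ℂ)‖ with hn
  have hn1 : -(M : ℤ) < n + 1 := by
    have := h1.trans_lt s2
    exact (zpow_lt_zpow_iff_right₀ (by norm_num : (1 : ℝ) < 2)).mp this
  have hn2 : n < M := by
    have := s1.trans_lt h2
    exact (zpow_lt_zpow_iff_right₀ (by norm_num : (1 : ℝ) < 2)).mp this
  have hnabs : |n| ≤ M := by
    rw [abs_le]; constructor <;> omega
  refine ⟨n, hnabs, fun u hu => ?_⟩
  have hn0 : (0 : ℝ) < (2 : ℝ) ^ n := by positivity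
  have e1 : (2 : ℝ) ^ (n - 1) = (2 : ℝ) ^ n / 2 := by
    rw [zpow_sub₀ (by norm_num), zpow_one]
  have e2 : (2 : ℝ) ^ (n + 1) = (2 : ℝ) ^ n * 2 := by
    rw [zpow_add₀ (by norm_num), zpow_one]
  have hpreg : p ∈ reg ((2 : ℝ) ^ (n - 1)) ((2 : ℝ) ^ (n + 1)) (2 ^ (h + 1)) := by
    refine ⟨by rw [e1]; linarith, s2, ?_⟩
    have a1 : |p.re| < ‖(p : ℂ)‖ := by
      have b1 := norm_sq_eq p
      have b2 := p.im_pos
      have b3 : |p.re| ^ 2 < ‖(p : ℂ)‖ ^ 2 := by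
        rw [b1, sq_abs]
        nlinarith
      exact lt_of_pow_lt_pow_left₀ 2 hpn.le b3
    rw [kp, div_le_iff₀ p.im_pos] at hk
    linarith
  have hureg : dyad n ∈ reg ((2 : ℝ) ^ (n - 1)) ((2 : ℝ) ^ (n + 1)) (2 ^ (h + 1)) := by
    refine ⟨by rw [dyad_norm, e1]; linarith, by rw [dyad_norm, e2]; linarith, ?_⟩
    rw [dyad_re, dyad_im, abs_zero]
    positivity
  obtain ⟨w, hw⟩ := walk_of_reg hG.loc hne (show (0 : ℝ) < (2 : ℝ) ^ (n - 1) by positivity)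
    (by rw [e1, e2]; linarith) (show (0 : ℝ) < 2 ^ (h + 1) by positivity) hpreg hureg hpx hu
  refine ⟨w, hw.trans ?_⟩
  have := hG.low (M + 1) hM n (by push_cast; linarith)
  push_cast at this
  exact this

/-- the graph distance of two cells that come close to the axis -/
theorem walk_low {A : Set ℍ} {Λ C : ℝ} {α h m₀ : ℕ} (hG : Good A Λ C α h m₀) {M : ℕ}
    (hM : m₀ ≤ M + 1) {x y : A} {p q : ℍ} (hpx : p ∈ cell A x) (hqy : q ∈ cell A y)
    (hkp : kp p ≤ (2 : ℝ) ^ (h + 1)) (hkq : kp q ≤ (2 : ℝ) ^ (h + 1))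
    (h1 : (2 : ℝ) ^ (-(M : ℤ)) ≤ ‖(p : ℂ)‖) (h2 : ‖(p : ℂ)‖ < (2 : ℝ) ^ (M : ℤ))
    (h3 : (2 : ℝ) ^ (-(M : ℤ)) ≤ ‖(q : ℂ)‖) (h4 : ‖(q : ℂ)‖ < (2 : ℝ) ^ (M : ℤ)) :
    ∃ w : (voronoiGraph A).Walk x y, (w.length : ℝ) ≤ (C + 2) * ((M : ℝ) + 1) := by
  have hne : A.Nonempty := by
    obtain ⟨x, hx, _⟩ := hG.cover I
    exact ⟨x, hx⟩
  obtain ⟨n, hn, hnw⟩ := walk_to_axis hG hM hpx hkp h1 h2
  obtain ⟨n', hn', hnw'⟩ := walk_to_axis hG hM hqy hkq h3 h4
  obtain ⟨u, huA, hu⟩ := exists_nucleus hG.loc hne (dyad n)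
  obtain ⟨u', huA', hu'⟩ := exists_nucleus hG.loc hne (dyad n')
  obtain ⟨w1, hw1⟩ := hnw ⟨u, huA⟩ hu
  obtain ⟨w3, hw3⟩ := hnw' ⟨u', huA'⟩ hu'
  have hin : ∀ j : ℤ, |j| ≤ M → dyad j ∈ reg ((2 : ℝ) ^ (-((M + 1 : ℕ) : ℤ)))
      ((2 : ℝ) ^ ((M + 1 : ℕ) : ℤ)) 1 := by
    intro j hj
    rw [abs_le] at hj
    refine ⟨?_, ?_, ?_⟩
    · rw [dyad_norm]
      exact zpow_lt_zpow_right₀ (by norm_num) (by push_cast; omega)
    · rw [dyad_norm]
      exact zpow_lt_zpow_right₀ (by norm_num) (by push_cast; omega)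
    · rw [dyad_re, dyad_im, abs_zero]
      positivity
  obtain ⟨w2, hw2⟩ := walk_of_reg hG.loc hne
    (show (0 : ℝ) < (2 : ℝ) ^ (-((M + 1 : ℕ) : ℤ)) by positivity)
    (zpow_lt_zpow_right₀ (by norm_num) (by push_cast; omega)) one_pos (hin n hn) (hin n' hn')
    (x := ⟨u, huA⟩) (y := ⟨u', huA'⟩) hu hu'
  refine ⟨(w1.append w2).append w3.reverse, ?_⟩
  rw [SimpleGraph.Walk.length_append, SimpleGraph.Walk.length_append,
    SimpleGraph.Walk.length_reverse]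
  have hs := hG.strip (M + 1) hM
  push_cast at hs hw2 ⊢
  linarith

/-- segments of a geodesic are geodesic -/
theorem geodesic_segment {V : Type*} {G : SimpleGraph V} {x y : V} {p : G.Walk x y}
    (hp : p.length = G.dist x y) {i j : ℕ} (hij : i ≤ j) (hj : j ≤ p.length)
    (w : G.Walk (p.getVert i) (p.getVert j)) : j - i ≤ w.length := by
  have h1 := SimpleGraph.dist_le (((p.take i).append w).append (p.drop j))
  rw [SimpleGraph.Walk.length_append, SimpleGraph.Walk.length_append,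
    SimpleGraph.Walk.take_length, SimpleGraph.Walk.drop_length, ← hp,
    Nat.min_eq_left (hij.trans hj)] at h1
  omega

/-- a family of intervals covering an interval -/
theorem cover_length {ι : Type*} (J : Finset ι) (c r : ι → ℝ) (hr : ∀ j ∈ J, 0 ≤ r j) {a b : ℝ}
    (hcov : Set.Icc a b ⊆ ⋃ j ∈ J, Metric.closedBall (c j) (r j)) :
    b - a ≤ ∑ j ∈ J, 2 * r j := by
  have h1 : volume (Set.Icc a b) ≤ ∑ j ∈ J, volume (Metric.closedBall (c j) (r j)) :=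
    (measure_mono hcov).trans (measure_biUnion_finset_le J _)
  rw [Real.volume_Icc] at h1
  simp_rw [Real.volume_closedBall] at h1
  rw [← ENNReal.ofReal_sum_of_nonneg (fun j hj => by have := hr j hj; positivity)] at h1
  exact (ENNReal.ofReal_le_ofReal_iff (Finset.sum_nonneg fun j hj => by
    have := hr j hj; positivity)).mp h1

/-- the discrete intermediate value theorem -/
theorem ivt_nat (f : ℕ → ℝ) {a b : ℕ} (hab : a < b) {y : ℝ} (hy : y ∈ Set.uIcc (f a) (f b)) :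
    ∃ j, a ≤ j ∧ j < b ∧ y ∈ Set.uIcc (f j) (f (j + 1)) := by
  induction b, hab using Nat.le_induction with
  | base => exact ⟨a, le_rfl, Nat.lt_succ_self a, hy⟩
  | succ b hb ih =>
    rcases Set.uIcc_subset_uIcc_union_uIcc hy with h | h
    · obtain ⟨j, h1, h2, h3⟩ := ih h
      exact ⟨j, h1, h2.trans (Nat.lt_succ_self b), h3⟩
    · exact ⟨b, (Nat.le_of_succ_le hb), Nat.lt_succ_self b, h⟩

theorem ivt_range (f : ℕ → ℝ) {J1 J2 a b : ℕ} (hJ : J1 < J2) (ha1 : J1 ≤ a) (ha2 : a ≤ J2)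
    (hb1 : J1 ≤ b) (hb2 : b ≤ J2) {y : ℝ} (h1 : f a ≤ y) (h2 : y ≤ f b) :
    ∃ j, J1 ≤ j ∧ j < J2 ∧ y ∈ Set.uIcc (f j) (f (j + 1)) := by
  rcases lt_trichotomy a b with hab | hab | hab
  · obtain ⟨j, e1, e2, e3⟩ := ivt_nat f hab (y := y) (Set.mem_uIcc_of_le h1 h2)
    exact ⟨j, ha1.trans e1, lt_of_lt_of_le e2 hb2, e3⟩
  · subst hab
    have hy : y = f a := le_antisymm h2 h1
    rcases ha2.lt_or_eq with h | h
    · exact ⟨a, ha1, h, hy ▸ Set.left_mem_uIcc⟩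
    · refine ⟨a - 1, by omega, by omega, ?_⟩
      have : a - 1 + 1 = a := by omega
      rw [this, hy]
      exact Set.right_mem_uIcc
  · obtain ⟨j, e1, e2, e3⟩ := ivt_nat f hab (y := y) (Set.mem_uIcc_of_ge h1 h2)
    exact ⟨j, hb1.trans e1, lt_of_lt_of_le e2 ha2, e3⟩

end

end Pool.Agent.Y979.HV
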