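import Pool.Agent.Y979.HV.ChainA

/-!
# Geodesics of the Voronoi graph pass near the origin
-/

set_option autoImplicit false

open UpperHalfPlane Real MeasureTheory

namespace Pool.Agent.Y979.HV

noncomputable section

theorem norm_bounds {z : ℍ} {m : ℝ} {M : ℕ} (h : |sc z| ≤ m) (hM : 2 * m < M) :
    (2 : ℝ) ^ (-(M : ℤ)) ≤ ‖(z : ℂ)‖ ∧ ‖(z : ℂ)‖ < (2 : ℝ) ^ (M : ℤ) := by
  have hlog : 1 / 2 < Real.log 2 := by
    have := Real.log_two_gt_d9
    linarith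
  have hM0 : (0 : ℝ) ≤ M := Nat.cast_nonneg M
  have h1 := (abs_le.mp h).1
  have h2 := (abs_le.mp h).2
  have h3 : (M : ℝ) * (1 / 2) ≤ M * Real.log 2 := mul_le_mul_of_nonneg_left hlog.le hM0
  have h4 : (2 : ℝ) ^ (M : ℤ) = Real.exp (M * Real.log 2) := by
    rw [zpow_natCast, mul_comm, Real.exp_mul, Real.exp_log (by norm_num), Real.rpow_natCast]
  have h5 : (2 : ℝ) ^ (-(M : ℤ)) = Real.exp (-(M * Real.log 2)) := by
    rw [zpow_neg, h4, Real.exp_neg]
  constructor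
  · rw [h5, ← exp_sc]
    apply Real.exp_le_exp.mpr
    linarith
  · rw [h4, ← exp_sc]
    apply Real.exp_lt_exp.mpr
    linarith

/-- the final numerical inequality -/
theorem final_ineq {m Λ C a : ℝ} {h : ℕ} (hm0 : 0 ≤ m) (hΛ : 1 ≤ Λ) (hC : 0 < C)
    (ha0 : 0 ≤ a) (ha : a * (64 * (C + 2)) ≤ 1)
    (hmain : m ≤ 8 * (1 / 64 * (m + h + 2) + 520 * Λ) +
      4 * ((C + 2) * (2 * m + 2) + 1) * a + 10 * ((16 * m + 28) / 2048)) :
    m ≤ h + 4 + 6656 * Λ := by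
  have h0 : (0 : ℝ) ≤ h := Nat.cast_nonneg h
  have h1 : 4 * ((C + 2) * (2 * m + 2) + 1) * a ≤ (2 * m + 2) / 16 + 1 / 32 := by
    have e1 : 4 * ((C + 2) * (2 * m + 2) + 1) * a =
        (a * (64 * (C + 2))) * ((2 * m + 2) / 16) + 4 * a := by ring
    have e2 : (a * (64 * (C + 2))) * ((2 * m + 2) / 16) ≤ 1 * ((2 * m + 2) / 16) :=
      mul_le_mul_of_nonneg_right ha (by positivity)
    have e3 : a * 128 ≤ 1 := by nlinarith
    rw [e1]
    linarith
  linarith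

theorem chain_core {A : Set ℍ} {Λ C : ℝ} {α h m₀ : ℕ} (hG : Good A Λ C α h m₀) (hΛ : 1 ≤ Λ)
    (hC : 0 < C) (hα : 7 ≤ α) (hh : 64 * (C + 2) * 2 ^ α ≤ 2 ^ h) {k : ℕ} (v : ℕ → A)
    (z : ℕ → ℍ) (hz1 : ∀ i ≤ k, z i ∈ cell A (v i)) (hz2 : ∀ i ≤ k, z (i + 1) ∈ cell A (v i))
    (h0 : sc (z 0) ≤ 0) (hk : 0 ≤ sc (z (k + 1))) (hk0 : kp (z 0) ≤ (2 : ℝ) ^ (h + 1))
    (hkk : kp (z (k + 1)) ≤ (2 : ℝ) ^ (h + 1))
    (hgeo : ∀ i j, i ≤ j → j ≤ k → ∀ w : (voronoiGraph A).Walk (v i) (v j), j - i ≤ w.length) :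
    ∃ i ≤ k, ∃ q ∈ cell A (v i), kp q ≤ (2 : ℝ) ^ (h + 1) ∧
      |sc q| ≤ m₀ + (h + 4 + 6656 * Λ) := by
  classical
  -- low steps
  set lowp : ℕ → Prop := fun i => kp (z i) ≤ (2 : ℝ) ^ (h + 1) ∨
    kp (v i : ℍ) ≤ (2 : ℝ) ^ (h + 1) ∨ kp (z (i + 1)) ≤ (2 : ℝ) ^ (h + 1) with hlowp
  -- the step over the origin
  obtain ⟨is, -, his, hs0⟩ := ivt_nat (fun i => sc (z i)) (a := 0) (b := k + 1)
    (Nat.succ_pos k) (y := 0) (Set.mem_uIcc_of_le h0 hk)
  have hisk : is ≤ k := Nat.le_of_lt_succ his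
  -- the last low step before and the first low step after
  obtain ⟨i1, hi1le, hi1low, hi1max⟩ : ∃ i1 ≤ is, lowp i1 ∧ ∀ i, i1 < i → i ≤ is → ¬ lowp i := by
    refine ⟨Nat.findGreatest lowp is, Nat.findGreatest_le is,
      Nat.findGreatest_spec (Nat.zero_le is) (Or.inl hk0), fun i h1 h2 => ?_⟩
    exact Nat.findGreatest_is_greatest h1 h2
  have hex : ∃ i, is ≤ i ∧ lowp i := ⟨k, hisk, Or.inr (Or.inr hkk)⟩
  obtain ⟨i2, hi2ge, hi2k, hi2low, hi2min⟩ : ∃ i2, is ≤ i2 ∧ i2 ≤ k ∧ lowp i2 ∧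
      ∀ i, is ≤ i → i < i2 → ¬ lowp i := by
    refine ⟨Nat.find hex, (Nat.find_spec hex).1, ?_, (Nat.find_spec hex).2, fun i h1 h2 h3 => ?_⟩
    · exact Nat.find_min' hex ⟨hisk, Or.inr (Or.inr hkk)⟩
    · exact Nat.find_min hex h2 ⟨h1, h3⟩
  have hhigh : ∀ i, i1 < i → i < i2 → ¬ lowp i := by
    intro i h1 h2
    rcases le_total i is with h3 | h3
    · exact hi1max i h1 h3
    · exact hi2min i h3 h2
  -- the interleaved sequence
  set f : ℕ → ℝ := fun j => if j % 2 = 0 then sc (z (j / 2)) else sc (v (j / 2)) with hf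
  have hfe : ∀ i, f (2 * i) = sc (z i) := by
    intro i
    show (if (2 * i) % 2 = 0 then sc (z (2 * i / 2)) else sc (v (2 * i / 2))) = sc (z i)
    rw [if_pos (by omega)]
    have : 2 * i / 2 = i := by omega
    rw [this]
  have hfo : ∀ i, f (2 * i + 1) = sc (v i) := by
    intro i
    show (if (2 * i + 1) % 2 = 0 then sc (z ((2 * i + 1) / 2)) else sc (v ((2 * i + 1) / 2))) =
      sc (v i)
    rw [if_neg (by omega)]
    have : (2 * i + 1) / 2 = i := by omega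
    rw [this]
  set J1 := 2 * i1 with hJ1
  set J2 := 2 * i2 + 2 with hJ2
  have hJ12 : J1 < J2 := by omega
  obtain ⟨j0, hj0, hj0max⟩ := Finset.exists_max_image (Finset.Icc J1 J2) (fun j => |f j|)
    ⟨J1, Finset.mem_Icc.mpr ⟨le_rfl, hJ12.le⟩⟩
  rw [Finset.mem_Icc] at hj0
  set m := |f j0| with hm
  have hm0 : 0 ≤ m := abs_nonneg _
  have hbd : ∀ j, J1 ≤ j → j ≤ J2 → |f j| ≤ m := fun j h1 h2 =>
    hj0max j (Finset.mem_Icc.mpr ⟨h1, h2⟩)
  have hbz : ∀ i, i1 ≤ i → i ≤ i2 → |sc (z i)| ≤ m := by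
    intro i h1 h2
    rw [← hfe]; exact hbd _ (by omega) (by omega)
  have hbv : ∀ i, i1 ≤ i → i ≤ i2 → |sc (v i : ℍ)| ≤ m := by
    intro i h1 h2
    rw [← hfo]; exact hbd _ (by omega) (by omega)
  have hbz' : ∀ i, i1 ≤ i → i ≤ i2 → |sc (z (i + 1))| ≤ m := by
    intro i h1 h2
    rw [← hfe]; exact hbd _ (by omega) (by omega)
  -- low points of low steps
  have hlowq : ∀ i, i1 ≤ i → i ≤ i2 → lowp i →
      ∃ q ∈ cell A (v i), kp q ≤ (2 : ℝ) ^ (h + 1) ∧ |sc q| ≤ m := by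
    intro i h1 h2 h3
    rcases h3 with h3 | h3 | h3
    · exact ⟨z i, hz1 i (h2.trans hi2k), h3, hbz i h1 h2⟩
    · exact ⟨v i, mem_cell_self, h3, hbv i h1 h2⟩
    · exact ⟨z (i + 1), hz2 i (h2.trans hi2k), h3, hbz' i h1 h2⟩
  have hi12 : i1 ≤ i2 := hi1le.trans hi2ge
  obtain ⟨q1, hq1c, hq1k, hq1s⟩ := hlowq i1 le_rfl hi12 hi1low
  obtain ⟨q2, hq2c, hq2k, hq2s⟩ := hlowq i2 hi12 le_rfl hi2low
  refine ⟨i1, hi12.trans hi2k, q1, hq1c, hq1k, hq1s.trans ?_⟩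
  by_contra hcon
  push Not at hcon
  have hm0' : (0 : ℝ) ≤ m₀ := Nat.cast_nonneg _
  have hh0 : (0 : ℝ) ≤ h := Nat.cast_nonneg _
  -- scales
  set M := ⌊2 * m⌋₊ + 1 with hM
  have hM1 : 2 * m < M := by
    rw [hM]; push_cast; exact Nat.lt_floor_add_one _
  have hM2 : (M : ℝ) ≤ 2 * m + 1 := by
    rw [hM]; push_cast
    have := Nat.floor_le (show 0 ≤ 2 * m by positivity)
    linarith
  have hMm : m₀ ≤ M := by
    have : (m₀ : ℝ) ≤ M := by linarith
    exact_mod_cast this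
  -- number of steps
  have hsteps : ((i2 : ℝ) - i1) ≤ (C + 2) * (2 * m + 2) := by
    obtain ⟨b1, b2⟩ := norm_bounds hq1s hM1
    obtain ⟨b3, b4⟩ := norm_bounds hq2s hM1
    obtain ⟨w, hw⟩ := walk_low hG (by omega : m₀ ≤ M + 1) hq1c hq2c hq1k hq2k b1 b2 b3 b4
    have h1 := hgeo i1 i2 hi12 hi2k w
    have h2 : (i2 : ℝ) - i1 ≤ w.length := by
      rw [sub_le_iff_le_add]
      have : i2 ≤ w.length + i1 := by omega
      exact_mod_cast this
    refine h2.trans (hw.trans ?_)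
    apply mul_le_mul_of_nonneg_left _ (by linarith)
    linarith
  -- the pairs
  set nuc : ℕ → ℍ := fun j => v (j / 2) with hnuc
  set tch : ℕ → ℍ := fun j => z ((j + 1) / 2) with htch
  set c : ℕ → ℝ := fun j => sc (tch j) with hc
  set Δ : ℕ → ℝ := fun j => |sc (nuc j) - sc (tch j)| with hΔ
  have hΔ0 : ∀ j, 0 ≤ Δ j := fun j => abs_nonneg _
  have hball : ∀ j, Set.uIcc (f j) (f (j + 1)) ⊆ Metric.closedBall (c j) (Δ j) := by
    intro j
    rcases Nat.even_or_odd' j with ⟨i, rfl | rfl⟩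
    · rw [hfe, hfo]
      have e1 : c (2 * i) = sc (z i) := by
        show sc (z ((2 * i + 1) / 2)) = sc (z i)
        have : (2 * i + 1) / 2 = i := by omega
        rw [this]
      have e2 : Δ (2 * i) = |sc (v i : ℍ) - sc (z i)| := by
        show |sc (v (2 * i / 2) : ℍ) - sc (z ((2 * i + 1) / 2))| = _
        have a1 : (2 * i + 1) / 2 = i := by omega
        have a2 : 2 * i / 2 = i := by omega
        rw [a1, a2]
      rw [e1, e2]
      intro y hy
      rw [Metric.mem_closedBall, Real.dist_eq, abs_sub_comm]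
      have := Set.abs_sub_left_of_mem_uIcc hy
      rw [abs_sub_comm (sc (v i : ℍ))]
      rw [abs_sub_comm] at this
      rwa [abs_sub_comm (sc (z i)) (sc (v i : ℍ))]
    · rw [hfo]
      have e0 : f (2 * i + 1 + 1) = sc (z (i + 1)) := by
        have : 2 * i + 1 + 1 = 2 * (i + 1) := by ring
        rw [this, hfe]
      have e1 : c (2 * i + 1) = sc (z (i + 1)) := by
        show sc (z ((2 * i + 1 + 1) / 2)) = sc (z (i + 1))
        have : (2 * i + 1 + 1) / 2 = i + 1 := by omega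
        rw [this]
      have e2 : Δ (2 * i + 1) = |sc (v i : ℍ) - sc (z (i + 1))| := by
        show |sc (v ((2 * i + 1) / 2) : ℍ) - sc (z ((2 * i + 1 + 1) / 2))| = _
        have a1 : (2 * i + 1 + 1) / 2 = i + 1 := by omega
        have a2 : (2 * i + 1) / 2 = i := by omega
        rw [a1, a2]
      rw [e0, e1, e2]
      intro y hy
      rw [Metric.mem_closedBall, Real.dist_eq]
      have := Set.abs_sub_right_of_mem_uIcc hy
      rw [abs_sub_comm y, abs_sub_comm (sc (v i : ℍ))]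
      exact this
  have hcellj : ∀ j, J1 ≤ j → j < J2 → tch j ∈ cell A (nuc j) := by
    intro j h1 h2
    have h3 : j / 2 ≤ k := by omega
    rcases Nat.even_or_odd' j with ⟨i, hi | hi⟩
    · have e : (j + 1) / 2 = j / 2 := by omega
      show z ((j + 1) / 2) ∈ cell A (v (j / 2))
      rw [e]
      exact hz1 _ h3
    · have e : (j + 1) / 2 = j / 2 + 1 := by omega
      show z ((j + 1) / 2) ∈ cell A (v (j / 2))
      rw [e]
      exact hz2 _ h3
  -- the interval to be covered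
  obtain ⟨a, b, hab, hcov⟩ : ∃ a b : ℝ, b - a = m ∧ ∀ y ∈ Set.Icc a b,
      ∃ j, J1 ≤ j ∧ j < J2 ∧ y ∈ Metric.closedBall (c j) (Δ j) := by
    -- indices with nonpositive and nonnegative values
    obtain ⟨a1, ha1, ha1', ha1f⟩ : ∃ a1, J1 ≤ a1 ∧ a1 ≤ J2 ∧ f a1 ≤ 0 := by
      rcases Set.mem_uIcc.mp hs0 with h1 | h1
      · exact ⟨2 * is, by omega, by omega, by rw [hfe]; exact h1.1⟩
      · exact ⟨2 * (is + 1), by omega, by omega, by rw [hfe]; exact h1.1⟩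
    obtain ⟨a2, ha2, ha2', ha2f⟩ : ∃ a2, J1 ≤ a2 ∧ a2 ≤ J2 ∧ 0 ≤ f a2 := by
      rcases Set.mem_uIcc.mp hs0 with h1 | h1
      · exact ⟨2 * (is + 1), by omega, by omega, by rw [hfe]; exact h1.2⟩
      · exact ⟨2 * is, by omega, by omega, by rw [hfe]; exact h1.2⟩
    rcases le_total 0 (f j0) with h1 | h1
    · refine ⟨0, m, by ring, fun y hy => ?_⟩
      obtain ⟨j, e1, e2, e3⟩ := ivt_range f hJ12 ha1 ha1' hj0.1 hj0.2 (y := y)
        (ha1f.trans hy.1) (hy.2.trans (by rw [hm, abs_of_nonneg h1]))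
      exact ⟨j, e1, e2, hball j e3⟩
    · refine ⟨-m, 0, by ring, fun y hy => ?_⟩
      obtain ⟨j, e1, e2, e3⟩ := ivt_range f hJ12 hj0.1 hj0.2 ha2 ha2' (y := y)
        (le_trans (by rw [hm, abs_of_nonpos h1, neg_neg]) hy.1) (hy.2.trans ha2f)
      exact ⟨j, e1, e2, hball j e3⟩
  -- classification of the pairs
  set S := Finset.Ico J1 J2 with hS
  set Slow := S.filter (fun j => j / 2 = i1 ∨ j / 2 = i2) with hSlow
  set Ssm := S.filter (fun j => 2 ^ h * Δ j < 2 ^ α) with hSsm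
  set Sbig := S.filter (fun j => ¬ (j / 2 = i1 ∨ j / 2 = i2) ∧ (2 : ℝ) ^ α ≤ 2 ^ h * Δ j) with hSbig
  obtain ⟨R, hR⟩ : ∃ R : ℝ, ∀ j ∈ (Sbig : Set ℕ), Δ j ≤ R := by
    refine ⟨∑ j ∈ Sbig, Δ j, fun j hj => ?_⟩
    exact Finset.single_le_sum (f := Δ) (fun i _ => hΔ0 i) hj
  obtain ⟨u, huS, hudisj, hucov⟩ :=
    Vitali.exists_disjoint_subfamily_covering_enlargement_closedBall (Sbig : Set ℕ) c Δ R hR 5
      (by norm_num)
  have hufin : u.Finite := Sbig.finite_toSet.subset huS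
  set U := hufin.toFinset with hU
  have hmemU : ∀ j, j ∈ U ↔ j ∈ u := fun j => hufin.mem_toFinset
  have hcover2 : Set.Icc a b ⊆ ⋃ t ∈ (Slow ∪ Ssm).disjSum U,
      Metric.closedBall (Sum.elim c c t) (Sum.elim Δ (fun j => 5 * Δ j) t) := by
    intro y hy
    obtain ⟨j, e1, e2, e3⟩ := hcov y hy
    have hjS : j ∈ S := Finset.mem_Ico.mpr ⟨e1, e2⟩
    by_cases hl : j / 2 = i1 ∨ j / 2 = i2
    · refine Set.mem_iUnion₂.mpr ⟨Sum.inl j, ?_, e3⟩
      rw [Finset.inl_mem_disjSum, Finset.mem_union]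
      exact Or.inl (Finset.mem_filter.mpr ⟨hjS, hl⟩)
    · by_cases hs : 2 ^ h * Δ j < 2 ^ α
      · refine Set.mem_iUnion₂.mpr ⟨Sum.inl j, ?_, e3⟩
        rw [Finset.inl_mem_disjSum, Finset.mem_union]
        exact Or.inr (Finset.mem_filter.mpr ⟨hjS, hs⟩)
      · have hjb : j ∈ (Sbig : Set ℕ) := Finset.mem_filter.mpr ⟨hjS, hl, not_lt.mp hs⟩
        obtain ⟨l, hl1, hl2⟩ := hucov j hjb
        refine Set.mem_iUnion₂.mpr ⟨Sum.inr l, ?_, hl2 e3⟩
        rw [Finset.inr_mem_disjSum]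
        exact (hmemU l).mpr hl1
  have hlen := cover_length _ _ _ (by
    rintro (j | j) _
    · exact hΔ0 j
    · show 0 ≤ 5 * Δ j
      have := hΔ0 j
      positivity) hcover2
  rw [hab, Finset.sum_disjSum] at hlen
  simp only [Sum.elim_inl, Sum.elim_inr] at hlen
  have hunion : ∑ j ∈ Slow ∪ Ssm, 2 * Δ j ≤ ∑ j ∈ Slow, 2 * Δ j + ∑ j ∈ Ssm, 2 * Δ j := by
    rw [← Finset.sum_union_inter]
    have : 0 ≤ ∑ j ∈ Slow ∩ Ssm, 2 * Δ j := Finset.sum_nonneg fun j _ => by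
      have := hΔ0 j; positivity
    linarith
  -- low steps
  have hlowsum : ∑ j ∈ Slow, 2 * Δ j ≤ 8 * (1 / 64 * (m + h + 2) + 520 * Λ) := by
    have hcard : Slow.card ≤ 4 := by
      have : Slow ⊆ {2 * i1, 2 * i1 + 1, 2 * i2, 2 * i2 + 1} := by
        intro j hj
        rw [Finset.mem_filter] at hj
        simp only [Finset.mem_insert, Finset.mem_singleton]
        rcases hj.2 with h1 | h1 <;> omega
      exact (Finset.card_le_card this).trans Finset.card_le_four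
    have hD1 : ∀ j ∈ Slow, 2 * Δ j ≤ 2 * (1 / 64 * (m + h + 2) + 520 * Λ) := by
      intro j hj
      rw [Finset.mem_filter] at hj
      obtain ⟨hjS, hj2⟩ := hj
      rw [Finset.mem_Ico] at hjS
      have hcell := hcellj j hjS.1 hjS.2
      obtain ⟨q, hqc, hqk, hqs⟩ : ∃ q ∈ cell A (nuc j), kp q ≤ (2 : ℝ) ^ (h + 1) ∧ |sc q| ≤ m := by
        rcases hj2 with h1 | h1
        · refine ⟨q1, ?_, hq1k, hq1s⟩
          show q1 ∈ cell A (v (j / 2))
          rw [h1]; exact hq1c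
        · refine ⟨q2, ?_, hq2k, hq2s⟩
          show q2 ∈ cell A (v (j / 2))
          rw [h1]; exact hq2c
      have e1 := low_extent hΛ hG.cover hqc hcell
      have e2 := dist_I_low hm0 hqk hqs
      have e3 : Δ j = |sc (nuc j) - sc (tch j)| := rfl
      rw [e3]
      linarith
    refine (Finset.sum_le_card_nsmul _ _ _ hD1).trans ?_
    rw [nsmul_eq_mul]
    have h4 : (Slow.card : ℝ) ≤ 4 := by exact_mod_cast hcard
    have h5 : 0 ≤ 2 * (1 / 64 * (m + h + 2) + 520 * Λ) := by positivity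
    have := mul_le_mul_of_nonneg_right h4 h5
    linarith
  -- small steps
  have hp : (0 : ℝ) < 2 ^ h := by positivity
  have hsmsum : ∑ j ∈ Ssm, 2 * Δ j ≤ 4 * ((C + 2) * (2 * m + 2) + 1) * (2 ^ α / 2 ^ h) := by
    have hcard : (Ssm.card : ℝ) ≤ 2 * ((i2 : ℝ) - i1 + 1) := by
      have h1 : Ssm.card ≤ J2 - J1 := (Finset.card_filter_le _ _).trans (by rw [hS, Nat.card_Ico])
      have h2 : J2 - J1 = 2 * (i2 - i1 + 1) := by omega
      rw [h2] at h1
      have h3 : ((i2 - i1 : ℕ) : ℝ) = (i2 : ℝ) - i1 := Nat.cast_sub hi12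
      rw [← h3]
      exact_mod_cast h1
    have hD : ∀ j ∈ Ssm, 2 * Δ j ≤ 2 * (2 ^ α / 2 ^ h) := by
      intro j hj
      rw [Finset.mem_filter] at hj
      have : Δ j ≤ 2 ^ α / 2 ^ h := by
        rw [le_div_iff₀ hp]; linarith [hj.2]
      linarith
    refine (Finset.sum_le_card_nsmul _ _ _ hD).trans ?_
    rw [nsmul_eq_mul]
    have h5 : (0 : ℝ) ≤ 2 * (2 ^ α / 2 ^ h) := by positivity
    have h6 := mul_le_mul_of_nonneg_right hcard h5
    have h7 : 2 * ((i2 : ℝ) - i1 + 1) * (2 * (2 ^ α / 2 ^ h)) ≤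
        4 * ((C + 2) * (2 * m + 2) + 1) * (2 ^ α / 2 ^ h) := by
      have h8 : (0 : ℝ) ≤ 2 ^ α / 2 ^ h := by positivity
      nlinarith
    linarith
  -- big steps
  have hbigsum : ∑ j ∈ U, Δ j ≤ (16 * m + 28) / 2048 := by
    have hmem : ∀ j ∈ U, J1 ≤ j ∧ j < J2 ∧ i1 < j / 2 ∧ j / 2 < i2 ∧ (2 : ℝ) ^ α ≤ 2 ^ h * Δ j := by
      intro j hj
      have h1 := huS ((hmemU j).mp hj)
      have h1' := Finset.mem_filter.mp h1
      have h2 := Finset.mem_Ico.mp h1'.1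
      obtain ⟨h3, h4⟩ := h1'.2
      push Not at h3
      have h5 := h3.1
      have h6 := h3.2
      refine ⟨h2.1, h2.2, ?_, ?_, h4⟩
      · omega
      · omega
    have hnotlow : ∀ j ∈ U, (2 : ℝ) ^ (h + 1) < kp (tch j) ∧ (2 : ℝ) ^ (h + 1) < kp (nuc j) := by
      intro j hj
      obtain ⟨e1, e2, e3, e4, _⟩ := hmem j hj
      have h1 := hhigh _ e3 e4
      rw [hlowp] at h1
      simp only [not_or, not_le] at h1
      refine ⟨?_, h1.2.1⟩
      show (2 : ℝ) ^ (h + 1) < kp (z ((j + 1) / 2))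
      rcases Nat.even_or_odd' j with ⟨i, hi | hi⟩
      · have e : (j + 1) / 2 = j / 2 := by omega
        rw [e]; exact h1.1
      · have e : (j + 1) / 2 = j / 2 + 1 := by omega
        rw [e]; exact h1.2.2
    have hnb : ∀ j ∈ U, (2 : ℝ) ^ (-(M : ℤ)) ≤ ‖(tch j : ℂ)‖ ∧ ‖(tch j : ℂ)‖ < (2 : ℝ) ^ (M : ℤ) := by
      intro j hj
      obtain ⟨e1, e2, e3, e4, _⟩ := hmem j hj
      refine norm_bounds (m := m) ?_ hM1
      show |sc (z ((j + 1) / 2))| ≤ m
      exact hbz _ (by omega) (by omega)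
    have hsum := high_sum (α := α) (c₀ := 2 * α - 3) (M := M) (by omega) le_rfl hG.high
      (by nlinarith [Nat.one_le_two_pow (n := h)]) U nuc tch
      (fun j hj => hcellj j (hmem j hj).1 (hmem j hj).2.1)
      (fun j hj => (hnotlow j hj).1) (fun j hj => (hnotlow j hj).2)
      (fun j hj => (hmem j hj).2.2.2.2)
      (fun j hj => (hnb j hj).1) (fun j hj => (hnb j hj).2.le)
      (by
        intro j hj l hl hjl
        have hd := hudisj ((hmemU j).mp hj) ((hmemU l).mp hl) hjl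
        rw [Function.onFun, Set.disjoint_left] at hd
        by_contra hcon2
        push Not at hcon2
        have h1 : c l ∈ Metric.closedBall (c j) (Δ j) := by
          rw [Metric.mem_closedBall, Real.dist_eq, abs_sub_comm]
          exact hcon2.le
        exact hd h1 (Metric.mem_closedBall_self (hΔ0 l)))
    refine hsum.trans ?_
    have h1 : (2048 : ℝ) ≤ 2 ^ (2 * α - 3) := by
      have : (2 : ℝ) ^ 11 ≤ 2 ^ (2 * α - 3) := pow_le_pow_right₀ (by norm_num) (by omega)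
      norm_num at this
      exact this
    exact div_le_div₀ (by positivity) (by linarith) (by norm_num) h1
  have h10 : ∑ j ∈ U, 2 * (5 * Δ j) = 10 * ∑ j ∈ U, Δ j := by
    rw [Finset.mul_sum]; exact Finset.sum_congr rfl fun j _ => by ring
  rw [h10] at hlen
  have hfinal := final_ineq (a := 2 ^ α / 2 ^ h) (h := h) hm0 hΛ hC (by positivity) (by
    rw [div_mul_eq_mul_div, div_le_one hp]
    linarith) (by linarith)
  linarith

end

end Pool.Agent.Y979.HV
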