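import Mathlib

/-!
# Uniform laws of large numbers for families of variables with finite range of dependence
-/

set_option autoImplicit false

open Real MeasureTheory ProbabilityTheory
open scoped ENNReal

namespace Pool.Agent.Y979.HV

noncomputable section

variable {Ω : Type*} [MeasurableSpace Ω] {P : Measure Ω} [IsProbabilityMeasure P]

theorem cov_le {X Y : Ω → ℝ} {v : ℝ} (hX0 : ∀ ω, 0 ≤ X ω) (hY0 : ∀ ω, 0 ≤ Y ω)
    (hX : MemLp X 2 P) (hY : MemLp Y 2 P) (hvX : ∫ ω, X ω ^ 2 ∂P ≤ v) (hvY : ∫ ω, Y ω ^ 2 ∂P ≤ v) :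
    covariance X Y P ≤ v := by
  rw [covariance_eq_sub hX hY]
  have h1 : 0 ≤ ∫ ω, X ω ∂P := integral_nonneg hX0
  have h2 : 0 ≤ ∫ ω, Y ω ∂P := integral_nonneg hY0
  have h3 : ∫ ω, (X * Y) ω ∂P ≤ ∫ ω, (X ω ^ 2 + Y ω ^ 2) / 2 ∂P := by
    refine integral_mono (hX.integrable_mul hY)
      ((hX.integrable_sq.add hY.integrable_sq).div_const 2) fun ω => ?_
    show X ω * Y ω ≤ (X ω ^ 2 + Y ω ^ 2) / 2
    nlinarith [sq_nonneg (X ω - Y ω)]
  have h4 : ∫ ω, (X ω ^ 2 + Y ω ^ 2) / 2 ∂P ≤ v := by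
    rw [integral_div, integral_add hX.integrable_sq hY.integrable_sq]
    linarith
  have h5 := mul_nonneg h1 h2
  linarith

theorem var_sum_le {X : ℤ → Ω → ℝ} {v : ℝ} {r : ℕ} (hv : 0 ≤ v) (hX0 : ∀ n ω, 0 ≤ X n ω)
    (hL : ∀ n, MemLp (X n) 2 P) (hV : ∀ n, ∫ ω, X n ω ^ 2 ∂P ≤ v)
    (hcov : ∀ n n' : ℤ, (r : ℤ) ≤ |n - n'| → covariance (X n) (X n') P = 0) (s : Finset ℤ) :
    variance (∑ n ∈ s, X n) P ≤ s.card * (2 * r * v) := by
  rw [variance_sum' (fun i _ => hL i), ← nsmul_eq_mul]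
  refine Finset.sum_le_card_nsmul _ _ _ fun i _ => ?_
  have h1 : ∀ j ∈ s, covariance (X i) (X j) P ≤
      if j ∈ Finset.Ioo (i - r) (i + r) then v else 0 := by
    intro j _
    split_ifs with h
    · exact cov_le (hX0 i) (hX0 j) (hL i) (hL j) (hV i) (hV j)
    · rw [hcov i j]
      rw [Finset.mem_Ioo] at h
      by_contra hcon
      push Not at hcon
      rw [abs_lt] at hcon
      exact h ⟨by linarith [hcon.2], by linarith [hcon.1]⟩
  refine (Finset.sum_le_sum h1).trans ?_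
  rw [← Finset.sum_filter, Finset.sum_const, nsmul_eq_mul]
  refine mul_le_mul_of_nonneg_right ?_ hv
  have h2 : (Finset.filter (fun j => j ∈ Finset.Ioo (i - r) (i + r)) s).card ≤
      (Finset.Ioo (i - r) (i + r)).card := by
    refine Finset.card_le_card fun j hj => ?_
    exact (Finset.mem_filter.mp hj).2
  rw [Int.card_Ioo] at h2
  have h3 : (i + r - (i - r) - 1).toNat ≤ 2 * r := by
    rw [Int.toNat_le]
    push_cast
    linarith
  exact_mod_cast h2.trans h3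

theorem cheb_one {X : ℤ → Ω → ℝ} {v δ : ℝ} {r : ℕ} (hv : 0 ≤ v) (hδ : 0 < δ)
    (hX0 : ∀ n ω, 0 ≤ X n ω)
    (hL : ∀ n, MemLp (X n) 2 P) (hE : ∀ n, ∫ ω, X n ω ∂P ≤ δ / 2)
    (hV : ∀ n, ∫ ω, X n ω ^ 2 ∂P ≤ v)
    (hcov : ∀ n n' : ℤ, (r : ℤ) ≤ |n - n'| → covariance (X n) (X n') P = 0) (m : ℕ) :
    P {ω | δ * (2 * m + 1) < ∑ n ∈ Finset.Icc (-(m : ℤ)) m, X n ω} ≤
      ENNReal.ofReal (8 * (r * v / δ ^ 2) / (2 * m + 1)) := by
  set s := Finset.Icc (-(m : ℤ)) m with hs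
  have hcard : (s.card : ℝ) = 2 * m + 1 := by
    rw [hs, Int.card_Icc]
    have : ((m : ℤ) + 1 - -(m : ℤ)).toNat = 2 * m + 1 := by omega
    rw [this]
    push_cast
    ring
  have hmem : MemLp (∑ n ∈ s, X n) 2 P := memLp_finsetSum' s fun i _ => hL i
  have hc : 0 < δ * (2 * m + 1) / 2 := by positivity
  have hmean : ∫ ω, (∑ n ∈ s, X n) ω ∂P ≤ δ * (2 * m + 1) / 2 := by
    simp only [Finset.sum_apply]
    rw [integral_finsetSum _ fun i _ => (hL i).integrable one_le_two]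
    calc ∑ i ∈ s, ∫ ω, X i ω ∂P ≤ ∑ _i ∈ s, δ / 2 := Finset.sum_le_sum fun i _ => hE i
      _ = δ * (2 * m + 1) / 2 := by
        rw [Finset.sum_const, nsmul_eq_mul, hcard]; ring
  refine (measure_mono ?_).trans ((meas_ge_le_variance_div_sq hmem hc).trans ?_)
  · intro ω hω
    have h1 : δ * (2 * m + 1) < ∑ n ∈ s, X n ω := hω
    show δ * (2 * m + 1) / 2 ≤ |(∑ n ∈ s, X n) ω - ∫ ω, (∑ n ∈ s, X n) ω ∂P|
    rw [Finset.sum_apply]
    refine le_trans ?_ (le_abs_self _)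
    simp only [Finset.sum_apply] at hmean ⊢
    linarith
  · apply ENNReal.ofReal_le_ofReal
    have h2 := var_sum_le hv hX0 hL hV hcov s
    rw [hcard] at h2
    rw [div_le_div_iff₀ (by positivity) (by positivity)]
    have h3 : (0 : ℝ) < 2 * m + 1 := by positivity
    calc variance (∑ n ∈ s, X n) P * (2 * m + 1) ≤ ((2 * m + 1) * (2 * r * v)) * (2 * m + 1) :=
          mul_le_mul_of_nonneg_right h2 h3.le
      _ = 8 * (r * v / δ ^ 2) * (δ * (2 * m + 1) / 2) ^ 2 := by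
          field_simp
          ring

/-- the uniform law of large numbers -/
theorem cheb_family {X : ℕ → ℤ → Ω → ℝ} {v δ : ℕ → ℝ} {r : ℕ → ℕ} (hv : ∀ k, 0 ≤ v k)
    (hδ : ∀ k, 0 < δ k) (hX0 : ∀ k n ω, 0 ≤ X k n ω)
    (hL : ∀ k n, MemLp (X k n) 2 P) (hE : ∀ k n, ∫ ω, X k n ω ∂P ≤ δ k / 2)
    (hV : ∀ k n, ∫ ω, X k n ω ^ 2 ∂P ≤ v k)
    (hcov : ∀ k, ∀ n n' : ℤ, (r k : ℤ) ≤ |n - n'| → covariance (X k n) (X k n') P = 0)
    (hsum : Summable fun k => (r k : ℝ) * v k / δ k ^ 2) {ε : ℝ≥0∞} (hε : 0 < ε) :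
    ∃ m₀ : ℕ, P {ω | ∃ m : ℕ, m₀ ≤ m ∧ ∃ k, 2 * δ k * (2 * m + 1) <
      ∑ n ∈ Finset.Icc (-(m : ℤ)) m, X k n ω} ≤ ε := by
  set C : ℝ≥0∞ := ∑' k, ENNReal.ofReal (8 * ((r k : ℝ) * v k / δ k ^ 2)) with hC
  have hCtop : C ≠ ⊤ := by
    have h8 : Summable fun k => 8 * ((r k : ℝ) * v k / δ k ^ 2) := hsum.mul_left 8
    exact h8.tsum_ofReal_ne_top
  have key : ∀ J : ℕ, P {ω | ∃ m : ℕ, 2 ^ J ≤ m ∧ ∃ k, 2 * δ k * (2 * m + 1) <
      ∑ n ∈ Finset.Icc (-(m : ℤ)) m, X k n ω} ≤ C * (∑' j : ℕ, (2⁻¹ : ℝ≥0∞) ^ (j + J)) := by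
    intro J
    have hsub : {ω | ∃ m : ℕ, 2 ^ J ≤ m ∧ ∃ k, 2 * δ k * (2 * m + 1) <
        ∑ n ∈ Finset.Icc (-(m : ℤ)) m, X k n ω} ⊆
        ⋃ j : ℕ, ⋃ k : ℕ, {ω | δ k * (2 * ((2 ^ (j + J + 1) : ℕ) : ℝ) + 1) <
          ∑ n ∈ Finset.Icc (-((2 ^ (j + J + 1) : ℕ) : ℤ)) ((2 ^ (j + J + 1) : ℕ) : ℤ), X k n ω} := by
      rintro ω ⟨m, hm, k, hk⟩
      have hm0 : m ≠ 0 := by
        have : 0 < 2 ^ J := by positivity
        omega
      have hlog : J ≤ Nat.log 2 m := Nat.le_log_of_pow_le (by norm_num) hm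
      obtain ⟨j, hj⟩ := Nat.exists_eq_add_of_le' hlog
      refine Set.mem_iUnion₂.mpr ⟨j, k, ?_⟩
      have h1 : 2 ^ (j + J) ≤ m := by rw [← hj]; exact Nat.pow_log_le_self 2 hm0
      have h2 : m < 2 ^ (j + J + 1) := by rw [← hj]; exact Nat.lt_pow_succ_log_self (by norm_num) m
      have h3 : ∑ n ∈ Finset.Icc (-(m : ℤ)) m, X k n ω ≤
          ∑ n ∈ Finset.Icc (-((2 ^ (j + J + 1) : ℕ) : ℤ)) ((2 ^ (j + J + 1) : ℕ) : ℤ), X k n ω := by
        refine Finset.sum_le_sum_of_subset_of_nonneg ?_ fun i _ _ => hX0 k i ω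
        apply Finset.Icc_subset_Icc <;> omega
      refine lt_of_le_of_lt ?_ (lt_of_lt_of_le hk h3)
      have h4 : ((2 ^ (j + J) : ℕ) : ℝ) ≤ m := by exact_mod_cast h1
      have h5 : ((2 ^ (j + J + 1) : ℕ) : ℝ) = 2 * ((2 ^ (j + J) : ℕ) : ℝ) := by
        push_cast; ring
      rw [h5]
      have := hδ k
      nlinarith
    refine (measure_mono hsub).trans ((measure_iUnion_le _).trans ?_)
    rw [← ENNReal.tsum_mul_left]
    refine ENNReal.tsum_le_tsum fun j => (measure_iUnion_le _).trans ?_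
    rw [hC, ← ENNReal.tsum_mul_right]
    refine ENNReal.tsum_le_tsum fun k => ?_
    refine (cheb_one (hv k) (hδ k) (hX0 k) (hL k) (hE k) (hV k) (hcov k) _).trans ?_
    have h6 : (2⁻¹ : ℝ≥0∞) ^ (j + J) = ENNReal.ofReal ((2⁻¹ : ℝ) ^ (j + J)) := by
      rw [ENNReal.ofReal_pow (by norm_num), ENNReal.ofReal_inv_of_pos (by norm_num)]
      norm_num
    have h7 : 0 ≤ 8 * ((r k : ℝ) * v k / δ k ^ 2) := by
      have := hv k
      positivity
    rw [h6, ← ENNReal.ofReal_mul h7]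
    apply ENNReal.ofReal_le_ofReal
    rw [div_eq_mul_inv]
    refine mul_le_mul_of_nonneg_left ?_ h7
    rw [inv_pow]
    refine inv_anti₀ (by positivity) ?_
    push_cast
    have : (0 : ℝ) < 2 ^ (j + J) := by positivity
    rw [pow_succ]
    linarith
  have hlim : Filter.Tendsto (fun J : ℕ => C * (∑' j : ℕ, (2⁻¹ : ℝ≥0∞) ^ (j + J))) Filter.atTop
      (nhds 0) := by
    have h1 : ∑' j : ℕ, (2⁻¹ : ℝ≥0∞) ^ j ≠ ⊤ := by
      rw [ENNReal.tsum_geometric]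
      simp
    have h2 := ENNReal.tendsto_sum_nat_add (fun j : ℕ => (2⁻¹ : ℝ≥0∞) ^ j) h1
    have h3 := ENNReal.Tendsto.const_mul (a := C) h2 (Or.inr hCtop)
    rwa [mul_zero] at h3
  obtain ⟨J, hJ⟩ := ((tendsto_order.mp hlim).2 ε hε).exists
  exact ⟨2 ^ J, (key J).trans hJ.le⟩

theorem markov_sq {X : Ω → ℝ} {v t : ℝ} (hL : MemLp X 2 P)
    (hV : ∫ ω, X ω ^ 2 ∂P ≤ v) (ht : 0 < t) :
    P {ω | t < X ω} ≤ ENNReal.ofReal (v / t ^ 2) := by
  have h1 := mul_meas_ge_le_integral_of_nonneg (μ := P) (f := fun ω => X ω ^ 2)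
    (Filter.Eventually.of_forall fun ω => by positivity) hL.integrable_sq (t ^ 2)
  have h2 : P.real {ω | t ^ 2 ≤ X ω ^ 2} ≤ v / t ^ 2 := by
    rw [le_div_iff₀ (by positivity), mul_comm]
    exact h1.trans hV
  refine (measure_mono (t := {ω | t ^ 2 ≤ X ω ^ 2}) ?_).trans ?_
  · intro ω hω
    have h3 : t < X ω := hω
    show t ^ 2 ≤ X ω ^ 2
    nlinarith
  · rw [← ofReal_measureReal]
    exact ENNReal.ofReal_le_ofReal h2

/-- slow growth of square integrable variables -/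
theorem slow_family {X : ℕ → ℤ → Ω → ℝ} {v δ : ℕ → ℝ} (hv : ∀ k, 0 ≤ v k)
    (hδ : ∀ k, 0 < δ k)
    (hL : ∀ k n, MemLp (X k n) 2 P) (hV : ∀ k n, ∫ ω, X k n ω ^ 2 ∂P ≤ v k)
    (hsum : Summable fun k => v k / δ k ^ 2) {ε : ℝ≥0∞} (hε : 0 < ε) :
    ∃ m₀ : ℕ, P {ω | ∃ k, ∃ n : ℤ, δ k * (m₀ + |(n : ℝ)|) < X k n ω} ≤ ε := by
  set C : ℝ≥0∞ := ∑' k, ENNReal.ofReal (v k / δ k ^ 2) with hC
  have hCtop : C ≠ ⊤ := hsum.tsum_ofReal_ne_top
  set T : ℕ → ℝ≥0∞ := fun m => ∑' i : ℕ, ENNReal.ofReal (1 / ((i + m : ℕ) : ℝ) ^ 2) with hT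
  have key : ∀ m : ℕ, 0 < m → P {ω | ∃ k, ∃ n : ℤ, δ k * (m + |(n : ℝ)|) < X k n ω} ≤
      2 * (C * T m) := by
    intro m hm
    have hsub : {ω | ∃ k, ∃ n : ℤ, δ k * (m + |(n : ℝ)|) < X k n ω} ⊆
        (⋃ k : ℕ, ⋃ i : ℕ, {ω | δ k * ((i + m : ℕ) : ℝ) < X k (i : ℤ) ω}) ∪
        (⋃ k : ℕ, ⋃ i : ℕ, {ω | δ k * ((i + m : ℕ) : ℝ) < X k (-(i : ℤ)) ω}) := by
      rintro ω ⟨k, n, h⟩
      rcases Int.natAbs_eq n with hn | hn
      · left
        refine Set.mem_iUnion₂.mpr ⟨k, n.natAbs, ?_⟩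
        show δ k * ((n.natAbs + m : ℕ) : ℝ) < X k (n.natAbs : ℤ) ω
        rw [← hn]
        push_cast
        rw [Nat.cast_natAbs]
        push_cast
        rwa [add_comm]
      · right
        refine Set.mem_iUnion₂.mpr ⟨k, n.natAbs, ?_⟩
        show δ k * ((n.natAbs + m : ℕ) : ℝ) < X k (-(n.natAbs : ℤ)) ω
        rw [← hn]
        push_cast
        rw [Nat.cast_natAbs]
        push_cast
        rwa [add_comm]
    have hpart : ∀ σ : ℤ, P (⋃ k : ℕ, ⋃ i : ℕ, {ω | δ k * ((i + m : ℕ) : ℝ) < X k (σ * i) ω}) ≤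
        C * T m := by
      intro σ
      refine (measure_iUnion_le _).trans ?_
      rw [hC, ← ENNReal.tsum_mul_right]
      refine ENNReal.tsum_le_tsum fun k => (measure_iUnion_le _).trans ?_
      rw [← ENNReal.tsum_mul_left]
      refine ENNReal.tsum_le_tsum fun i => ?_
      have hpos : (0 : ℝ) < ((i + m : ℕ) : ℝ) := by
        have : 0 < i + m := by omega
        exact_mod_cast this
      have hδk := hδ k
      refine (markov_sq (hL k _) (hV k _) (by positivity)).trans ?_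
      rw [← ENNReal.ofReal_mul (by have := hv k; positivity)]
      apply ENNReal.ofReal_le_ofReal
      rw [mul_pow]
      apply le_of_eq
      field_simp
    refine (measure_mono hsub).trans ((measure_union_le _ _).trans ?_)
    have h1 := hpart 1
    have h2 := hpart (-1)
    simp only [one_mul, neg_mul] at h1 h2
    calc _ ≤ C * T m + C * T m := add_le_add h1 h2
      _ = 2 * (C * T m) := by rw [two_mul]
  have hlim : Filter.Tendsto (fun m : ℕ => 2 * (C * T m)) Filter.atTop (nhds 0) := by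
    have h1 : ∑' i : ℕ, ENNReal.ofReal (1 / ((i : ℕ) : ℝ) ^ 2) ≠ ⊤ :=
      (Real.summable_one_div_nat_pow.mpr one_lt_two).tsum_ofReal_ne_top
    have h2 := ENNReal.tendsto_sum_nat_add (fun i : ℕ => ENNReal.ofReal (1 / ((i : ℕ) : ℝ) ^ 2)) h1
    have h3 := ENNReal.Tendsto.const_mul (a := C) h2 (Or.inr hCtop)
    have h4 := ENNReal.Tendsto.const_mul (a := 2) h3 (Or.inr ENNReal.ofNat_ne_top)
    rwa [mul_zero, mul_zero] at h4
  obtain ⟨m, hm, hm'⟩ := (((tendsto_order.mp hlim).2 ε hε).and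
    (Filter.eventually_gt_atTop 0)).exists
  exact ⟨m, (key m hm').trans hm.le⟩

end

end Pool.Agent.Y979.HV
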