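import Pool.Agent.Y979.HV.Defs

/-!
# Void probabilities, moments and independence for the Poisson process
-/

set_option autoImplicit false

open UpperHalfPlane Real MeasureTheory ProbabilityTheory
open scoped ENNReal

namespace Pool.Agent.Y979.HV

noncomputable section

variable {Ω : Type*} [MeasurableSpace Ω] {P : Measure Ω} {lam : ℝ} {Q : Ω → Set ℍ}

/-- the number of points in `B` as a real number -/
def num (A B : Set ℍ) : ℝ := ((A ∩ B).encard.toNat : ℝ)

/-- the indicator of the event that there is no point in `T` -/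
def vd (A T : Set ℍ) : ℝ := if (A ∩ T).encard = 0 then 1 else 0

theorem num_nonneg (A B : Set ℍ) : 0 ≤ num A B := Nat.cast_nonneg _

theorem vd_nonneg (A T : Set ℍ) : 0 ≤ vd A T := by
  unfold vd; split_ifs <;> norm_num

theorem vd_le_one (A T : Set ℍ) : vd A T ≤ 1 := by
  unfold vd; split_ifs <;> norm_num

theorem vd_sq (A T : Set ℍ) : vd A T ^ 2 = vd A T := by
  unfold vd; split_ifs <;> norm_num

theorem vd_eq_one {A T : Set ℍ} (h : A ∩ T = ∅) : vd A T = 1 := by
  unfold vd
  rw [h]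
  simp

theorem IsPoissonProcess.lintegral_count [IsProbabilityMeasure P] (hQ : IsPoissonProcess P lam Q)
    (hlam : 0 ≤ lam) {B : Set ℍ} (hB : MeasurableSet B) (hv : volume B ≠ ⊤) (g : ℕ∞ → ℝ≥0∞) :
    ∫⁻ ω, g (Q ω ∩ B).encard ∂P = ∑' k : ℕ, g k *
      ENNReal.ofReal (Real.exp (-(lam * (volume B).toReal)) * (lam * (volume B).toReal) ^ k /
        (k.factorial : ℝ)) := by
  have hN := hQ.measurable_count B hB
  set μ : ℝ := lam * (volume B).toReal with hμ
  have hμ0 : 0 ≤ μ := by positivity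
  have h1 : ∀ k : ℕ, (P.map (fun ω => (Q ω ∩ B).encard)) {(k : ℕ∞)} =
      ENNReal.ofReal (Real.exp (-μ) * μ ^ k / (k.factorial : ℝ)) := by
    intro k
    rw [Measure.map_apply hN (measurableSet_singleton _)]
    exact hQ.law_count B hB hv k
  have h2 : ∑' k : ℕ, (P.map (fun ω => (Q ω ∩ B).encard)) {(k : ℕ∞)} = 1 := by
    simp_rw [h1]
    have h3 : HasSum (fun k : ℕ => Real.exp (-μ) * μ ^ k / (k.factorial : ℝ)) 1 :=
      ProbabilityTheory.hasSum_one_poissonMeasure ⟨μ, hμ0⟩
    rw [← ENNReal.ofReal_tsum_of_nonneg (fun n => by positivity) h3.summable, h3.tsum_eq,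
      ENNReal.ofReal_one]
  have hprob : IsProbabilityMeasure (P.map (fun ω => (Q ω ∩ B).encard)) :=
    Measure.isProbabilityMeasure_map hN.aemeasurable
  have htop : (P.map (fun ω => (Q ω ∩ B).encard)) {(⊤ : ℕ∞)} = 0 := by
    have hcov : (⋃ k : ℕ, {(k : ℕ∞)}) ∪ {(⊤ : ℕ∞)} = Set.univ := by
      ext x
      simp only [Set.mem_union, Set.mem_iUnion, Set.mem_singleton_iff, Set.mem_univ, iff_true]
      rcases eq_or_ne x ⊤ with h | h
      · exact Or.inr h
      · exact Or.inl ⟨x.toNat, (ENat.natCast_toNat h).symm⟩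
    have hdis : Disjoint (⋃ k : ℕ, {(k : ℕ∞)}) {(⊤ : ℕ∞)} := by
      rw [Set.disjoint_left]
      intro x hx hx'
      rw [Set.mem_iUnion] at hx
      obtain ⟨k, hk⟩ := hx
      rw [Set.mem_singleton_iff] at hk hx'
      rw [hx'] at hk
      exact ENat.natCast_ne_top k hk.symm
    have h4 : (P.map (fun ω => (Q ω ∩ B).encard)) ((⋃ k : ℕ, {(k : ℕ∞)}) ∪ {(⊤ : ℕ∞)}) = 1 := by
      rw [hcov]; exact measure_univ
    rw [measure_union hdis (measurableSet_singleton _), measure_iUnion, h2] at h4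
    · have h5 : (1 : ℝ≥0∞) + (P.map (fun ω => (Q ω ∩ B).encard)) {(⊤ : ℕ∞)} = 1 + 0 := by
        rw [h4, add_zero]
      exact (ENNReal.add_right_inj ENNReal.one_ne_top).mp h5
    · intro a b hab
      rw [Function.onFun, Set.disjoint_singleton]
      exact_mod_cast hab
    · intro k; exact measurableSet_singleton _
  have h5 : ∫⁻ ω, g (Q ω ∩ B).encard ∂P = ∫⁻ x, g x ∂(P.map (fun ω => (Q ω ∩ B).encard)) := by
    rw [lintegral_map (measurable_of_countable g) hN]
  rw [h5, lintegral_countable']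
  have h6 : Function.Injective (Nat.cast : ℕ → ℕ∞) := Nat.cast_injective
  rw [← h6.tsum_eq (f := fun x : ℕ∞ => g x * (P.map (fun ω => (Q ω ∩ B).encard)) {x})]
  · refine tsum_congr fun k => ?_
    rw [h1]
  · intro x hx
    rcases eq_or_ne x ⊤ with h | h
    · rw [Function.mem_support, h, htop, mul_zero] at hx
      exact absurd rfl hx
    · exact ⟨x.toNat, ENat.natCast_toNat h⟩

theorem IsPoissonProcess.void_prob (hQ : IsPoissonProcess P lam Q) {B : Set ℍ}
    (hB : MeasurableSet B) (hv : volume B ≠ ⊤) :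
    P {ω | Q ω ∩ B = ∅} = ENNReal.ofReal (Real.exp (-(lam * (volume B).toReal))) := by
  have := hQ.law_count B hB hv 0
  simpa [Set.encard_eq_zero] using this

theorem IsPoissonProcess.ae_finite [IsProbabilityMeasure P] (hQ : IsPoissonProcess P lam Q)
    (hlam : 0 ≤ lam) {B : Set ℍ} (hB : MeasurableSet B) (hv : volume B ≠ ⊤) :
    ∀ᵐ ω ∂P, (Q ω ∩ B).Finite := by
  have h := hQ.lintegral_count hlam hB hv (fun n => if n = ⊤ then 1 else 0)
  have h1 : ∑' k : ℕ, (fun n : ℕ∞ => if n = ⊤ then (1 : ℝ≥0∞) else 0) k *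
      ENNReal.ofReal (Real.exp (-(lam * (volume B).toReal)) * (lam * (volume B).toReal) ^ k /
        (k.factorial : ℝ)) = 0 := by
    rw [ENNReal.tsum_eq_zero]
    intro k
    simp
  rw [h1, lintegral_eq_zero_iff] at h
  · filter_upwards [h] with ω hω
    by_contra hcon
    have h2 : (Q ω ∩ B).encard = ⊤ := Set.Infinite.encard_eq hcon
    simp only [Pi.zero_apply, h2, if_true] at hω
    exact one_ne_zero hω
  · exact (measurable_of_countable (fun n : ℕ∞ => if n = ⊤ then (1 : ℝ≥0∞) else 0)).comp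
      (hQ.measurable_count B hB)

theorem hasSum_fact (μ : ℝ) (j : ℕ) :
    HasSum (fun k : ℕ => ((k.descFactorial j : ℕ) : ℝ) *
      (Real.exp (-μ) * μ ^ k / (k.factorial : ℝ))) (μ ^ j) := by
  have h0 : HasSum (fun k : ℕ => μ ^ k / (k.factorial : ℝ)) (Real.exp μ) := by
    have := NormedSpace.expSeries_div_hasSum_exp (𝔸 := ℝ) μ
    rwa [← Real.exp_eq_exp_ℝ] at this
  rw [← hasSum_nat_add_iff' j]
  have hz : ∑ i ∈ Finset.range j, ((i.descFactorial j : ℕ) : ℝ) *
      (Real.exp (-μ) * μ ^ i / (i.factorial : ℝ)) = 0 := by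
    refine Finset.sum_eq_zero fun i hi => ?_
    rw [Nat.descFactorial_eq_zero_iff_lt.mpr (Finset.mem_range.mp hi)]
    simp
  rw [hz, sub_zero]
  have h1 := h0.mul_left (μ ^ j * Real.exp (-μ))
  have h2 : μ ^ j * Real.exp (-μ) * Real.exp μ = μ ^ j := by
    rw [mul_assoc, ← Real.exp_add]; simp
  rw [h2] at h1
  have h3 : (fun k : ℕ => (((k + j).descFactorial j : ℕ) : ℝ) *
      (Real.exp (-μ) * μ ^ (k + j) / ((k + j).factorial : ℝ))) =
      fun k : ℕ => μ ^ j * Real.exp (-μ) * (μ ^ k / (k.factorial : ℝ)) := by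
    funext k
    have h4 : (((k + j).factorial : ℕ) : ℝ) = (k.factorial : ℝ) * ((k + j).descFactorial j : ℕ) := by
      have := Nat.factorial_mul_descFactorial (Nat.le_add_left j k)
      rw [Nat.add_sub_cancel] at this
      exact_mod_cast this.symm
    have h5 : ((k.factorial : ℕ) : ℝ) ≠ 0 := by positivity
    have h6 : (((k + j).descFactorial j : ℕ) : ℝ) ≠ 0 := by
      have : 0 < (k + j).descFactorial j := Nat.descFactorial_pos.mpr (Nat.le_add_left j k)
      positivity
    rw [h4, pow_add]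
    field_simp
  rw [h3]
  exact h1

theorem hasSum_sq (μ : ℝ) :
    HasSum (fun k : ℕ => (k : ℝ) ^ 2 * (Real.exp (-μ) * μ ^ k / (k.factorial : ℝ)))
      (μ ^ 2 + μ) := by
  have h := (hasSum_fact μ 2).add (hasSum_fact μ 1)
  rw [pow_one] at h
  convert h using 1
  funext k
  rw [← add_mul]
  congr 1
  rw [Nat.descFactorial_one]
  rcases k with _ | k
  · simp
  · rw [Nat.succ_descFactorial_succ, Nat.descFactorial_one]
    push_cast
    ring

theorem hasSum_one (μ : ℝ) :
    HasSum (fun k : ℕ => (k : ℝ) * (Real.exp (-μ) * μ ^ k / (k.factorial : ℝ))) μ := by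
  have h := hasSum_fact μ 1
  rw [pow_one] at h
  simpa using h

theorem IsPoissonProcess.lintegral_num [IsProbabilityMeasure P] (hQ : IsPoissonProcess P lam Q)
    (hlam : 0 ≤ lam) {B : Set ℍ} (hB : MeasurableSet B) (hv : volume B ≠ ⊤) (g : ℝ → ℝ) (s : ℝ)
    (hg : ∀ k : ℕ, 0 ≤ g k)
    (hs : HasSum (fun k : ℕ => g k * (Real.exp (-(lam * (volume B).toReal)) *
      (lam * (volume B).toReal) ^ k / (k.factorial : ℝ))) s) :
    ∫⁻ ω, ENNReal.ofReal (g (num (Q ω) B)) ∂P = ENNReal.ofReal s := by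
  have h := hQ.lintegral_count hlam hB hv (fun n => ENNReal.ofReal (g (n.toNat : ℝ)))
  have hμ0 : 0 ≤ lam * (volume B).toReal := by positivity
  show ∫⁻ ω, ENNReal.ofReal (g ((Q ω ∩ B).encard.toNat : ℝ)) ∂P = ENNReal.ofReal s
  rw [h, ← hs.tsum_eq, ENNReal.ofReal_tsum_of_nonneg _ hs.summable]
  · refine tsum_congr fun k => ?_
    rw [← ENNReal.ofReal_mul (by simpa using hg k)]
    simp
  · intro k
    have := hg k
    positivity

theorem measurable_num (hQ : IsPoissonProcess P lam Q) {B : Set ℍ} (hB : MeasurableSet B) :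
    Measurable (fun ω => num (Q ω) B) :=
  (measurable_of_countable (fun n : ℕ∞ => (n.toNat : ℝ))).comp (hQ.measurable_count B hB)

theorem measurable_vd (hQ : IsPoissonProcess P lam Q) {B : Set ℍ} (hB : MeasurableSet B) :
    Measurable (fun ω => vd (Q ω) B) :=
  (measurable_of_countable (fun n : ℕ∞ => if n = 0 then (1 : ℝ) else 0)).comp
    (hQ.measurable_count B hB)

theorem IsPoissonProcess.integral_num [IsProbabilityMeasure P] (hQ : IsPoissonProcess P lam Q)
    (hlam : 0 ≤ lam) {B : Set ℍ} (hB : MeasurableSet B) (hv : volume B ≠ ⊤) :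
    ∫ ω, num (Q ω) B ∂P = lam * (volume B).toReal := by
  have hμ0 : 0 ≤ lam * (volume B).toReal := by positivity
  rw [integral_eq_lintegral_of_nonneg_ae (Filter.Eventually.of_forall fun ω => num_nonneg _ _)
    (measurable_num hQ hB).aestronglyMeasurable,
    hQ.lintegral_num hlam hB hv (fun x => x) _ (fun k => Nat.cast_nonneg k) (hasSum_one _),
    ENNReal.toReal_ofReal hμ0]

theorem IsPoissonProcess.integral_num_sq [IsProbabilityMeasure P] (hQ : IsPoissonProcess P lam Q)
    (hlam : 0 ≤ lam) {B : Set ℍ} (hB : MeasurableSet B) (hv : volume B ≠ ⊤) :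
    ∫ ω, num (Q ω) B ^ 2 ∂P = (lam * (volume B).toReal) ^ 2 + lam * (volume B).toReal := by
  have hμ0 : 0 ≤ lam * (volume B).toReal := by positivity
  rw [integral_eq_lintegral_of_nonneg_ae (Filter.Eventually.of_forall fun ω => by
      show 0 ≤ num (Q ω) B ^ 2
      positivity)
    ((measurable_num hQ hB).pow_const 2).aestronglyMeasurable,
    hQ.lintegral_num hlam hB hv (fun x => x ^ 2) _ (fun k => by positivity) (hasSum_sq _),
    ENNReal.toReal_ofReal (by positivity)]

theorem IsPoissonProcess.memLp_num [IsProbabilityMeasure P] (hQ : IsPoissonProcess P lam Q)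
    (hlam : 0 ≤ lam) {B : Set ℍ} (hB : MeasurableSet B) (hv : volume B ≠ ⊤) :
    MemLp (fun ω => num (Q ω) B) 2 P := by
  rw [memLp_two_iff_integrable_sq (measurable_num hQ hB).aestronglyMeasurable]
  refine ⟨((measurable_num hQ hB).pow_const 2).aestronglyMeasurable, ?_⟩
  rw [hasFiniteIntegral_iff_ofReal (Filter.Eventually.of_forall fun ω => by
      show 0 ≤ num (Q ω) B ^ 2
      positivity)]
  rw [hQ.lintegral_num hlam hB hv (fun x => x ^ 2) _ (fun k => by positivity) (hasSum_sq _)]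
  exact ENNReal.ofReal_lt_top

theorem IsPoissonProcess.integral_vd [IsProbabilityMeasure P] (hQ : IsPoissonProcess P lam Q)
    {B : Set ℍ} (hB : MeasurableSet B) (hv : volume B ≠ ⊤) :
    ∫ ω, vd (Q ω) B ∂P = Real.exp (-(lam * (volume B).toReal)) := by
  have h1 : (fun ω => vd (Q ω) B) = Set.indicator {ω | Q ω ∩ B = ∅} (fun _ => (1 : ℝ)) := by
    funext ω
    by_cases h : Q ω ∩ B = ∅
    · rw [vd_eq_one h, Set.indicator_of_mem (by exact h)]
    · rw [Set.indicator_of_notMem (by exact h)]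
      unfold vd
      rw [if_neg]
      rwa [Set.encard_eq_zero]
  have hm : MeasurableSet {ω | Q ω ∩ B = ∅} := by
    have h2 : {ω | Q ω ∩ B = ∅} = (fun ω => (Q ω ∩ B).encard) ⁻¹' {0} := by
      ext ω
      simp [Set.encard_eq_zero]
    rw [h2]
    exact hQ.measurable_count B hB (measurableSet_singleton _)
  rw [h1, integral_indicator_const _ hm, smul_eq_mul, mul_one, Measure.real, hQ.void_prob hB hv,
    ENNReal.toReal_ofReal (Real.exp_pos _).le]

theorem IsPoissonProcess.memLp_vd [IsProbabilityMeasure P] (hQ : IsPoissonProcess P lam Q)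
    {B : Set ℍ} (hB : MeasurableSet B) : MemLp (fun ω => vd (Q ω) B) 2 P :=
  MemLp.of_bound (measurable_vd hQ hB).aestronglyMeasurable 1
    (Filter.Eventually.of_forall fun ω => by
      rw [Real.norm_of_nonneg (vd_nonneg _ _)]
      exact vd_le_one _ _)

theorem IsPoissonProcess.memLp_vd_num [IsProbabilityMeasure P] (hQ : IsPoissonProcess P lam Q)
    (hlam : 0 ≤ lam) {T B : Set ℍ} (hT : MeasurableSet T) (hB : MeasurableSet B)
    (hv : volume B ≠ ⊤) : MemLp (fun ω => vd (Q ω) T * num (Q ω) B) 2 P := by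
  refine (hQ.memLp_num hlam hB hv).mono
    ((measurable_vd hQ hT).mul (measurable_num hQ hB)).aestronglyMeasurable
    (Filter.Eventually.of_forall fun ω => ?_)
  rw [Real.norm_of_nonneg (mul_nonneg (vd_nonneg _ _) (num_nonneg _ _)),
    Real.norm_of_nonneg (num_nonneg _ _)]
  exact mul_le_of_le_one_left (num_nonneg _ _) (vd_le_one _ _)

theorem IsPoissonProcess.indep_two [IsProbabilityMeasure P] (hQ : IsPoissonProcess P lam Q)
    {T B : Set ℍ} (hT : MeasurableSet T) (hB : MeasurableSet B) (hd : Disjoint T B) :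
    IndepFun (fun ω => (Q ω ∩ T).encard) (fun ω => (Q ω ∩ B).encard) P := by
  have h := hQ.indep_count 2 ![T, B] (by intro i; fin_cases i <;> assumption) (by
    intro i j hij
    fin_cases i <;> fin_cases j <;> simp_all [disjoint_comm])
  exact h.indepFun (i := 0) (j := 1) (by decide)

theorem IsPoissonProcess.cov_vd [IsProbabilityMeasure P] (hQ : IsPoissonProcess P lam Q)
    {T B : Set ℍ} (hT : MeasurableSet T) (hB : MeasurableSet B) (hd : Disjoint T B) :
    covariance (fun ω => vd (Q ω) T) (fun ω => vd (Q ω) B) P = 0 :=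
  IndepFun.covariance_eq_zero
    ((hQ.indep_two hT hB hd).comp (φ := fun n : ℕ∞ => if n = 0 then (1 : ℝ) else 0)
      (ψ := fun n : ℕ∞ => if n = 0 then (1 : ℝ) else 0)
      (measurable_of_countable _) (measurable_of_countable _))
    (hQ.memLp_vd hT) (hQ.memLp_vd hB)

theorem IsPoissonProcess.cov_vd_num [IsProbabilityMeasure P] (hQ : IsPoissonProcess P lam Q)
    (hlam : 0 ≤ lam) {T B T' B' : Set ℍ} (hT : MeasurableSet T) (hB : MeasurableSet B)
    (hT' : MeasurableSet T') (hB' : MeasurableSet B')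
    (hv : volume B ≠ ⊤) (hv' : volume B' ≠ ⊤) (h1 : Disjoint T B) (h2 : Disjoint T' B')
    (h3 : Disjoint (T ∪ B) (T' ∪ B')) :
    covariance (fun ω => vd (Q ω) T * num (Q ω) B) (fun ω => vd (Q ω) T' * num (Q ω) B') P = 0 := by
  rw [Set.disjoint_union_left, Set.disjoint_union_right, Set.disjoint_union_right] at h3
  obtain ⟨⟨h4, h5⟩, h6, h7⟩ := h3
  have h := hQ.indep_count 4 ![T, B, T', B'] (by intro i; fin_cases i <;> assumption) (by
    intro i j hij
    fin_cases i <;> fin_cases j <;> simp_all [disjoint_comm])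
  have hind := h.indepFun_prodMk_prodMk (fun i => hQ.measurable_count _ (by
    fin_cases i <;> assumption)) 0 1 2 3 (by decide) (by decide) (by decide) (by decide)
  exact IndepFun.covariance_eq_zero
    (hind.comp (φ := fun n : ℕ∞ × ℕ∞ => (if n.1 = 0 then (1 : ℝ) else 0) * (n.2.toNat : ℝ))
      (ψ := fun n : ℕ∞ × ℕ∞ => (if n.1 = 0 then (1 : ℝ) else 0) * (n.2.toNat : ℝ))
      (measurable_of_countable _) (measurable_of_countable _))
    (hQ.memLp_vd_num hlam hT hB hv) (hQ.memLp_vd_num hlam hT' hB' hv')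

theorem IsPoissonProcess.integral_vd_num [IsProbabilityMeasure P] (hQ : IsPoissonProcess P lam Q)
    (hlam : 0 ≤ lam) {T B : Set ℍ} (hT : MeasurableSet T) (hB : MeasurableSet B)
    (hvT : volume T ≠ ⊤) (hv : volume B ≠ ⊤) (hd : Disjoint T B) :
    ∫ ω, vd (Q ω) T * num (Q ω) B ∂P =
      Real.exp (-(lam * (volume T).toReal)) * (lam * (volume B).toReal) := by
  have hind := (hQ.indep_two hT hB hd).comp (φ := fun n : ℕ∞ => if n = 0 then (1 : ℝ) else 0)
      (ψ := fun n : ℕ∞ => (n.toNat : ℝ))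
      (measurable_of_countable _) (measurable_of_countable _)
  have h := hind.integral_fun_mul_eq_mul_integral (measurable_vd hQ hT).aestronglyMeasurable
    (measurable_num hQ hB).aestronglyMeasurable
  rw [← hQ.integral_vd hT hvT, ← hQ.integral_num hlam hB hv]
  exact h

theorem IsPoissonProcess.integral_vd_num_sq [IsProbabilityMeasure P]
    (hQ : IsPoissonProcess P lam Q)
    (hlam : 0 ≤ lam) {T B : Set ℍ} (hT : MeasurableSet T) (hB : MeasurableSet B)
    (hvT : volume T ≠ ⊤) (hv : volume B ≠ ⊤) (hd : Disjoint T B) :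
    ∫ ω, (vd (Q ω) T * num (Q ω) B) ^ 2 ∂P =
      Real.exp (-(lam * (volume T).toReal)) *
        ((lam * (volume B).toReal) ^ 2 + lam * (volume B).toReal) := by
  have hind := (hQ.indep_two hT hB hd).comp (φ := fun n : ℕ∞ => if n = 0 then (1 : ℝ) else 0)
      (ψ := fun n : ℕ∞ => (n.toNat : ℝ) ^ 2)
      (measurable_of_countable _) (measurable_of_countable _)
  have h := hind.integral_fun_mul_eq_mul_integral (measurable_vd hQ hT).aestronglyMeasurable
    ((measurable_num hQ hB).pow_const 2).aestronglyMeasurable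
  rw [← hQ.integral_vd hT hvT, ← hQ.integral_num_sq hlam hB hv]
  simp_rw [mul_pow, vd_sq]
  exact h

end

end Pool.Agent.Y979.HV
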