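import Pool.Agent.Y979.HV.Bounds
import Pool.Agent.Y979.HV.Poisson
import Pool.Agent.Y979.HV.Cheb

/-!
# Counting the cells that meet a sector
-/

set_option autoImplicit false

open UpperHalfPlane Real MeasureTheory ProbabilityTheory
open scoped ENNReal

namespace Pool.Agent.Y979.HV

noncomputable section

/-- the piece of a sector between the circles of radius `2 ^ n` and `2 ^ (n + 1)` -/
def piece (h : ℕ) (n : ℤ) : Set ℍ :=
  {z | (2 : ℝ) ^ n ≤ ‖(z : ℂ)‖ ∧ ‖(z : ℂ)‖ < (2 : ℝ) ^ (n + 1) ∧ (2 : ℝ) ^ (n - h) ≤ z.im}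

/-- the test rectangle at scale `n` -/
def tRect (k : ℕ) (n : ℤ) : Set ℍ :=
  box (Set.Ico 0 ((2 : ℝ) ^ n)) ((2 : ℝ) ^ (n - k)) ((2 : ℝ) ^ n)

theorem measurableSet_tRect (k : ℕ) (n : ℤ) : MeasurableSet (tRect k n) :=
  measurableSet_box measurableSet_Ico _ _

theorem volume_tRect (k : ℕ) (n : ℤ) : volume (tRect k n) = ENNReal.ofReal ((2 : ℝ) ^ k - 1) := by
  have h1 : (2 : ℝ) ^ (n - k) ≤ (2 : ℝ) ^ n := zpow_le_zpow_right₀ (by norm_num) (by omega)
  unfold tRect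
  rw [volume_box measurableSet_Ico (by positivity) h1, Real.volume_Ico,
    ← ENNReal.ofReal_mul (by
      have : (0 : ℝ) < (2 : ℝ) ^ n := by positivity
      linarith)]
  congr 1
  have e2 : (2 : ℝ) ^ (n - k) = 2 ^ n / 2 ^ k := by
    rw [zpow_sub₀ (by norm_num), zpow_natCast]
  rw [e2]
  have h3 : (0 : ℝ) < (2 : ℝ) ^ k := by positivity
  have h4 : (0 : ℝ) < (2 : ℝ) ^ n := by positivity
  field_simp
  ring

theorem tRect_zero (n : ℤ) : tRect 0 n = ∅ := by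
  ext z
  simp only [tRect, box, Set.mem_ofPred_eq, Set.mem_empty_iff_false, iff_false]
  rintro ⟨_, h1, h2⟩
  rw [Nat.cast_zero, sub_zero] at h1
  linarith

theorem cosh_dist_piece {h k : ℕ} {n : ℤ} {z w : ℍ} (hz : z ∈ piece h n) (hw : w ∈ tRect k n) :
    Real.cosh (dist z w) ≤ (2 : ℝ) ^ (h + k + 3) := by
  obtain ⟨_, h2, h3⟩ := hz
  obtain ⟨⟨h4, h5⟩, h6, h7⟩ := hw
  have hzi := z.im_pos
  have hwi := w.im_pos
  have hzn := norm_pos' z
  rw [cosh_dist_eq, div_le_iff₀ (by positivity)]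
  have hY : (0 : ℝ) < (2 : ℝ) ^ n := by positivity
  set Y : ℝ := (2 : ℝ) ^ n with hYd
  rw [zpow_add₀ (by norm_num), zpow_one, ← hYd] at h2
  have e1 : (2 : ℝ) ^ (n - h) = Y / 2 ^ h := by
    rw [zpow_sub₀ (by norm_num), zpow_natCast]
  have e2 : (2 : ℝ) ^ (n - k) = Y / 2 ^ k := by
    rw [zpow_sub₀ (by norm_num), zpow_natCast]
  rw [e1] at h3
  rw [e2] at h6
  have hA : (0 : ℝ) < (2 : ℝ) ^ h := by positivity
  have hB : (0 : ℝ) < (2 : ℝ) ^ k := by positivity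
  have a1 : Y ≤ z.im * 2 ^ h := by rwa [div_le_iff₀ hA] at h3
  have a2 : Y ≤ w.im * 2 ^ k := by rwa [div_le_iff₀ hB] at h6
  have a3 : Y * Y ≤ (z.im * 2 ^ h) * (w.im * 2 ^ k) := mul_le_mul a1 a2 hY.le (by positivity)
  have a4 : z.re ^ 2 ≤ ‖(z : ℂ)‖ ^ 2 := by
    rw [norm_sq_eq]
    nlinarith [sq_nonneg z.im]
  have a5 : ‖(z : ℂ)‖ ^ 2 ≤ (Y * 2) ^ 2 := pow_le_pow_left₀ hzn.le h2.le 2
  have a6 : ‖(w : ℂ)‖ ^ 2 ≤ 2 * Y ^ 2 := by
    rw [norm_sq_eq]
    have b1 : w.re ^ 2 ≤ Y ^ 2 := pow_le_pow_left₀ h4 h5.le 2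
    have b2 : w.im ^ 2 ≤ Y ^ 2 := pow_le_pow_left₀ hwi.le h7.le 2
    linarith
  have a7 : -(2 * (z.re * w.re)) ≤ z.re ^ 2 + w.re ^ 2 := by nlinarith [sq_nonneg (z.re + w.re)]
  have a8 : w.re ^ 2 ≤ Y ^ 2 := pow_le_pow_left₀ h4 h5.le 2
  have a9 : (2 : ℝ) ^ (h + k + 3) * (2 * (z.im * w.im)) = 16 * ((z.im * 2 ^ h) * (w.im * 2 ^ k)) := by
    rw [pow_add, pow_add]
    ring
  rw [a9]
  nlinarith

theorem mem_bigBox_of_near {h k : ℕ} {n : ℤ} {z x : ℍ} (hz : z ∈ piece h n)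
    (hx : Real.cosh (dist z x) ≤ (2 : ℝ) ^ (h + k + 4)) : x ∈ bigBox (2 * h + k + 6) n := by
  obtain ⟨_, h2, h3⟩ := hz
  have he : Real.exp (dist z x) ≤ (2 : ℝ) ^ (h + k + 5) := by
    refine (exp_le_two_cosh _).trans ?_
    rw [pow_succ]
    linarith
  have hY : (0 : ℝ) < (2 : ℝ) ^ n := by positivity
  have h1 : ‖(x : ℂ)‖ < (2 : ℝ) ^ (n + ((2 * h + k + 6 : ℕ) : ℤ)) := by
    have a1 := norm_le_exp z x
    have a2 : ‖(z : ℂ)‖ * Real.exp (dist z x) < (2 : ℝ) ^ (n + 1) * (2 : ℝ) ^ (h + k + 5) :=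
      mul_lt_mul h2 he (Real.exp_pos _) (by positivity)
    have a3 : (2 : ℝ) ^ (n + 1) * (2 : ℝ) ^ (h + k + 5) ≤
        (2 : ℝ) ^ (n + ((2 * h + k + 6 : ℕ) : ℤ)) := by
      rw [← zpow_natCast (2 : ℝ) (h + k + 5), ← zpow_add₀ (by norm_num)]
      apply zpow_le_zpow_right₀ (by norm_num)
      push_cast
      omega
    linarith
  have h4 : |x.re| < (2 : ℝ) ^ (n + ((2 * h + k + 6 : ℕ) : ℤ)) :=
    lt_of_le_of_lt (abs_re_le_norm x) h1
  refine ⟨abs_lt.mp h4, ?_, lt_of_le_of_lt (im_le_norm x) h1⟩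
  have b1 := im_ge_exp z x
  refine le_trans ?_ b1
  have b2 : (2 : ℝ) ^ (n - ((2 * h + k + 6 : ℕ) : ℤ)) ≤ (2 : ℝ) ^ (n - h) / 2 ^ (h + k + 5) := by
    rw [← zpow_natCast (2 : ℝ) (h + k + 5), ← zpow_sub₀ (by norm_num)]
    apply zpow_le_zpow_right₀ (by norm_num)
    push_cast
    omega
  refine b2.trans ?_
  exact div_le_div₀ z.im_pos.le h3 (Real.exp_pos _) he

theorem exists_scale {A : Set ℍ} {h : ℕ} {n : ℤ} {z x : ℍ} (hz : z ∈ piece h n)
    (hc : z ∈ cell A x) :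
    ∃ k : ℕ, A ∩ tRect k n = ∅ ∧ x ∈ bigBox (2 * h + k + 6) n := by
  classical
  have hex : ∃ k : ℕ, Real.cosh (dist z x) ≤ (2 : ℝ) ^ (h + k + 4) := by
    obtain ⟨k, hk⟩ := pow_unbounded_of_one_lt (Real.cosh (dist z x)) (show (1 : ℝ) < 2 by norm_num)
    refine ⟨k, hk.le.trans ?_⟩
    exact pow_le_pow_right₀ (by norm_num) (by omega)
  refine ⟨Nat.find hex, ?_, mem_bigBox_of_near hz (Nat.find_spec hex)⟩
  rcases Nat.eq_zero_or_pos (Nat.find hex) with h0 | h0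
  · rw [h0, tRect_zero, Set.inter_empty]
  · have h1 := Nat.find_min hex (Nat.sub_lt h0 one_pos)
    rw [not_le] at h1
    by_contra hcon
    obtain ⟨w, hwA, hw⟩ := Set.nonempty_iff_ne_empty.mpr hcon
    have h2 := cosh_dist_piece hz hw
    have h3 := (cosh_dist_le_iff z x z w).mpr (hc w hwA)
    have h4 : h + (Nat.find hex - 1) + 4 = h + Nat.find hex + 3 := by omega
    rw [h4] at h1
    linarith

/-- the counting variable -/
def cnt (h k : ℕ) (n : ℤ) (A : Set ℍ) : ℝ :=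
  vd A (tRect k n) * num A (bigBox (2 * h + k + 6) n \ tRect k n)

theorem cnt_nonneg (h k : ℕ) (n : ℤ) (A : Set ℍ) : 0 ≤ cnt h k n A :=
  mul_nonneg (vd_nonneg _ _) (num_nonneg _ _)

theorem meeting_finite {A : Set ℍ} (hA : LocFin A) (hne : A.Nonempty) {V : Set ℍ} {R : ℝ}
    (hV : V ⊆ Metric.closedBall I R) : (meeting A V).Finite := by
  obtain ⟨x0, hx0⟩ := hne
  have hfin := hA I (R + (R + dist (I : ℍ) x0))
  refine Set.Finite.of_finite_image (hfin.subset ?_) Subtype.val_injective.injOn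
  rintro _ ⟨x, ⟨z, hzV, hz⟩, rfl⟩
  refine ⟨x.2, ?_⟩
  have h1 := Metric.mem_closedBall.mp (hV hzV)
  have h2 := hz x0 hx0
  have h3 := dist_triangle (x : ℍ) z I
  have h4 := dist_triangle z I x0
  rw [Metric.mem_closedBall]
  rw [dist_comm (x : ℍ) z] at h3
  linarith

theorem ncard_meeting_le {A : Set ℍ} (hA : LocFin A) {V : Set ℍ} (hfin : (meeting A V).Finite)
    (h : ℕ) (N : Finset ℤ) (hV : ∀ z ∈ V, ∃ n ∈ N, z ∈ piece h n) :
    ∃ K : ℕ, ((meeting A V).ncard : ℝ) ≤ ∑ k ∈ Finset.range K, ∑ n ∈ N, cnt h k n A := by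
  classical
  have hex : ∀ x : A, x ∈ meeting A V → ∃ p : ℕ × ℤ, p.2 ∈ N ∧ A ∩ tRect p.1 p.2 = ∅ ∧
      (x : ℍ) ∈ bigBox (2 * h + p.1 + 6) p.2 := by
    rintro x ⟨z, hzV, hz⟩
    obtain ⟨n, hn, hzn⟩ := hV z hzV
    obtain ⟨k, hk⟩ := exists_scale hzn hz
    exact ⟨(k, n), hn, hk⟩
  choose! f hf using hex
  set F := hfin.toFinset with hF
  obtain ⟨K, hK⟩ : ∃ K : ℕ, ∀ x ∈ F, (f x).1 < K := by
    refine ⟨F.sup (fun x => (f x).1) + 1, fun x hx => ?_⟩
    exact Nat.lt_succ_of_le (Finset.le_sup (f := fun x => (f x).1) hx)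
  refine ⟨K, ?_⟩
  have hcard : (meeting A V).ncard = F.card := Set.ncard_eq_toFinset_card _ hfin
  rw [hcard]
  set G : ℕ → ℤ → Finset A := fun k n =>
    F.filter (fun x => A ∩ tRect k n = ∅ ∧ (x : ℍ) ∈ bigBox (2 * h + k + 6) n) with hG
  have hsub : F ⊆ (Finset.range K).biUnion fun k => N.biUnion fun n => G k n := by
    intro x hx
    have hx' : x ∈ meeting A V := hfin.mem_toFinset.mp hx
    obtain ⟨h1, h2, h3⟩ := hf x hx'
    rw [Finset.mem_biUnion]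
    refine ⟨(f x).1, Finset.mem_range.mpr (hK x hx), ?_⟩
    rw [Finset.mem_biUnion]
    exact ⟨(f x).2, h1, Finset.mem_filter.mpr ⟨hx, h2, h3⟩⟩
  have h1 : F.card ≤ ∑ k ∈ Finset.range K, ∑ n ∈ N, (G k n).card := by
    refine (Finset.card_le_card hsub).trans (Finset.card_biUnion_le.trans ?_)
    exact Finset.sum_le_sum fun k _ => Finset.card_biUnion_le
  have h2 : (F.card : ℝ) ≤ ∑ k ∈ Finset.range K, ∑ n ∈ N, ((G k n).card : ℝ) := by
    exact_mod_cast h1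
  refine h2.trans (Finset.sum_le_sum fun k _ => Finset.sum_le_sum fun n _ => ?_)
  by_cases hv : A ∩ tRect k n = ∅
  · rw [cnt, vd_eq_one hv, one_mul, num]
    have hfin2 : (A ∩ (bigBox (2 * h + k + 6) n \ tRect k n)).Finite :=
      (hA.box (2 * h + k + 6) n).subset (Set.inter_subset_inter_right _ Set.sdiff_subset)
    have h3 : (G k n).card ≤ (A ∩ (bigBox (2 * h + k + 6) n \ tRect k n)).ncard := by
      rw [Set.ncard_eq_toFinset_card _ hfin2]
      rw [← Finset.card_image_of_injective (G k n) Subtype.val_injective]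
      refine Finset.card_le_card ?_
      intro y hy
      rw [Finset.mem_image] at hy
      obtain ⟨x, hx, rfl⟩ := hy
      rw [Finset.mem_filter] at hx
      rw [Set.Finite.mem_toFinset]
      refine ⟨x.2, hx.2.2, fun hT => ?_⟩
      have : (x : ℍ) ∈ A ∩ tRect k n := ⟨x.2, hT⟩
      rw [hv] at this
      exact this
    exact_mod_cast h3
  · have : G k n = ∅ := by
      rw [hG]
      refine Finset.filter_eq_empty_iff.mpr fun x _ hx => hv hx.1
    rw [this, Finset.card_empty, Nat.cast_zero]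
    exact cnt_nonneg _ _ _ _

/-! ### Moments -/

variable {Ω : Type*} [MeasurableSpace Ω] {P : Measure Ω} [IsProbabilityMeasure P] {lam : ℝ}
  {Q : Ω → Set ℍ}

theorem exp_decay {lam : ℝ} (hlam : 0 < lam) (p : ℕ) :
    ∃ C : ℝ, 0 < C ∧ ∀ k : ℕ, Real.exp (-(lam * ((2 : ℝ) ^ k - 1))) ≤ C / 2 ^ (p * k) := by
  refine ⟨Real.exp lam * (p.factorial : ℝ) / lam ^ p, by positivity, fun k => ?_⟩
  have h1 := Real.pow_div_factorial_le_exp (x := lam * 2 ^ k) (by positivity) p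
  have h2 : Real.exp (-(lam * ((2 : ℝ) ^ k - 1))) = Real.exp lam / Real.exp (lam * 2 ^ k) := by
    rw [← Real.exp_sub]
    congr 1
    ring
  rw [h2, div_le_div_iff₀ (Real.exp_pos _) (by positivity)]
  have h3 : (lam * 2 ^ k) ^ p / (p.factorial : ℝ) = lam ^ p * 2 ^ (p * k) / (p.factorial : ℝ) := by
    rw [mul_pow, ← pow_mul, mul_comm k p]
  rw [h3] at h1
  have h4 : (2 : ℝ) ^ (p * k) ≤ (p.factorial : ℝ) / lam ^ p * Real.exp (lam * 2 ^ k) := by
    rw [div_le_iff₀ (by positivity)] at h1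
    rw [div_mul_eq_mul_div, le_div_iff₀ (by positivity)]
    linarith
  calc Real.exp lam * 2 ^ (p * k) ≤
        Real.exp lam * ((p.factorial : ℝ) / lam ^ p * Real.exp (lam * 2 ^ k)) :=
      mul_le_mul_of_nonneg_left h4 (Real.exp_pos _).le
    _ = Real.exp lam * (p.factorial : ℝ) / lam ^ p * Real.exp (lam * 2 ^ k) := by ring

theorem vol_sdiff_le (h k : ℕ) (n : ℤ) :
    (volume (bigBox (2 * h + k + 6) n \ tRect k n)).toReal ≤ 2 ^ (4 * h + 13) * 4 ^ k := by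
  have h1 : volume (bigBox (2 * h + k + 6) n \ tRect k n) ≤
      ENNReal.ofReal ((2 : ℝ) ^ (2 * (2 * h + k + 6) + 1)) :=
    (measure_mono Set.sdiff_subset).trans (volume_bigBox_le _ _)
  refine (ENNReal.toReal_mono ENNReal.ofReal_ne_top h1).trans ?_
  rw [ENNReal.toReal_ofReal (by positivity)]
  apply le_of_eq
  rw [show (4 : ℝ) = 2 ^ 2 by norm_num, ← pow_mul, ← pow_add]
  congr 1
  ring

theorem memLp_cnt (hQ : IsPoissonProcess P lam Q) (hlam : 0 ≤ lam) (h k : ℕ) (n : ℤ) :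
    MemLp (fun ω => cnt h k n (Q ω)) 2 P :=
  hQ.memLp_vd_num hlam (measurableSet_tRect k n)
    ((measurableSet_bigBox _ n).diff (measurableSet_tRect k n))
    (ne_top_of_le_ne_top (volume_bigBox_ne_top _ n) (measure_mono Set.sdiff_subset))

theorem integral_cnt_le (hQ : IsPoissonProcess P lam Q) (hlam : 0 ≤ lam) (h k : ℕ) (n : ℤ) :
    ∫ ω, cnt h k n (Q ω) ∂P ≤
      Real.exp (-(lam * ((2 : ℝ) ^ k - 1))) * (lam * (2 ^ (4 * h + 13) * 4 ^ k)) := by
  have h1 := hQ.integral_vd_num hlam (measurableSet_tRect k n)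
    ((measurableSet_bigBox (2 * h + k + 6) n).diff (measurableSet_tRect k n))
    (by rw [volume_tRect]; exact ENNReal.ofReal_ne_top)
    (ne_top_of_le_ne_top (volume_bigBox_ne_top _ n) (measure_mono Set.sdiff_subset))
    Set.disjoint_sdiff_right
  have h2 : (1 : ℝ) ≤ 2 ^ k := one_le_pow₀ (by norm_num)
  rw [volume_tRect, ENNReal.toReal_ofReal (by linarith)] at h1
  refine h1.le.trans ?_
  have h3 := vol_sdiff_le h k n
  exact mul_le_mul_of_nonneg_left (mul_le_mul_of_nonneg_left h3 hlam) (Real.exp_pos _).le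

theorem integral_cnt_sq_le (hQ : IsPoissonProcess P lam Q) (hlam : 0 ≤ lam) (h k : ℕ) (n : ℤ) :
    ∫ ω, cnt h k n (Q ω) ^ 2 ∂P ≤
      Real.exp (-(lam * ((2 : ℝ) ^ k - 1))) *
        ((lam * (2 ^ (4 * h + 13) * 4 ^ k)) ^ 2 + lam * (2 ^ (4 * h + 13) * 4 ^ k)) := by
  have h1 := hQ.integral_vd_num_sq hlam (measurableSet_tRect k n)
    ((measurableSet_bigBox (2 * h + k + 6) n).diff (measurableSet_tRect k n))
    (by rw [volume_tRect]; exact ENNReal.ofReal_ne_top)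
    (ne_top_of_le_ne_top (volume_bigBox_ne_top _ n) (measure_mono Set.sdiff_subset))
    Set.disjoint_sdiff_right
  have h2 : (1 : ℝ) ≤ 2 ^ k := one_le_pow₀ (by norm_num)
  rw [volume_tRect, ENNReal.toReal_ofReal (by linarith)] at h1
  refine h1.le.trans ?_
  have h3 := mul_le_mul_of_nonneg_left (vol_sdiff_le h k n) hlam
  have h4 : 0 ≤ lam * (volume (bigBox (2 * h + k + 6) n \ tRect k n)).toReal := by positivity
  have h5 := pow_le_pow_left₀ h4 h3 2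
  exact mul_le_mul_of_nonneg_left (add_le_add h5 h3) (Real.exp_pos _).le

theorem disjoint_bigBox {g : ℕ} {n n' : ℤ} (h : ((2 * g : ℕ) : ℤ) ≤ |n - n'|) :
    Disjoint (bigBox g n) (bigBox g n') := by
  have key : ∀ {a b : ℤ}, ((2 * g : ℕ) : ℤ) ≤ b - a → Disjoint (bigBox g a) (bigBox g b) := by
    intro a b hab
    rw [Set.disjoint_left]
    rintro z ⟨_, _, h1⟩ ⟨_, h2, _⟩
    have h3 : (2 : ℝ) ^ (a + g) ≤ (2 : ℝ) ^ (b - g) :=
      zpow_le_zpow_right₀ (by norm_num) (by push_cast at hab; linarith)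
    linarith
  rcases le_abs.mp h with h1 | h1
  · exact (key h1).symm
  · exact key (by linarith)

theorem cov_cnt (hQ : IsPoissonProcess P lam Q) (hlam : 0 ≤ lam) (h k : ℕ) (n n' : ℤ)
    (hnn : ((2 * (2 * h + k + 6) : ℕ) : ℤ) ≤ |n - n'|) :
    covariance (fun ω => cnt h k n (Q ω)) (fun ω => cnt h k n' (Q ω)) P = 0 := by
  have hsubT : ∀ m : ℤ, tRect k m ∪ (bigBox (2 * h + k + 6) m \ tRect k m) ⊆
      bigBox (2 * h + k + 6) m := by
    intro m
    rw [Set.union_sdiff_self]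
    refine Set.union_subset ?_ le_rfl
    rintro z ⟨⟨h1, h2⟩, h3, h4⟩
    have e0 : (0 : ℝ) < (2 : ℝ) ^ m := by positivity
    have e1 : (2 : ℝ) ^ m ≤ (2 : ℝ) ^ (m + ((2 * h + k + 6 : ℕ) : ℤ)) :=
      zpow_le_zpow_right₀ (by norm_num) (by omega)
    have e2 : (2 : ℝ) ^ (m - ((2 * h + k + 6 : ℕ) : ℤ)) ≤ (2 : ℝ) ^ (m - k) :=
      zpow_le_zpow_right₀ (by norm_num) (by push_cast; omega)
    exact ⟨⟨by linarith, by linarith⟩, by linarith, by linarith⟩
  exact hQ.cov_vd_num hlam (measurableSet_tRect k n)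
    ((measurableSet_bigBox _ n).diff (measurableSet_tRect k n)) (measurableSet_tRect k n')
    ((measurableSet_bigBox _ n').diff (measurableSet_tRect k n'))
    (ne_top_of_le_ne_top (volume_bigBox_ne_top _ n) (measure_mono Set.sdiff_subset))
    (ne_top_of_le_ne_top (volume_bigBox_ne_top _ n') (measure_mono Set.sdiff_subset))
    Set.disjoint_sdiff_right Set.disjoint_sdiff_right
    ((disjoint_bigBox hnn).mono (hsubT n) (hsubT n'))

end

end Pool.Agent.Y979.HV
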