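import Pool.Agent.Y979.HV.Events

/-!
# Every cell is small: the covering event
-/

set_option autoImplicit false

open UpperHalfPlane Real MeasureTheory ProbabilityTheory
open scoped ENNReal

namespace Pool.Agent.Y979.HV

noncomputable section

/-- the sign attached to a side of the axis -/
def sg (σ : Bool) : ℝ := if σ then 1 else -1

theorem abs_sg_mul (σ : Bool) (x : ℝ) : |sg σ * x| = |x| := by
  unfold sg
  cases σ <;> simp

theorem exists_sg (x : ℝ) : ∃ σ : Bool, sg σ * x = |x| := by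
  rcases le_total 0 x with h | h
  · exact ⟨true, by simp [sg, abs_of_nonneg h]⟩
  · exact ⟨false, by simp [sg, abs_of_nonpos h]⟩

theorem measurableSet_side (σ : Bool) (a b : ℝ) : MeasurableSet {x : ℝ | sg σ * x ∈ Set.Ico a b} :=
  (measurable_const_mul (sg σ)) measurableSet_Ico

theorem volume_side (σ : Bool) (a b : ℝ) :
    volume {x : ℝ | sg σ * x ∈ Set.Ico a b} = ENNReal.ofReal (b - a) := by
  cases σ
  · have : {x : ℝ | sg false * x ∈ Set.Ico a b} = Set.Ioc (-b) (-a) := by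
      ext x
      simp only [sg, Set.mem_ofPred_eq, Set.mem_Ico, Set.mem_Ioc, Bool.false_eq_true, if_false]
      constructor <;> intro h <;> constructor <;> linarith [h.1, h.2]
    rw [this, Real.volume_Ioc]
    congr 1
    ring
  · have : {x : ℝ | sg true * x ∈ Set.Ico a b} = Set.Ico a b := by
      ext x
      simp [sg]
    rw [this, Real.volume_Ico]

/-- the test rectangle below the Whitney cell with index `(q, p)` on the side `σ` -/
def tSide (σ : Bool) (q : ℤ) (p : ℕ) (θ : ℝ) : Set ℍ :=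
  box {x : ℝ | sg σ * x ∈ Set.Ico ((p : ℝ) * (2 : ℝ) ^ q) (((p : ℝ) + 1) * (2 : ℝ) ^ q)}
    ((2 : ℝ) ^ q / θ) ((2 : ℝ) ^ q)

theorem measurableSet_tSide (σ : Bool) (q : ℤ) (p : ℕ) (θ : ℝ) :
    MeasurableSet (tSide σ q p θ) := measurableSet_box (measurableSet_side _ _ _) _ _

theorem volume_tSide (σ : Bool) (q : ℤ) (p : ℕ) {θ : ℝ} (hθ : 1 ≤ θ) :
    volume (tSide σ q p θ) = ENNReal.ofReal (θ - 1) := by
  have h0 : (0 : ℝ) < (2 : ℝ) ^ q := by positivity
  have hθ0 : 0 < θ := by linarith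
  have h1 : (2 : ℝ) ^ q / θ ≤ (2 : ℝ) ^ q := div_le_self h0.le hθ
  unfold tSide
  rw [volume_box (measurableSet_side _ _ _) (by positivity) h1, volume_side,
    ← ENNReal.ofReal_mul (by nlinarith)]
  congr 1
  field_simp
  ring

theorem cosh_dist_tSide {z w : ℍ} {σ : Bool} {q : ℤ} {p : ℕ} {θ : ℝ} (hθ : 1 ≤ θ)
    (h1 : (2 : ℝ) ^ q ≤ z.im) (h2 : z.im < (2 : ℝ) ^ (q + 1))
    (h3 : (p : ℝ) * (2 : ℝ) ^ q ≤ sg σ * z.re) (h4 : sg σ * z.re ≤ ((p : ℝ) + 1) * (2 : ℝ) ^ q)
    (hw : w ∈ tSide σ q p θ) : Real.cosh (dist z w) ≤ 3 * θ := by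
  obtain ⟨⟨h5, h6⟩, h7, h8⟩ := hw
  refine cosh_dist_rect hθ h1 h2 ?_ h7 h8
  rw [← abs_sg_mul σ, mul_sub, abs_le]
  constructor <;> linarith

theorem exists_whitney (z : ℍ) : ∃ (σ : Bool) (q : ℤ) (p : ℕ), (2 : ℝ) ^ q ≤ z.im ∧
    z.im < (2 : ℝ) ^ (q + 1) ∧ (p : ℝ) * (2 : ℝ) ^ q ≤ sg σ * z.re ∧
    sg σ * z.re ≤ ((p : ℝ) + 1) * (2 : ℝ) ^ q := by
  obtain ⟨σ, hσ⟩ := exists_sg z.re
  have h1 := Int.zpow_log_le_self (b := 2) (by norm_num) z.im_pos
  have h2 := Int.lt_zpow_succ_log_self (b := 2) (by norm_num) z.im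
  push_cast at h1 h2
  have h0 : (0 : ℝ) < (2 : ℝ) ^ (Int.log 2 z.im) := by positivity
  refine ⟨σ, Int.log 2 z.im, ⌊|z.re| / (2 : ℝ) ^ (Int.log 2 z.im)⌋₊, h1, h2, ?_, ?_⟩
  · rw [hσ, ← le_div_iff₀ h0]
    exact Nat.floor_le (by positivity)
  · rw [hσ, ← div_le_iff₀ h0]
    exact (Nat.lt_floor_add_one _).le

/-- the size of the Whitney index is controlled by the distance to the base point -/
theorem index_le {z : ℍ} {σ : Bool} {q : ℤ} {p : ℕ} (h1 : (2 : ℝ) ^ q ≤ z.im)
    (h2 : z.im < (2 : ℝ) ^ (q + 1)) (h3 : (p : ℝ) * (2 : ℝ) ^ q ≤ sg σ * z.re) :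
    1 + |(q : ℝ)| + Real.log ((p : ℝ) + 1) ≤ 4 * (1 + dist (I : ℍ) z) := by
  set d := dist (I : ℍ) z with hd
  have hd0 : 0 ≤ d := dist_nonneg
  have hz := z.im_pos
  have hlog2 : 1 / 2 < Real.log 2 := by
    have := Real.log_two_gt_d9
    linarith
  have himl : |Real.log z.im| ≤ d := by
    have h := UpperHalfPlane.dist_log_im_le (I : ℍ) z
    rw [UpperHalfPlane.I_im, Real.log_one, Real.dist_eq, zero_sub, abs_neg] at h
    exact h
  have hA : |(q : ℝ)| ≤ 2 * d + 1 := by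
    have a1 : (q : ℝ) * Real.log 2 ≤ Real.log z.im := by
      rw [← Real.log_zpow]
      exact Real.log_le_log (by positivity) h1
    have a2 : Real.log z.im ≤ ((q : ℝ) + 1) * Real.log 2 := by
      have : Real.log ((2 : ℝ) ^ (q + 1)) = ((q : ℝ) + 1) * Real.log 2 := by
        rw [Real.log_zpow]; push_cast; ring
      rw [← this]
      exact Real.log_le_log hz h2.le
    have a3 := (abs_le.mp himl).1
    have a4 := (abs_le.mp himl).2
    rw [abs_le]
    constructor
    · by_contra hcon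
      push Not at hcon
      have : ((q : ℝ) + 1) * Real.log 2 < -(2 * d) * Real.log 2 :=
        mul_lt_mul_of_pos_right (by linarith) (by linarith)
      nlinarith
    · by_contra hcon
      push Not at hcon
      have : (2 * d + 1) * Real.log 2 < (q : ℝ) * Real.log 2 :=
        mul_lt_mul_of_pos_right hcon (by linarith)
      nlinarith
  have hB : Real.log ((p : ℝ) + 1) ≤ 2 + 2 * d := by
    have b1 : ‖(z : ℂ)‖ ≤ Real.exp d := by
      have := norm_le_exp (I : ℍ) z
      have e1 : ‖((I : ℍ) : ℂ)‖ = 1 := by simp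
      rwa [e1, one_mul] at this
    have b2 : 1 / Real.exp d ≤ z.im := by
      have := im_ge_exp (I : ℍ) z
      rwa [UpperHalfPlane.I_im] at this
    have b3 : sg σ * z.re ≤ Real.exp d := by
      refine (le_abs_self _).trans ?_
      rw [abs_sg_mul]
      exact (abs_re_le_norm z).trans b1
    have hed := Real.exp_pos d
    have b4 : 1 / Real.exp d < 2 * (2 : ℝ) ^ q := by
      rw [zpow_add₀ (by norm_num), zpow_one] at h2
      linarith
    rw [div_lt_iff₀ hed] at b4
    have hp0 : (0 : ℝ) ≤ p := Nat.cast_nonneg p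
    have b5 : (p : ℝ) ≤ 2 * (Real.exp d * Real.exp d) := by
      have c1 : (p : ℝ) * (2 : ℝ) ^ q ≤ Real.exp d := h3.trans b3
      calc (p : ℝ) = p * 1 := (mul_one _).symm
        _ ≤ p * (2 * (2 : ℝ) ^ q * Real.exp d) := mul_le_mul_of_nonneg_left b4.le hp0
        _ = 2 * (((p : ℝ) * (2 : ℝ) ^ q) * Real.exp d) := by ring
        _ ≤ 2 * (Real.exp d * Real.exp d) := by
          have := mul_le_mul_of_nonneg_right c1 hed.le
          linarith
    have b6 : (1 : ℝ) ≤ Real.exp d * Real.exp d := by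
      have := Real.one_le_exp hd0
      nlinarith
    have b7 : (p : ℝ) + 1 ≤ Real.exp (2 + 2 * d) := by
      have c2 : Real.exp (2 + 2 * d) = Real.exp 2 * (Real.exp d * Real.exp d) := by
        rw [← Real.exp_add, ← Real.exp_add]; congr 1; ring
      have c3 : (3 : ℝ) ≤ Real.exp 2 := by
        have := Real.add_one_le_exp (2 : ℝ)
        linarith
      rw [c2]
      nlinarith
    calc Real.log ((p : ℝ) + 1) ≤ Real.log (Real.exp (2 + 2 * d)) :=
          Real.log_le_log (by linarith) b7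
      _ = 2 + 2 * d := Real.log_exp _
  linarith

/-- every point has a nucleus at controlled distance -/
def CoverOK (A : Set ℍ) (Λ : ℝ) : Prop :=
  ∀ z : ℍ, ∃ x ∈ A, Real.cosh (dist z x) ≤ Λ * (1 + dist (I : ℍ) z)

variable {Ω : Type*} [MeasurableSpace Ω] {P : Measure Ω} [IsProbabilityMeasure P] {lam : ℝ}
  {Q : Ω → Set ℍ}

theorem cover_event (hQ : IsPoissonProcess P lam Q) (hlam : 0 < lam) {ε : ℝ≥0∞} (hε : 0 < ε) :
    ∃ Λ : ℝ, 1 ≤ Λ ∧ P {ω | ¬ CoverOK (Q ω) Λ} ≤ ε := by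
  set F : ℝ≥0∞ := ∑' q : ℤ, ENNReal.ofReal (Real.exp (-|(q : ℝ)|)) with hF
  set G : ℝ≥0∞ := ∑' p : ℕ, ENNReal.ofReal (1 / ((p : ℝ) + 1) ^ 2) with hG
  have hFtop : F ≠ ⊤ := by
    have h1 : Summable fun n : ℕ => Real.exp (-|((n : ℤ) : ℝ)|) := by
      have : (fun n : ℕ => Real.exp (-|((n : ℤ) : ℝ)|)) = fun n : ℕ => (Real.exp (-1)) ^ n := by
        funext n
        rw [← Real.exp_nat_mul]
        congr 1
        push_cast
        rw [abs_of_nonneg (Nat.cast_nonneg n)]
        ring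
      rw [this]
      exact summable_geometric_of_lt_one (Real.exp_pos _).le (by
        rw [Real.exp_lt_one_iff]; norm_num)
    have h2 : Summable fun n : ℕ => Real.exp (-|((-(n : ℤ) : ℤ) : ℝ)|) := by
      have : (fun n : ℕ => Real.exp (-|((-(n : ℤ) : ℤ) : ℝ)|)) =
          fun n : ℕ => Real.exp (-|((n : ℤ) : ℝ)|) := by
        funext n
        push_cast
        rw [abs_neg]
      rw [this]
      exact h1
    have h3 : Summable fun q : ℤ => Real.exp (-|(q : ℝ)|) := Summable.of_nat_of_neg h1 h2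
    exact h3.tsum_ofReal_ne_top
  have hGtop : G ≠ ⊤ := by
    have h1 : Summable fun n : ℕ => 1 / ((n : ℕ) : ℝ) ^ 2 :=
      Real.summable_one_div_nat_pow.mpr one_lt_two
    have h2 := (summable_nat_add_iff 1).mpr h1
    have h3 : (fun n : ℕ => 1 / (((n + 1 : ℕ)) : ℝ) ^ 2) = fun n : ℕ => 1 / ((n : ℝ) + 1) ^ 2 := by
      funext n
      push_cast
      rfl
    rw [h3] at h2
    exact h2.tsum_ofReal_ne_top
  set θ : ℝ → ℤ → ℕ → ℝ := fun s q p => s * (1 + |(q : ℝ)| + Real.log ((p : ℝ) + 1)) with hθ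
  have hlogp : ∀ p : ℕ, 0 ≤ Real.log ((p : ℝ) + 1) := fun p =>
    Real.log_nonneg (by have : (0 : ℝ) ≤ p := Nat.cast_nonneg p; linarith)
  have hθ1 : ∀ s : ℝ, 1 ≤ s → ∀ q p, 1 ≤ θ s q p := by
    intro s hs q p
    have h1 := hlogp p
    have h2 := abs_nonneg (q : ℝ)
    show 1 ≤ s * (1 + |(q : ℝ)| + Real.log ((p : ℝ) + 1))
    nlinarith
  have key : ∀ s : ℝ, 1 ≤ s → 2 ≤ lam * s → P {ω | ¬ CoverOK (Q ω) (12 * s)} ≤
      2 * (ENNReal.ofReal (Real.exp (lam - lam * s)) * (F * G)) := by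
    intro s hs hls
    have hsub : {ω | ¬ CoverOK (Q ω) (12 * s)} ⊆
        (⋃ q : ℤ, ⋃ p : ℕ, {ω | Q ω ∩ tSide true q p (θ s q p) = ∅}) ∪
        (⋃ q : ℤ, ⋃ p : ℕ, {ω | Q ω ∩ tSide false q p (θ s q p) = ∅}) := by
      intro ω hω
      by_contra hcon
      apply hω
      intro z
      obtain ⟨σ, q, p, h1, h2, h3, h4⟩ := exists_whitney z
      have hne : (Q ω ∩ tSide σ q p (θ s q p)).Nonempty := by
        rw [Set.nonempty_iff_ne_empty]
        intro he
        apply hcon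
        cases σ
        · exact Or.inr (Set.mem_iUnion₂.mpr ⟨q, p, he⟩)
        · exact Or.inl (Set.mem_iUnion₂.mpr ⟨q, p, he⟩)
      obtain ⟨x, hxQ, hx⟩ := hne
      refine ⟨x, hxQ, ?_⟩
      have h5 := cosh_dist_tSide (hθ1 s hs q p) h1 h2 h3 h4 hx
      have h6 := index_le h1 h2 h3
      have h7 : θ s q p ≤ s * (4 * (1 + dist (I : ℍ) z)) :=
        mul_le_mul_of_nonneg_left h6 (by linarith)
      linarith
    have hpart : ∀ σ : Bool, P (⋃ q : ℤ, ⋃ p : ℕ, {ω | Q ω ∩ tSide σ q p (θ s q p) = ∅}) ≤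
        ENNReal.ofReal (Real.exp (lam - lam * s)) * (F * G) := by
      intro σ
      refine (measure_iUnion_le _).trans ?_
      rw [hF, ← ENNReal.tsum_mul_right, ← ENNReal.tsum_mul_left]
      refine ENNReal.tsum_le_tsum fun q => (measure_iUnion_le _).trans ?_
      rw [hG, ← ENNReal.tsum_mul_left, ← ENNReal.tsum_mul_left]
      refine ENNReal.tsum_le_tsum fun p => ?_
      have hth := hθ1 s hs q p
      rw [hQ.void_prob (measurableSet_tSide _ _ _ _)
        (by rw [volume_tSide σ q p hth]; exact ENNReal.ofReal_ne_top), volume_tSide σ q p hth,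
        ENNReal.toReal_ofReal (by linarith), ← ENNReal.ofReal_mul (Real.exp_pos _).le,
        ← ENNReal.ofReal_mul (Real.exp_pos _).le]
      apply ENNReal.ofReal_le_ofReal
      have e1 : (1 : ℝ) / ((p : ℝ) + 1) ^ 2 = Real.exp (-(2 * Real.log ((p : ℝ) + 1))) := by
        have hp : (0 : ℝ) < (p : ℝ) + 1 := by positivity
        rw [Real.exp_neg, two_mul, Real.exp_add, Real.exp_log hp, one_div, sq]
      rw [e1, ← Real.exp_add, ← Real.exp_add]
      apply Real.exp_le_exp.mpr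
      have h1 := hlogp p
      have h2 := abs_nonneg (q : ℝ)
      show -(lam * (s * (1 + |(q : ℝ)| + Real.log ((p : ℝ) + 1)) - 1)) ≤ _
      nlinarith [mul_nonneg (show 0 ≤ lam * s - 2 by linarith) h1,
        mul_nonneg (show 0 ≤ lam * s - 2 by linarith) h2]
    refine (measure_mono hsub).trans ((measure_union_le _ _).trans ?_)
    rw [two_mul]
    exact add_le_add (hpart true) (hpart false)
  have hlim : Filter.Tendsto (fun s : ℝ => 2 * (ENNReal.ofReal (Real.exp (lam - lam * s)) * (F * G)))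
      Filter.atTop (nhds 0) := by
    have h1 : Filter.Tendsto (fun s : ℝ => Real.exp (lam - lam * s)) Filter.atTop (nhds 0) := by
      have h2 : Filter.Tendsto (fun s : ℝ => lam - lam * s) Filter.atTop Filter.atBot := by
        have h3 : Filter.Tendsto (fun s : ℝ => lam * s) Filter.atTop Filter.atTop :=
          Filter.tendsto_id.const_mul_atTop hlam
        have h4 := Filter.tendsto_atBot_add_const_left Filter.atTop lam
          (Filter.tendsto_neg_atTop_atBot.comp h3)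
        exact h4.congr fun s => by simp [sub_eq_add_neg]
      exact Real.tendsto_exp_atBot.comp h2
    have h3 := ENNReal.tendsto_ofReal h1
    rw [ENNReal.ofReal_zero] at h3
    have h4 := ENNReal.Tendsto.mul_const (b := F * G) h3
      (Or.inr (ENNReal.mul_ne_top hFtop hGtop))
    have h5 := ENNReal.Tendsto.const_mul (a := 2) h4 (Or.inr ENNReal.ofNat_ne_top)
    rwa [zero_mul, mul_zero] at h5
  obtain ⟨s, hs1, hs2, hs3⟩ := (((tendsto_order.mp hlim).2 ε hε).and
    ((Filter.eventually_ge_atTop (1 : ℝ)).and (Filter.eventually_ge_atTop (2 / lam)))).exists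
  refine ⟨12 * s, by linarith, (key s hs2 ?_).trans hs1.le⟩
  rw [div_le_iff₀ hlam] at hs3
  linarith

end

end Pool.Agent.Y979.HV
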