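import Mathlib

/-!
# The hyperbolic Poisson-Voronoi graph: definitions

The hyperbolic plane is Mathlib's upper half plane `ℍ` with its metric (curvature `-1`) and its
measure `dx dy / y ^ 2`.
-/

set_option autoImplicit false

open MeasureTheory UpperHalfPlane

namespace Pool.Agent.Y979.HV

/-- `Q` is a homogeneous Poisson point process of intensity `lam` on the hyperbolic plane: the
number of points in a Borel set `B` is a random variable, it has the Poisson law with mean
`lam * volume B` when `B` has finite area, and the numbers of points in pairwise disjoint Borel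
sets are independent. -/
structure IsPoissonProcess {Ω : Type*} [MeasurableSpace Ω] (P : Measure Ω) (lam : ℝ)
    (Q : Ω → Set ℍ) : Prop where
  measurable_count : ∀ B : Set ℍ, MeasurableSet B → Measurable (fun ω => (Q ω ∩ B).encard)
  law_count : ∀ B : Set ℍ, MeasurableSet B → volume B ≠ ⊤ → ∀ k : ℕ,
    P {ω | (Q ω ∩ B).encard = (k : ℕ∞)} =
      ENNReal.ofReal (Real.exp (-(lam * (volume B).toReal)) * (lam * (volume B).toReal) ^ k /
        (k.factorial : ℝ))
  indep_count : ∀ (m : ℕ) (B : Fin m → Set ℍ), (∀ i, MeasurableSet (B i)) →
    Pairwise (fun i j => Disjoint (B i) (B j)) →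
    ProbabilityTheory.iIndepFun (fun i ω => (Q ω ∩ B i).encard) P

/-- the Voronoi cell of `x` for the point set `A` -/
def cell (A : Set ℍ) (x : ℍ) : Set ℍ := {z | ∀ y ∈ A, dist z x ≤ dist z y}

/-- The dual graph of the Voronoi tessellation of the point set `A`. The vertices are the points
of `A` (which stand for their cells). Two of them are adjacent when their cells share a geodesic
segment of positive length. -/
def voronoiGraph (A : Set ℍ) : SimpleGraph A where
  Adj x y := x ≠ y ∧ ∃ z w : ℍ, z ≠ w ∧
    ∀ u : ℍ, dist z u + dist u w = dist z w → u ∈ cell A x ∩ cell A y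
  symm := ⟨fun _ _ ⟨h, z, w, hzw, hu⟩ => ⟨h.symm, z, w, hzw, fun u hu' => (hu u hu').symm⟩⟩
  loopless := ⟨fun _ h => h.1 rfl⟩

/-- The point with coordinate `t` on the geodesic given by the imaginary axis. -/
noncomputable def axisPt (t : ℝ) : ℍ := ⟨⟨0, Real.exp t⟩, Real.exp_pos t⟩

/-- The point of the upper half plane corresponding to the point `r`, `-1 < r < 1`, of the
Poincare disc under a Cayley transform, which is an isometry: it is `i (1 + r) / (1 - r)`. -/
noncomputable def discPt (r : ℝ) : ℍ := axisPt (Real.log ((1 + r) / (1 - r)))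

/-- The distance `D_r`: the supremum over all nuclei `x`, `y`, `c` of cells that contain the points
`-r`, `r` and `0` of the disc and over all geodesics from `x` to `y` in the Voronoi graph of the
graph distance from the geodesic to `c`. -/
noncomputable def deviation (A : Set ℍ) (r : ℝ) : ℕ∞ :=
  ⨆ (x : A) (y : A) (c : A) (_ : discPt (-r) ∈ cell A x) (_ : discPt r ∈ cell A y)
    (_ : discPt 0 ∈ cell A c) (p : (voronoiGraph A).Walk x y)
    (_ : p.length = (voronoiGraph A).dist x y),
    ⨅ v ∈ p.support, (voronoiGraph A).edist v c

end Pool.Agent.Y979.HV
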