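import Pool.Agent.Y979.HV.Count

/-!
# The number of cells that meet sectors around the axis
-/

set_option autoImplicit false

open UpperHalfPlane Real MeasureTheory ProbabilityTheory
open scoped ENNReal

namespace Pool.Agent.Y979.HV

noncomputable section

theorem norm_le_re_add_im (z : ℍ) : ‖(z : ℂ)‖ ≤ |z.re| + z.im := by
  have h := norm_sq_eq z
  have h1 := z.im_pos
  have h2 := norm_pos' z
  have h3 := abs_nonneg z.re
  have h4 : z.re ^ 2 = |z.re| ^ 2 := (sq_abs _).symm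
  nlinarith

theorem kp_lt_of_reg {z : ℍ} {t : ℝ} (h : |z.re| < t * z.im) : kp z < t + 1 := by
  rw [kp, div_lt_iff₀ z.im_pos]
  have := norm_le_re_add_im z
  linarith

theorem reg_subset_closedBall {a b t : ℝ} (ha : 0 < a) :
    ∃ R : ℝ, reg a b t ⊆ Metric.closedBall I R := by
  refine ⟨Real.log (2 * ((t + 1) * Real.cosh (max |Real.log a| |Real.log b|))), ?_⟩
  rintro z ⟨h1, h2, h3⟩
  rw [Metric.mem_closedBall, dist_comm]
  apply dist_I_le
  rw [dist_I_eq]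
  have hk := (kp_lt_of_reg h3).le
  have hk0 := kp_pos z
  refine mul_le_mul hk ?_ (Real.cosh_pos _).le (by linarith)
  rw [Real.cosh_le_cosh, abs_of_nonneg (le_max_of_le_left (abs_nonneg (Real.log a)))]
  have hz := norm_pos' z
  have h4 : Real.log a ≤ sc z := Real.log_le_log ha h1.le
  have h5 : sc z ≤ Real.log b := Real.log_le_log hz h2.le
  rw [abs_le]
  constructor
  · have := neg_abs_le (Real.log a)
    have := le_max_left |Real.log a| |Real.log b|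
    linarith
  · have := le_abs_self (Real.log b)
    have := le_max_right |Real.log a| |Real.log b|
    linarith

theorem piece_of_reg {a b t : ℝ} {h : ℕ} (hth : t + 1 ≤ (2 : ℝ) ^ h) {z : ℍ}
    (hz : z ∈ reg a b t) : z ∈ piece h (Int.log 2 ‖(z : ℂ)‖) := by
  obtain ⟨_, _, h3⟩ := hz
  have hzn := norm_pos' z
  have hk := kp_lt_of_reg h3
  have h1 := Int.zpow_log_le_self (b := 2) (by norm_num) hzn
  have h2 := Int.lt_zpow_succ_log_self (b := 2) (by norm_num) ‖(z : ℂ)‖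
  push_cast at h1 h2
  refine ⟨h1, h2, ?_⟩
  rw [zpow_sub₀ (by norm_num), zpow_natCast, div_le_iff₀ (by positivity)]
  refine h1.trans ?_
  rw [kp, div_lt_iff₀ z.im_pos] at hk
  have := mul_le_mul_of_nonneg_right hth z.im_pos.le
  linarith

theorem log_range {z : ℍ} {M₁ M₂ : ℤ} (h1 : (2 : ℝ) ^ M₁ < ‖(z : ℂ)‖)
    (h2 : ‖(z : ℂ)‖ < (2 : ℝ) ^ M₂) : M₁ ≤ Int.log 2 ‖(z : ℂ)‖ ∧ Int.log 2 ‖(z : ℂ)‖ < M₂ := by
  have hzn := norm_pos' z
  have h3 := Int.zpow_log_le_self (b := 2) (by norm_num) hzn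
  have h4 := Int.lt_zpow_succ_log_self (b := 2) (by norm_num) ‖(z : ℂ)‖
  push_cast at h3 h4
  constructor
  · have := (zpow_lt_zpow_iff_right₀ (by norm_num : (1 : ℝ) < 2)).mp (h1.trans h4)
    omega
  · exact (zpow_lt_zpow_iff_right₀ (by norm_num : (1 : ℝ) < 2)).mp (h3.trans_lt h2)

/-- the number of cells meeting the axis between heights `2 ^ (-m)` and `2 ^ m` is linear -/
def StripOK (A : Set ℍ) (C : ℝ) (m₀ : ℕ) : Prop :=
  ∀ m : ℕ, m₀ ≤ m → ((meeting A (reg ((2 : ℝ) ^ (-(m : ℤ))) ((2 : ℝ) ^ (m : ℤ)) 1)).ncard : ℝ) ≤ C * m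

/-- the number of cells meeting a fixed neighbourhood of an axis point grows slowly -/
def LowOK (A : Set ℍ) (h m₀ : ℕ) : Prop :=
  ∀ m : ℕ, m₀ ≤ m → ∀ n : ℤ, |n| ≤ m →
    ((meeting A (reg ((2 : ℝ) ^ (n - 1)) ((2 : ℝ) ^ (n + 1)) (2 ^ h))).ncard : ℝ) ≤ m

variable {Ω : Type*} [MeasurableSpace Ω] {P : Measure Ω} [IsProbabilityMeasure P] {lam : ℝ}
  {Q : Ω → Set ℍ}

theorem summable_aux {lam : ℝ} (hlam : 0 < lam) (h : ℕ) {c C1 : ℝ} (hc : 0 < c) (hC1 : 0 < C1) :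
    Summable fun k : ℕ => ((2 * (2 * h + k + 6) : ℕ) : ℝ) *
      (Real.exp (-(lam * ((2 : ℝ) ^ k - 1))) * ((lam * (c * 4 ^ k)) ^ 2 + lam * (c * 4 ^ k))) /
        (C1 * (1 / 2) ^ k) ^ 2 := by
  obtain ⟨C8, hC8, hE⟩ := exp_decay hlam 8
  set M : ℝ := (lam * c) ^ 2 + lam * c with hM
  have hM0 : 0 < M := by positivity
  have hgeo : Summable fun k : ℕ => ((4 * h + 14 : ℕ) : ℝ) * C8 * M / C1 ^ 2 * (1 / 2 : ℝ) ^ k :=
    (summable_geometric_of_lt_one (by norm_num) (by norm_num)).mul_left _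
  refine Summable.of_nonneg_of_le (fun k => by positivity) (fun k => ?_) hgeo
  have e1 : ((2 * (2 * h + k + 6) : ℕ) : ℝ) ≤ ((4 * h + 14 : ℕ) : ℝ) * 2 ^ k := by
    have a1 : k < 2 ^ k := Nat.lt_two_pow_self
    have a2 : 2 * (2 * h + k + 6) ≤ (4 * h + 14) * 2 ^ k := by
      nlinarith
    exact_mod_cast a2
  have e2 := hE k
  have e3 : (lam * (c * 4 ^ k)) ^ 2 + lam * (c * 4 ^ k) ≤ M * 16 ^ k := by
    have b1 : (4 : ℝ) ^ k ≤ 16 ^ k := pow_le_pow_left₀ (by norm_num) (by norm_num) k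
    have b2 : ((4 : ℝ) ^ k) ^ 2 = 16 ^ k := by
      rw [← pow_mul, mul_comm, pow_mul]; norm_num
    have b3 : (lam * (c * 4 ^ k)) ^ 2 = (lam * c) ^ 2 * 16 ^ k := by
      rw [← b2]; ring
    rw [b3, hM, add_mul]
    have b4 : lam * (c * 4 ^ k) = (lam * c) * 4 ^ k := by ring
    rw [b4]
    have := mul_le_mul_of_nonneg_left b1 (show 0 ≤ lam * c by positivity)
    linarith
  have e4 : (C1 * (1 / 2 : ℝ) ^ k) ^ 2 = C1 ^ 2 / 4 ^ k := by
    rw [mul_pow, ← pow_mul, mul_comm k 2, pow_mul]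
    have : ((1 / 2 : ℝ) ^ 2) ^ k = 1 / 4 ^ k := by
      rw [show ((1 / 2 : ℝ) ^ 2) = 1 / 4 by norm_num, one_div_pow]
    rw [this]
    ring
  rw [e4, div_div_eq_mul_div, div_le_iff₀ (by positivity)]
  have e5 : ((4 * h + 14 : ℕ) : ℝ) * C8 * M / C1 ^ 2 * (1 / 2 : ℝ) ^ k * C1 ^ 2 =
      (((4 * h + 14 : ℕ) : ℝ) * 2 ^ k) * ((C8 / 2 ^ (8 * k)) * (M * 16 ^ k)) * 4 ^ k := by
    have d1 : (2 : ℝ) ^ (8 * k) = 256 ^ k := by rw [pow_mul]; norm_num
    have d2 : (1 / 2 : ℝ) ^ k = 2 ^ k * 16 ^ k * 4 ^ k / 256 ^ k := by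
      rw [← mul_pow, ← mul_pow, ← div_pow]
      norm_num
    rw [d1, d2]
    field_simp
  rw [e5]
  refine mul_le_mul_of_nonneg_right ?_ (by positivity)
  refine mul_le_mul e1 ?_ (by positivity) (by positivity)
  exact mul_le_mul e2 e3 (by positivity) (by positivity)

theorem strip_event (hQ : IsPoissonProcess P lam Q) (hlam : 0 < lam) :
    ∃ C : ℝ, 0 < C ∧ ∀ ε : ℝ≥0∞, 0 < ε → ∃ m₀ : ℕ,
      P {ω | LocFin (Q ω) ∧ (Q ω).Nonempty ∧ ¬ StripOK (Q ω) C m₀} ≤ ε := by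
  obtain ⟨C3, hC3, hE3⟩ := exp_decay hlam 3
  set c : ℝ := 2 ^ (4 * 1 + 13) with hc
  have hc0 : 0 < c := by positivity
  set C1 : ℝ := 2 * C3 * (lam * c) with hC1
  have hC10 : 0 < C1 := by positivity
  refine ⟨12 * C1, by positivity, fun ε hε => ?_⟩
  have hmain := cheb_family (P := P) (X := fun k n ω => cnt 1 k n (Q ω))
    (v := fun k => Real.exp (-(lam * ((2 : ℝ) ^ k - 1))) *
      ((lam * (c * 4 ^ k)) ^ 2 + lam * (c * 4 ^ k)))
    (δ := fun k => C1 * (1 / 2) ^ k) (r := fun k => 2 * (2 * 1 + k + 6))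
    (fun k => by positivity) (fun k => by positivity) (fun k n ω => cnt_nonneg _ _ _ _)
    (fun k n => memLp_cnt hQ hlam.le 1 k n)
    (fun k n => by
      refine (integral_cnt_le hQ hlam.le 1 k n).trans ?_
      have h1 := hE3 k
      have h2 : (2 : ℝ) ^ (3 * k) = 8 ^ k := by rw [pow_mul]; norm_num
      rw [h2] at h1
      have h3 := mul_le_mul_of_nonneg_right h1 (show 0 ≤ lam * (c * 4 ^ k) by positivity)
      refine h3.trans (le_of_eq ?_)
      rw [hC1]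
      have h4 : (1 / 2 : ℝ) ^ k = 4 ^ k / 8 ^ k := by
        rw [← div_pow]; norm_num
      rw [h4]
      field_simp)
    (fun k n => integral_cnt_sq_le hQ hlam.le 1 k n)
    (fun k n n' h => cov_cnt hQ hlam.le 1 k n n' h)
    (summable_aux hlam 1 hc0 hC10) hε
  obtain ⟨m₀, hm₀⟩ := hmain
  refine ⟨max m₀ 1, (measure_mono ?_).trans hm₀⟩
  rintro ω ⟨hloc, hne, hbad⟩
  by_contra hcon
  apply hbad
  intro m hm
  have hm1 : m₀ ≤ m := (le_max_left _ _).trans hm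
  have hm2 : 1 ≤ m := (le_max_right _ _).trans hm
  have hall : ∀ k, ∑ n ∈ Finset.Icc (-(m : ℤ)) m, cnt 1 k n (Q ω) ≤
      2 * (C1 * (1 / 2) ^ k) * (2 * m + 1) := by
    intro k
    by_contra hk
    exact hcon ⟨m, hm1, k, not_le.mp hk⟩
  obtain ⟨R, hR⟩ := reg_subset_closedBall (a := (2 : ℝ) ^ (-(m : ℤ))) (b := (2 : ℝ) ^ (m : ℤ))
    (t := 1) (by positivity)
  have hfin := meeting_finite hloc hne hR
  obtain ⟨K, hK⟩ := ncard_meeting_le hloc hfin 1 (Finset.Icc (-(m : ℤ)) m) (by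
    intro z hz
    obtain ⟨h1, h2⟩ := log_range hz.1 hz.2.1
    refine ⟨_, Finset.mem_Icc.mpr ⟨h1, h2.le⟩, piece_of_reg (by norm_num) hz⟩)
  refine hK.trans ((Finset.sum_le_sum fun k _ => hall k).trans ?_)
  rw [← Finset.sum_mul]
  have hs : ∑ k ∈ Finset.range K, 2 * (C1 * (1 / 2 : ℝ) ^ k) ≤ 4 * C1 := by
    have h1 : ∑ k ∈ Finset.range K, (1 / 2 : ℝ) ^ k ≤ 2 := by
      have := (summable_geometric_of_lt_one (r := (1 / 2 : ℝ)) (by norm_num)
        (by norm_num)).sum_le_tsum (Finset.range K) (fun i _ => by positivity)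
      rwa [tsum_geometric_two] at this
    calc ∑ k ∈ Finset.range K, 2 * (C1 * (1 / 2 : ℝ) ^ k) =
          2 * C1 * ∑ k ∈ Finset.range K, (1 / 2 : ℝ) ^ k := by
          rw [Finset.mul_sum]; exact Finset.sum_congr rfl fun k _ => by ring
      _ ≤ 2 * C1 * 2 := mul_le_mul_of_nonneg_left h1 (by positivity)
      _ = 4 * C1 := by ring
  have hm3 : (1 : ℝ) ≤ m := by exact_mod_cast hm2
  calc (∑ k ∈ Finset.range K, 2 * (C1 * (1 / 2 : ℝ) ^ k)) * (2 * m + 1) ≤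
        4 * C1 * (2 * m + 1) := mul_le_mul_of_nonneg_right hs (by positivity)
    _ ≤ 12 * C1 * m := by nlinarith

theorem low_event (hQ : IsPoissonProcess P lam Q) (hlam : 0 < lam) (h : ℕ) :
    ∀ ε : ℝ≥0∞, 0 < ε → ∃ m₀ : ℕ,
      P {ω | LocFin (Q ω) ∧ (Q ω).Nonempty ∧ ¬ LowOK (Q ω) h m₀} ≤ ε := by
  intro ε hε
  set c : ℝ := 2 ^ (4 * (h + 1) + 13) with hc
  have hc0 : 0 < c := by positivity
  have hsum0 := summable_aux hlam (h + 1) hc0 (show (0 : ℝ) < 1 / 64 by norm_num)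
  have hmain := slow_family (P := P) (X := fun k n ω => cnt (h + 1) k n (Q ω))
    (v := fun k => Real.exp (-(lam * ((2 : ℝ) ^ k - 1))) *
      ((lam * (c * 4 ^ k)) ^ 2 + lam * (c * 4 ^ k)))
    (δ := fun k => 1 / 64 * (1 / 2) ^ k)
    (fun k => by positivity) (fun k => by positivity)
    (fun k n => memLp_cnt hQ hlam.le (h + 1) k n)
    (fun k n => integral_cnt_sq_le hQ hlam.le (h + 1) k n)
    (by
      refine Summable.of_nonneg_of_le (fun k => by positivity) (fun k => ?_) hsum0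
      apply div_le_div_of_nonneg_right _ (by positivity)
      have h1 : (1 : ℝ) ≤ ((2 * (2 * (h + 1) + k + 6) : ℕ) : ℝ) := by
        have : 1 ≤ 2 * (2 * (h + 1) + k + 6) := by omega
        exact_mod_cast this
      exact le_mul_of_one_le_left (by positivity) h1) hε
  obtain ⟨m₀, hm₀⟩ := hmain
  refine ⟨m₀ + 1, (measure_mono ?_).trans hm₀⟩
  rintro ω ⟨hloc, hne, hbad⟩
  by_contra hcon
  apply hbad
  intro m hm n hn
  have hall : ∀ (k : ℕ) (n : ℤ), cnt (h + 1) k n (Q ω) ≤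
      1 / 64 * (1 / 2) ^ k * (m₀ + |(n : ℝ)|) := by
    intro k n
    by_contra hk
    exact hcon ⟨k, n, not_le.mp hk⟩
  obtain ⟨R, hR⟩ := reg_subset_closedBall (a := (2 : ℝ) ^ (n - 1)) (b := (2 : ℝ) ^ (n + 1))
    (t := 2 ^ h) (by positivity)
  have hfin := meeting_finite hloc hne hR
  obtain ⟨K, hK⟩ := ncard_meeting_le hloc hfin (h + 1) (Finset.Icc (n - 1) n) (by
    intro z hz
    obtain ⟨h1, h2⟩ := log_range hz.1 hz.2.1
    refine ⟨_, Finset.mem_Icc.mpr ⟨h1, by omega⟩, piece_of_reg ?_ hz⟩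
    have : (1 : ℝ) ≤ 2 ^ h := one_le_pow₀ (by norm_num)
    rw [pow_succ]
    linarith)
  have hm1 : (m₀ : ℝ) + 1 ≤ m := by exact_mod_cast hm
  have hb : ∀ k ∈ Finset.range K, ∑ n' ∈ Finset.Icc (n - 1) n, cnt (h + 1) k n' (Q ω) ≤
      (1 / 2 : ℝ) ^ k * (1 / 16 * m) := by
    intro k _
    have h1 : ∀ n' ∈ Finset.Icc (n - 1) n, cnt (h + 1) k n' (Q ω) ≤
        1 / 64 * (1 / 2 : ℝ) ^ k * (2 * m) := by
      intro n' hn'
      rw [Finset.mem_Icc] at hn'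
      refine (hall k n').trans (mul_le_mul_of_nonneg_left ?_ (by positivity))
      have h2 : |n'| ≤ (m : ℤ) + 1 := by
        rw [abs_le] at hn ⊢
        constructor <;> omega
      have h3 : |(n' : ℝ)| ≤ m + 1 := by exact_mod_cast h2
      linarith
    refine (Finset.sum_le_card_nsmul _ _ _ h1).trans ?_
    have h4 : (Finset.Icc (n - 1) n).card = 2 := by
      rw [Int.card_Icc]
      have : n + 1 - (n - 1) = 2 := by ring
      rw [this]; rfl
    rw [h4, nsmul_eq_mul]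
    push_cast
    apply le_of_eq
    ring
  refine hK.trans ((Finset.sum_le_sum hb).trans ?_)
  rw [← Finset.sum_mul]
  have h1 : ∑ k ∈ Finset.range K, (1 / 2 : ℝ) ^ k ≤ 2 := by
    have := (summable_geometric_of_lt_one (r := (1 / 2 : ℝ)) (by norm_num)
      (by norm_num)).sum_le_tsum (Finset.range K) (fun i _ => by positivity)
    rwa [tsum_geometric_two] at this
  have hm0 : (0 : ℝ) ≤ m := Nat.cast_nonneg m
  calc (∑ k ∈ Finset.range K, (1 / 2 : ℝ) ^ k) * (1 / 16 * m) ≤ 2 * (1 / 16 * m) :=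
        mul_le_mul_of_nonneg_right h1 (by positivity)
    _ ≤ m := by linarith

end

end Pool.Agent.Y979.HV
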