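import Pool.Agent.Y979.HV.Cover

/-!
# Long steps far from the axis: the column events
-/

set_option autoImplicit false

open UpperHalfPlane Real MeasureTheory ProbabilityTheory
open scoped ENNReal

namespace Pool.Agent.Y979.HV

noncomputable section

/-- the scale of a column -/
def colS (h : ℕ) (n : ℤ) : ℤ := n / 2 ^ h

/-- the mantissa of a column -/
def colJ (h : ℕ) (n : ℤ) : ℕ := (2 ^ h + n % 2 ^ h).toNat

/-- the column of a positive number -/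
def colOf (h : ℕ) (a : ℝ) : ℤ :=
  Int.log 2 a * 2 ^ h + ((⌊a / (2 : ℝ) ^ (Int.log 2 a - h)⌋₊ : ℤ) - 2 ^ h)

theorem log_eq_of {a : ℝ} {s : ℤ} (h1 : (2 : ℝ) ^ s ≤ a) (h2 : a < (2 : ℝ) ^ (s + 1)) :
    Int.log 2 a = s := by
  have ha : 0 < a := lt_of_lt_of_le (by positivity) h1
  have h3 := Int.zpow_log_le_self (b := 2) (by norm_num) ha
  have h4 := Int.lt_zpow_succ_log_self (b := 2) (by norm_num) a
  push_cast at h3 h4
  have h5 := (zpow_lt_zpow_iff_right₀ (by norm_num : (1 : ℝ) < 2)).mp (h1.trans_lt h4)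
  have h6 := (zpow_lt_zpow_iff_right₀ (by norm_num : (1 : ℝ) < 2)).mp (h3.trans_lt h2)
  omega

theorem two_zpow_sub (s : ℤ) (h : ℕ) : (2 : ℝ) ^ (s - h) * 2 ^ h = (2 : ℝ) ^ s := by
  rw [← zpow_natCast (2 : ℝ) h, ← zpow_add₀ (by norm_num)]
  congr 1
  ring

theorem colOf_eq {h : ℕ} {a : ℝ} {s : ℤ} {j : ℕ} (hj1 : 2 ^ h ≤ j) (hj2 : j < 2 ^ (h + 1))
    (h1 : (j : ℝ) * (2 : ℝ) ^ (s - h) ≤ a) (h2 : a < ((j : ℝ) + 1) * (2 : ℝ) ^ (s - h)) :
    Int.log 2 a = s ∧ ⌊a / (2 : ℝ) ^ (s - h)⌋₊ = j := by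
  have h0 : (0 : ℝ) < (2 : ℝ) ^ (s - h) := by positivity
  have e1 := two_zpow_sub s h
  have j1 : ((2 : ℝ) ^ h) ≤ j := by exact_mod_cast hj1
  have j2 : (j : ℝ) + 1 ≤ (2 : ℝ) ^ (h + 1) := by exact_mod_cast hj2
  have h3 : Int.log 2 a = s := by
    apply log_eq_of
    · rw [← e1]
      have := mul_le_mul_of_nonneg_right j1 h0.le
      linarith
    · rw [zpow_add₀ (by norm_num), zpow_one, ← e1]
      have := mul_le_mul_of_nonneg_right j2 h0.le
      rw [pow_succ] at this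
      linarith
  refine ⟨h3, ?_⟩
  rw [Nat.floor_eq_iff (by
    have : 0 ≤ a := le_trans (by positivity) h1
    positivity)]
  constructor
  · rwa [le_div_iff₀ h0]
  · rwa [div_lt_iff₀ h0]

theorem mantissa {h : ℕ} {a : ℝ} (ha : 0 < a) :
    2 ^ h ≤ ⌊a / (2 : ℝ) ^ (Int.log 2 a - h)⌋₊ ∧
      ⌊a / (2 : ℝ) ^ (Int.log 2 a - h)⌋₊ < 2 ^ (h + 1) := by
  have h3 := Int.zpow_log_le_self (b := 2) (by norm_num) ha
  have h4 := Int.lt_zpow_succ_log_self (b := 2) (by norm_num) a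
  push_cast at h3 h4
  set s := Int.log 2 a
  have h0 : (0 : ℝ) < (2 : ℝ) ^ (s - h) := by positivity
  have e1 := two_zpow_sub s h
  constructor
  · apply Nat.le_floor
    push_cast
    rw [le_div_iff₀ h0]
    linarith
  · rw [Nat.floor_lt (by positivity), div_lt_iff₀ h0]
    push_cast
    rw [zpow_add₀ (by norm_num), zpow_one] at h4
    rw [pow_succ]
    linarith

theorem colS_of {h : ℕ} {s : ℤ} {j : ℕ} (hj1 : 2 ^ h ≤ j) (hj2 : j < 2 ^ (h + 1)) :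
    colS h (s * 2 ^ h + ((j : ℤ) - 2 ^ h)) = s ∧ colJ h (s * 2 ^ h + ((j : ℤ) - 2 ^ h)) = j := by
  have hp : (0 : ℤ) < 2 ^ h := by positivity
  have j1 : (2 : ℤ) ^ h ≤ j := by exact_mod_cast hj1
  have j2 : (j : ℤ) < 2 ^ h * 2 := by
    rw [pow_succ] at hj2
    exact_mod_cast hj2
  have k1 : 0 ≤ (j : ℤ) - 2 ^ h := by linarith
  have k2 : (j : ℤ) - 2 ^ h < 2 ^ h := by linarith
  constructor
  · unfold colS
    rw [add_comm, Int.add_mul_ediv_right _ _ hp.ne', Int.ediv_eq_zero_of_lt k1 k2]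
    ring
  · unfold colJ
    rw [add_comm (s * 2 ^ h), Int.add_mul_emod_self_right, Int.emod_eq_of_lt k1 k2]
    have : (2 : ℤ) ^ h + ((j : ℤ) - 2 ^ h) = j := by ring
    rw [this]
    exact Int.toNat_natCast j

theorem colJ_bounds (h : ℕ) (n : ℤ) : 2 ^ h ≤ colJ h n ∧ colJ h n < 2 ^ (h + 1) ∧
    colS h n * 2 ^ h + ((colJ h n : ℤ) - 2 ^ h) = n := by
  have hp : (0 : ℤ) < 2 ^ h := by positivity
  have m1 := Int.emod_nonneg n hp.ne'
  have m2 := Int.emod_lt_of_pos n hp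
  have hJ : (colJ h n : ℤ) = 2 ^ h + n % 2 ^ h := by
    unfold colJ
    rw [Int.toNat_of_nonneg (by linarith)]
  refine ⟨?_, ?_, ?_⟩
  · have : ((2 ^ h : ℕ) : ℤ) ≤ (colJ h n : ℤ) := by
      rw [hJ]; push_cast; linarith
    exact_mod_cast this
  · have : (colJ h n : ℤ) < ((2 ^ (h + 1) : ℕ) : ℤ) := by
      rw [hJ]; push_cast; rw [pow_succ]; linarith
    exact_mod_cast this
  · rw [hJ]
    unfold colS
    have := Int.mul_ediv_add_emod n (2 ^ h)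
    linarith

/-- the test rectangles in column `n` -/
def tCol (h : ℕ) (n : ℤ) (b : ℕ) (f : Bool × ℕ × ℕ) : Set ℍ :=
  tSide f.1 (colS h n - h - f.2.1) (colJ h n * 2 ^ f.2.1 + f.2.2) (2 ^ b)

/-- the index set of the test rectangles -/
def fset (b : ℕ) : Finset (Bool × ℕ × ℕ) :=
  (Finset.univ ×ˢ (Finset.range (b + 1) ×ˢ Finset.range (2 ^ b))).filter
    (fun f => f.2.2 < 2 ^ f.2.1)

theorem card_fset_le (b : ℕ) : (fset b).card ≤ 2 ^ (2 * b + 1) := by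
  refine (Finset.card_filter_le _ _).trans ?_
  rw [Finset.card_product, Finset.card_product, Finset.card_range, Finset.card_range,
    Finset.card_univ, Fintype.card_bool]
  have h1 : b + 1 ≤ 2 ^ b := Nat.lt_two_pow_self
  calc 2 * ((b + 1) * 2 ^ b) ≤ 2 * (2 ^ b * 2 ^ b) :=
        Nat.mul_le_mul_left 2 (Nat.mul_le_mul_right _ h1)
    _ = 2 ^ (2 * b + 1) := by ring

theorem mem_fset {b i l : ℕ} {σ : Bool} (hi : i ≤ b) (hl : l < 2 ^ i) : (σ, i, l) ∈ fset b := by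
  rw [fset, Finset.mem_filter, Finset.mem_product, Finset.mem_product]
  refine ⟨⟨Finset.mem_univ _, Finset.mem_range.mpr (by simpa using Nat.lt_succ_of_le hi),
    Finset.mem_range.mpr ?_⟩, hl⟩
  exact lt_of_lt_of_le hl (Nat.pow_le_pow_right (by norm_num) hi)

theorem colOf_tCol {h b : ℕ} {n : ℤ} {f : Bool × ℕ × ℕ} (hf : f ∈ fset b) {w : ℍ}
    (hw : w ∈ tCol h n b f) : colOf h |w.re| = n := by
  obtain ⟨σ, i, l⟩ := f
  rw [fset, Finset.mem_filter] at hf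
  have hl : l < 2 ^ i := hf.2
  obtain ⟨hj1, hj2, hn⟩ := colJ_bounds h n
  obtain ⟨⟨h1, h2⟩, _⟩ := hw
  have h1' : ((colJ h n * 2 ^ i + l : ℕ) : ℝ) * (2 : ℝ) ^ (colS h n - h - i) ≤ sg σ * w.re := h1
  have h2' : sg σ * w.re < (((colJ h n * 2 ^ i + l : ℕ) : ℝ) + 1) *
      (2 : ℝ) ^ (colS h n - h - i) := h2
  set s := colS h n
  set j := colJ h n
  have hq0 : (0 : ℝ) < (2 : ℝ) ^ (s - h - i) := by positivity
  have e1 := two_zpow_sub (s - h) i
  have habs : sg σ * w.re = |w.re| := by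
    rw [← abs_sg_mul σ, abs_of_nonneg]
    exact le_trans (by positivity) h1'
  rw [habs] at h1' h2'
  have hl' : (l : ℝ) + 1 ≤ 2 ^ i := by exact_mod_cast hl
  have hl0 : (0 : ℝ) ≤ l := Nat.cast_nonneg l
  push_cast at h1' h2'
  have a1 : (j : ℝ) * (2 : ℝ) ^ (s - h) ≤ |w.re| := by
    rw [← e1]
    refine le_trans ?_ h1'
    nlinarith
  have a2 : |w.re| < ((j : ℝ) + 1) * (2 : ℝ) ^ (s - h) := by
    rw [← e1]
    refine lt_of_lt_of_le h2' ?_
    nlinarith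
  obtain ⟨b1, b2⟩ := colOf_eq hj1 hj2 a1 a2
  unfold colOf
  rw [b1, b2]
  exact hn

/-- the number of void test rectangles in column `n` -/
def colCnt (h b : ℕ) (n : ℤ) (A : Set ℍ) : ℝ := ∑ f ∈ fset b, vd A (tCol h n b f)

theorem colCnt_nonneg (h b : ℕ) (n : ℤ) (A : Set ℍ) : 0 ≤ colCnt h b n A :=
  Finset.sum_nonneg fun _ _ => vd_nonneg _ _

theorem colCnt_le (h b : ℕ) (n : ℤ) (A : Set ℍ) : colCnt h b n A ≤ 2 ^ (2 * b + 1) := by
  have h1 : colCnt h b n A ≤ (fset b).card • (1 : ℝ) :=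
    Finset.sum_le_card_nsmul _ _ _ fun f _ => vd_le_one _ _
  rw [nsmul_eq_mul, mul_one] at h1
  refine h1.trans ?_
  exact_mod_cast card_fset_le b

theorem one_le_colCnt {h b : ℕ} {n : ℤ} {A : Set ℍ} {f : Bool × ℕ × ℕ} (hf : f ∈ fset b)
    (hv : A ∩ tCol h n b f = ∅) : 1 ≤ colCnt h b n A := by
  rw [← vd_eq_one hv]
  exact Finset.single_le_sum (f := fun f => vd A (tCol h n b f)) (fun _ _ => vd_nonneg _ _) hf

/-- the long step event -/
def HighOK (A : Set ℍ) (h c₀ m₀ : ℕ) : Prop :=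
  ∀ m : ℕ, m₀ ≤ m → ∀ k : ℕ, ∑ n ∈ Finset.Icc (-(m : ℤ)) m, colCnt h (k + c₀) n A ≤
    2 * (1 / 4) ^ (k + c₀) * (2 * m + 1)

variable {Ω : Type*} [MeasurableSpace Ω] {P : Measure Ω} [IsProbabilityMeasure P] {lam : ℝ}
  {Q : Ω → Set ℍ}

theorem measurableSet_tCol (h : ℕ) (n : ℤ) (b : ℕ) (f : Bool × ℕ × ℕ) :
    MeasurableSet (tCol h n b f) := measurableSet_tSide _ _ _ _

theorem volume_tCol (h : ℕ) (n : ℤ) (b : ℕ) (f : Bool × ℕ × ℕ) :
    volume (tCol h n b f) = ENNReal.ofReal ((2 : ℝ) ^ b - 1) :=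
  volume_tSide _ _ _ (one_le_pow₀ (by norm_num))

theorem memLp_colCnt (hQ : IsPoissonProcess P lam Q) (h b : ℕ) (n : ℤ) :
    MemLp (fun ω => colCnt h b n (Q ω)) 2 P := by
  have : (fun ω => colCnt h b n (Q ω)) = ∑ f ∈ fset b, fun ω => vd (Q ω) (tCol h n b f) := by
    funext ω
    rw [Finset.sum_apply]
    rfl
  rw [this]
  exact memLp_finsetSum' _ fun f _ => hQ.memLp_vd (measurableSet_tCol _ _ _ _)

theorem integral_colCnt_le (hQ : IsPoissonProcess P lam Q) (h b : ℕ) (n : ℤ) :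
    ∫ ω, colCnt h b n (Q ω) ∂P ≤
      2 ^ (2 * b + 1) * Real.exp (-(lam * ((2 : ℝ) ^ b - 1))) := by
  unfold colCnt
  rw [integral_finsetSum _ fun f _ =>
    (hQ.memLp_vd (measurableSet_tCol _ _ _ _)).integrable one_le_two]
  have h2 : (1 : ℝ) ≤ 2 ^ b := one_le_pow₀ (by norm_num)
  have h1 : ∀ f ∈ fset b, ∫ ω, vd (Q ω) (tCol h n b f) ∂P ≤
      Real.exp (-(lam * ((2 : ℝ) ^ b - 1))) := by
    intro f _
    have h3 := hQ.integral_vd (B := tCol h n b f) (measurableSet_tCol _ _ _ _)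
      (by rw [volume_tCol]; exact ENNReal.ofReal_ne_top)
    rw [volume_tCol, ENNReal.toReal_ofReal (by linarith)] at h3
    exact h3.le
  refine (Finset.sum_le_card_nsmul _ _ _ h1).trans ?_
  rw [nsmul_eq_mul]
  refine mul_le_mul_of_nonneg_right ?_ (Real.exp_pos _).le
  exact_mod_cast card_fset_le b

theorem integral_colCnt_sq_le (hQ : IsPoissonProcess P lam Q) (h b : ℕ) (n : ℤ) :
    ∫ ω, colCnt h b n (Q ω) ^ 2 ∂P ≤
      2 ^ (2 * b + 1) * (2 ^ (2 * b + 1) * Real.exp (-(lam * ((2 : ℝ) ^ b - 1)))) := by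
  have hL := memLp_colCnt (P := P) hQ h b n
  have h1 : ∫ ω, colCnt h b n (Q ω) ^ 2 ∂P ≤ ∫ ω, 2 ^ (2 * b + 1) * colCnt h b n (Q ω) ∂P := by
    refine integral_mono hL.integrable_sq ((hL.integrable one_le_two).const_mul _) fun ω => ?_
    show colCnt h b n (Q ω) ^ 2 ≤ 2 ^ (2 * b + 1) * colCnt h b n (Q ω)
    rw [sq]
    exact mul_le_mul_of_nonneg_right (colCnt_le _ _ _ _) (colCnt_nonneg _ _ _ _)
  refine h1.trans ?_
  rw [integral_const_mul]
  exact mul_le_mul_of_nonneg_left (integral_colCnt_le hQ h b n) (by positivity)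

theorem cov_colCnt (hQ : IsPoissonProcess P lam Q) (h b : ℕ) (n n' : ℤ) (hnn : n ≠ n') :
    covariance (fun ω => colCnt h b n (Q ω)) (fun ω => colCnt h b n' (Q ω)) P = 0 := by
  unfold colCnt
  rw [covariance_fun_sum_fun_sum' (fun f _ => hQ.memLp_vd (measurableSet_tCol _ _ _ _))
    (fun f _ => hQ.memLp_vd (measurableSet_tCol _ _ _ _))]
  refine Finset.sum_eq_zero fun f hf => Finset.sum_eq_zero fun f' hf' => ?_
  refine hQ.cov_vd (measurableSet_tCol _ _ _ _) (measurableSet_tCol _ _ _ _) ?_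
  rw [Set.disjoint_left]
  intro w hw hw'
  exact hnn ((colOf_tCol hf hw).symm.trans (colOf_tCol hf' hw'))

theorem high_event (hQ : IsPoissonProcess P lam Q) (hlam : 0 < lam) :
    ∃ c₁ : ℕ, ∀ c₀ : ℕ, c₁ ≤ c₀ → ∀ h : ℕ, ∀ ε : ℝ≥0∞, 0 < ε → ∃ m₀ : ℕ,
      P {ω | ¬ HighOK (Q ω) h c₀ m₀} ≤ ε := by
  obtain ⟨C5, hC5, hE5⟩ := exp_decay hlam 5
  obtain ⟨C9, hC9, hE9⟩ := exp_decay hlam 9
  obtain ⟨c₁, hc₁⟩ := pow_unbounded_of_one_lt (4 * C5) (show (1 : ℝ) < 2 by norm_num)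
  refine ⟨c₁, fun c₀ hc₀ h ε hε => ?_⟩
  have hmain := cheb_family (P := P) (X := fun k n ω => colCnt h (k + c₀) n (Q ω))
    (v := fun k => 2 ^ (2 * (k + c₀) + 1) * (2 ^ (2 * (k + c₀) + 1) *
      Real.exp (-(lam * ((2 : ℝ) ^ (k + c₀) - 1)))))
    (δ := fun k => (1 / 4) ^ (k + c₀)) (r := fun _ => 1)
    (fun k => by positivity) (fun k => by positivity) (fun k n ω => colCnt_nonneg _ _ _ _)
    (fun k n => memLp_colCnt hQ h (k + c₀) n)
    (fun k n => by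
      refine (integral_colCnt_le hQ h (k + c₀) n).trans ?_
      have h1 := hE5 (k + c₀)
      have h2 : (2 : ℝ) ^ c₁ ≤ 2 ^ (k + c₀) := pow_le_pow_right₀ (by norm_num) (by omega)
      have h3 : 4 * C5 ≤ (2 : ℝ) ^ (k + c₀) := by linarith
      set b := k + c₀
      have h4 := mul_le_mul_of_nonneg_left h1 (show (0 : ℝ) ≤ 2 ^ (2 * b + 1) by positivity)
      refine h4.trans ?_
      have e1 : (2 : ℝ) ^ (2 * b + 1) = 4 ^ b * 2 := by rw [pow_succ, pow_mul]; norm_num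
      have e2 : (2 : ℝ) ^ (5 * b) = 4 ^ b * 4 ^ b * 2 ^ b := by
        rw [← mul_pow, ← mul_pow, pow_mul]; norm_num
      have e3 : (1 / 4 : ℝ) ^ b = 1 / 4 ^ b := one_div_pow 4 b
      rw [e1, e2, e3, div_div, mul_div_assoc', div_le_div_iff₀ (by positivity) (by positivity)]
      have h5 : (0 : ℝ) < 4 ^ b := by positivity
      nlinarith [mul_le_mul_of_nonneg_left h3 (show (0 : ℝ) ≤ 4 ^ b * 4 ^ b by positivity)])
    (fun k n => integral_colCnt_sq_le hQ h (k + c₀) n)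
    (fun k n n' hnn => cov_colCnt hQ h (k + c₀) n n' (by
      rintro rfl
      simp at hnn))
    (by
      have hgeo : Summable fun k : ℕ => 4 * C9 * (1 / 2 : ℝ) ^ c₀ * (1 / 2 : ℝ) ^ k :=
        (summable_geometric_of_lt_one (by norm_num) (by norm_num)).mul_left _
      refine Summable.of_nonneg_of_le (fun k => by positivity) (fun k => ?_) hgeo
      have h1 := hE9 (k + c₀)
      have e0 : 4 * C9 * (1 / 2 : ℝ) ^ c₀ * (1 / 2 : ℝ) ^ k = 4 * C9 * (1 / 2 : ℝ) ^ (k + c₀) := by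
        rw [pow_add]; ring
      rw [e0]
      set b := k + c₀
      have e1 : (2 : ℝ) ^ (2 * b + 1) = 4 ^ b * 2 := by rw [pow_succ, pow_mul]; norm_num
      have e2 : (2 : ℝ) ^ (9 * b) = 4 ^ b * 4 ^ b * 4 ^ b * 4 ^ b * 2 ^ b := by
        rw [← mul_pow, ← mul_pow, ← mul_pow, ← mul_pow, pow_mul]; norm_num
      have e3 : (1 / 4 : ℝ) ^ b = 1 / 4 ^ b := one_div_pow 4 b
      have e4 : (1 / 2 : ℝ) ^ b = 1 / 2 ^ b := one_div_pow 2 b
      rw [e1, e3, e4]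
      rw [e2] at h1
      have h5 : (0 : ℝ) < 4 ^ b := by positivity
      have h6 : (0 : ℝ) < 2 ^ b := by positivity
      calc ((1 : ℕ) : ℝ) * (4 ^ b * 2 * (4 ^ b * 2 * Real.exp (-(lam * ((2 : ℝ) ^ b - 1))))) /
            (1 / 4 ^ b) ^ 2 = 4 * (4 ^ b * 4 ^ b * 4 ^ b * 4 ^ b) *
              Real.exp (-(lam * ((2 : ℝ) ^ b - 1))) := by
            push_cast
            field_simp
            ring
        _ ≤ 4 * (4 ^ b * 4 ^ b * 4 ^ b * 4 ^ b) * (C9 / (4 ^ b * 4 ^ b * 4 ^ b * 4 ^ b * 2 ^ b)) :=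
            mul_le_mul_of_nonneg_left h1 (by positivity)
        _ = 4 * C9 * (1 / 2 ^ b) := by
            field_simp) hε
  obtain ⟨m₀, hm₀⟩ := hmain
  refine ⟨m₀, (measure_mono ?_).trans hm₀⟩
  intro ω hω
  by_contra hcon
  apply hω
  intro m hm k
  by_contra hk
  exact hcon ⟨m, hm, k, not_le.mp hk⟩

end

end Pool.Agent.Y979.HV
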