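import Pool.Agent.Y979.HV.High

/-!
# Long steps far from the axis: deterministic part
-/

set_option autoImplicit false

open UpperHalfPlane Real

namespace Pool.Agent.Y979.HV

noncomputable section

theorem im_lt_of_kp {h : ℕ} {z : ℍ} (hz : (2 : ℝ) ^ (h + 1) < kp z) :
    z.im * 2 ^ (h + 1) < ‖(z : ℂ)‖ := by
  rw [kp, lt_div_iff₀ z.im_pos] at hz
  linarith

theorem norm_le_two_re {h : ℕ} {z : ℍ} (hz : (2 : ℝ) ^ (h + 1) < kp z) :
    ‖(z : ℂ)‖ * (1 - 1 / 2 * (1 / 2 ^ h)) ≤ |z.re| ∧ ‖(z : ℂ)‖ ≤ 2 * |z.re| ∧ 0 < |z.re| := by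
  have h1 := im_lt_of_kp hz
  have h2 := norm_le_re_add_im z
  have h3 := norm_pos' z
  have h4 : (0 : ℝ) < 2 ^ h := by positivity
  have h5 : z.im < ‖(z : ℂ)‖ * (1 / 2 * (1 / 2 ^ h)) := by
    rw [pow_succ] at h1
    have : ‖(z : ℂ)‖ * (1 / 2 * (1 / 2 ^ h)) = ‖(z : ℂ)‖ / (2 ^ h * 2) := by
      field_simp
    rw [this, lt_div_iff₀ (by positivity)]
    exact h1
  have h6 : (1 : ℝ) ≤ 2 ^ h := one_le_pow₀ (by norm_num)
  have h7 : (1 : ℝ) / 2 ^ h ≤ 1 := by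
    rw [div_le_one h4]; exact h6
  have h8 : ‖(z : ℂ)‖ * (1 - 1 / 2 * (1 / 2 ^ h)) ≤ |z.re| := by
    rw [mul_sub, mul_one]
    linarith
  have h9 : ‖(z : ℂ)‖ ≤ 2 * |z.re| := by
    have : ‖(z : ℂ)‖ * (1 / 2) ≤ ‖(z : ℂ)‖ * (1 - 1 / 2 * (1 / 2 ^ h)) :=
      mul_le_mul_of_nonneg_left (by linarith) h3.le
    linarith
  exact ⟨h8, h9, by linarith⟩

/-- a long step whose endpoints are far from the axis makes a test rectangle void -/
theorem pair_level {A : Set ℍ} {h α : ℕ} (hα : 4 ≤ α) {x z : ℍ} (hc : z ∈ cell A x)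
    (hz : (2 : ℝ) ^ (h + 1) < kp z) (hx : (2 : ℝ) ^ (h + 1) < kp x)
    (hΔ : (2 : ℝ) ^ α ≤ 2 ^ h * |sc x - sc z|) :
    ∃ b : ℕ, 2 * α - 3 ≤ b ∧ (2 : ℝ) ^ h * |sc x - sc z| ≤ 2 ^ b ∧
      1 ≤ colCnt h b (colOf h |z.re|) A := by
  obtain ⟨hr1, hr2, hr3⟩ := norm_le_two_re hz
  have him := im_lt_of_kp hz
  have hzi := z.im_pos
  set a := |z.re| with ha
  set s := Int.log 2 a with hs
  set q := Int.log 2 z.im with hq
  have s1 := Int.zpow_log_le_self (b := 2) (by norm_num) hr3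
  have s2 := Int.lt_zpow_succ_log_self (b := 2) (by norm_num) a
  have q1 := Int.zpow_log_le_self (b := 2) (by norm_num) hzi
  have q2 := Int.lt_zpow_succ_log_self (b := 2) (by norm_num) z.im
  push_cast at s1 s2 q1 q2
  rw [← hs] at s1 s2
  rw [← hq] at q1 q2
  have h4 : (0 : ℝ) < 2 ^ h := by positivity
  -- the level
  have hqs : q ≤ s - h := by
    have e1 : z.im < (2 : ℝ) ^ (s + 1 - h) := by
      have e2 : (2 : ℝ) ^ (s + 1 - h) * 2 ^ h = (2 : ℝ) ^ (s + 1) := two_zpow_sub (s + 1) h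
      rw [pow_succ] at him
      have e3 : z.im * 2 ^ h < a := by nlinarith
      by_contra hcon
      push Not at hcon
      have := mul_le_mul_of_nonneg_right hcon h4.le
      linarith
    have := (zpow_lt_zpow_iff_right₀ (by norm_num : (1 : ℝ) < 2)).mp (q1.trans_lt e1)
    omega
  obtain ⟨i, hi⟩ : ∃ i : ℕ, q = s - h - i := ⟨(s - h - q).toNat, by omega⟩
  -- the lower bound for the distance
  set Δ := |sc x - sc z| with hΔd
  have hΔ0 : 0 ≤ Δ := abs_nonneg _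
  have hcosh : (2 : ℝ) ^ i * (2 ^ h * Δ) ^ 2 ≤ 2 * Real.cosh (dist z x) := by
    have c1 := kp_mul_le z x
    have c2 : Δ ^ 2 / 2 ≤ Real.cosh (sc z - sc x) - 1 := by
      have := half_sq_le_cosh (sc z - sc x)
      rw [hΔd, sq_abs]
      have e : (sc x - sc z) ^ 2 = (sc z - sc x) ^ 2 := by ring
      rw [e]
      exact this
    have c3 : (2 : ℝ) ^ h * 2 ^ i / 2 ≤ kp z := by
      rw [kp, le_div_iff₀ hzi]
      have d1 : (2 : ℝ) ^ s ≤ ‖(z : ℂ)‖ := s1.trans (abs_re_le_norm z)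
      have d2 : z.im ≤ 2 * (2 : ℝ) ^ q := by
        rw [zpow_add₀ (by norm_num), zpow_one] at q2
        linarith
      have d3 : (2 : ℝ) ^ q * (2 ^ h * 2 ^ i) = (2 : ℝ) ^ s := by
        rw [hi, mul_comm ((2 : ℝ) ^ h), ← mul_assoc, two_zpow_sub, two_zpow_sub]
      calc (2 : ℝ) ^ h * 2 ^ i / 2 * z.im ≤ (2 : ℝ) ^ h * 2 ^ i / 2 * (2 * (2 : ℝ) ^ q) :=
            mul_le_mul_of_nonneg_left d2 (by positivity)
        _ = (2 : ℝ) ^ q * (2 ^ h * 2 ^ i) := by ring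
        _ ≤ ‖(z : ℂ)‖ := by rw [d3]; exact d1
    have c4 : (2 : ℝ) ^ h * 2 ^ i / 2 * 2 ^ (h + 1) ≤ kp z * kp x :=
      mul_le_mul c3 hx.le (by positivity) (kp_pos z).le
    have c5 : (2 : ℝ) ^ h * 2 ^ i / 2 * 2 ^ (h + 1) * (Δ ^ 2 / 2) ≤
        kp z * kp x * (Real.cosh (sc z - sc x) - 1) :=
      mul_le_mul c4 c2 (by positivity) (mul_nonneg (kp_pos z).le (kp_pos x).le)
    have c6 : (2 : ℝ) ^ h * 2 ^ i / 2 * 2 ^ (h + 1) * (Δ ^ 2 / 2) =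
        2 ^ i * (2 ^ h * Δ) ^ 2 / 2 := by
      rw [pow_succ]; ring
    rw [c6] at c5
    linarith
  have hi1 : (1 : ℝ) ≤ 2 ^ i := one_le_pow₀ (by norm_num)
  have hsq : ((2 : ℝ) ^ α) ^ 2 ≤ (2 ^ h * Δ) ^ 2 := pow_le_pow_left₀ (by positivity) hΔ 2
  have hlow : (2 : ℝ) ^ (i + 2 * α) ≤ 2 * Real.cosh (dist z x) := by
    refine le_trans ?_ hcosh
    rw [pow_add, mul_comm 2 α, pow_mul]
    exact mul_le_mul_of_nonneg_left hsq (by positivity)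
  -- the exponent b
  obtain ⟨N, hN1, hN2⟩ := exists_nat_pow_near (Real.one_le_cosh (dist z x))
    (show (1 : ℝ) < 2 by norm_num)
  have hN3 : i + 2 * α < N + 2 := by
    have : (2 : ℝ) ^ (i + 2 * α) < 2 ^ (N + 2) := by
      rw [show N + 2 = (N + 1) + 1 by ring, pow_succ (2 : ℝ) (N + 1)]
      linarith
    exact (pow_lt_pow_iff_right₀ (by norm_num : (1 : ℝ) < 2)).mp this
  obtain ⟨b, hb⟩ : ∃ b : ℕ, N = b + 2 := ⟨N - 2, by omega⟩
  subst hb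
  refine ⟨b, by omega, ?_, ?_⟩
  · -- the length bound
    have d1 : (2 ^ h * Δ) ^ 2 < 2 ^ (b + 4) := by
      have e1 : (2 ^ h * Δ) ^ 2 ≤ (2 : ℝ) ^ i * (2 ^ h * Δ) ^ 2 :=
        le_mul_of_one_le_left (by positivity) hi1
      rw [show b + 4 = (b + 2 + 1) + 1 by ring, pow_succ (2 : ℝ) (b + 2 + 1)]
      linarith
    have d2 : (16 : ℝ) ≤ 2 ^ h * Δ := by
      have : (2 : ℝ) ^ 4 ≤ 2 ^ α := pow_le_pow_right₀ (by norm_num) hα
      linarith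
    rw [pow_add] at d1
    nlinarith
  · -- the void rectangle
    have hq0 : (0 : ℝ) < (2 : ℝ) ^ q := by positivity
    set p : ℕ := ⌊a / (2 : ℝ) ^ q⌋₊ with hp
    have p1 : (p : ℝ) * (2 : ℝ) ^ q ≤ a := by
      rw [← le_div_iff₀ hq0]
      exact Nat.floor_le (by positivity)
    have p2 : a ≤ ((p : ℝ) + 1) * (2 : ℝ) ^ q := by
      rw [← div_le_iff₀ hq0]
      exact (Nat.lt_floor_add_one _).le
    obtain ⟨σ, hσ⟩ := exists_sg z.re
    obtain ⟨m1, m2⟩ := mantissa (h := h) hr3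
    have hpdiv : p / 2 ^ i = ⌊a / (2 : ℝ) ^ (s - h)⌋₊ := by
      have e1 : a / (2 : ℝ) ^ (s - h) = a / (2 : ℝ) ^ q / ((2 ^ i : ℕ) : ℝ) := by
        push_cast
        rw [div_div, hi, two_zpow_sub]
      rw [e1, Nat.floor_div_natCast]
    obtain ⟨k1, k2⟩ := colS_of (h := h) (s := s) m1 m2
    refine one_le_colCnt (f := (σ, i, p % 2 ^ i)) (mem_fset (by omega)
      (Nat.mod_lt _ (by positivity))) ?_
    have hcol : colOf h a = s * 2 ^ h + ((⌊a / (2 : ℝ) ^ (s - h)⌋₊ : ℤ) - 2 ^ h) := rfl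
    have ht : tCol h (colOf h a) b (σ, i, p % 2 ^ i) = tSide σ q p (2 ^ b) := by
      unfold tCol
      rw [hcol]
      show tSide σ (colS h (s * 2 ^ h + ((⌊a / (2 : ℝ) ^ (s - h)⌋₊ : ℤ) - 2 ^ h)) - h - i)
        (colJ h (s * 2 ^ h + ((⌊a / (2 : ℝ) ^ (s - h)⌋₊ : ℤ) - 2 ^ h)) * 2 ^ i + p % 2 ^ i) (2 ^ b) =
        tSide σ q p (2 ^ b)
      rw [k1, k2, ← hi, ← hpdiv, Nat.div_add_mod']
    rw [ht]
    by_contra hcon
    obtain ⟨w, hwA, hw⟩ := Set.nonempty_iff_ne_empty.mpr hcon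
    have e1 := cosh_dist_tSide (σ := σ) (p := p) (one_le_pow₀ (by norm_num : (1 : ℝ) ≤ 2))
      q1 q2 (by rw [hσ]; exact p1) (by rw [hσ]; exact p2) hw
    have e2 := (cosh_dist_le_iff z x z w).mpr (hc w hwA)
    have e3 : (0 : ℝ) < 2 ^ b := by positivity
    rw [pow_add] at hN1
    linarith

/-- the range of a column -/
theorem col_range {h : ℕ} {a : ℝ} (ha : 0 < a) :
    ((colJ h (colOf h a) : ℝ)) * (2 : ℝ) ^ (colS h (colOf h a) - h) ≤ a ∧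
      a < ((colJ h (colOf h a) : ℝ) + 1) * (2 : ℝ) ^ (colS h (colOf h a) - h) := by
  obtain ⟨m1, m2⟩ := mantissa (h := h) ha
  obtain ⟨k1, k2⟩ := colS_of (h := h) (s := Int.log 2 a) m1 m2
  have hcol : colOf h a = Int.log 2 a * 2 ^ h +
    ((⌊a / (2 : ℝ) ^ (Int.log 2 a - h)⌋₊ : ℤ) - 2 ^ h) := rfl
  rw [hcol, k1, k2]
  have h0 : (0 : ℝ) < (2 : ℝ) ^ (Int.log 2 a - h) := by positivity
  constructor
  · rw [← le_div_iff₀ h0]
    exact Nat.floor_le (by positivity)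
  · rw [← div_lt_iff₀ h0]
    exact Nat.lt_floor_add_one _

theorem sc_sub_le_of_col {h : ℕ} {z w : ℍ} (hz : (2 : ℝ) ^ (h + 1) < kp z)
    (hw : (2 : ℝ) ^ (h + 1) < kp w) (hcol : colOf h |z.re| = colOf h |w.re|) :
    sc w - sc z ≤ 4 / 2 ^ h := by
  obtain ⟨_, _, z3⟩ := norm_le_two_re hz
  obtain ⟨w1, _, w3⟩ := norm_le_two_re hw
  obtain ⟨r1, _⟩ := col_range (h := h) z3
  obtain ⟨_, r4⟩ := col_range (h := h) w3
  obtain ⟨j1, _, _⟩ := colJ_bounds h (colOf h |z.re|)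
  rw [← hcol] at r4
  set j := colJ h (colOf h |z.re|)
  set s := colS h (colOf h |z.re|)
  have h0 : (0 : ℝ) < (2 : ℝ) ^ (s - h) := by positivity
  have h4 : (0 : ℝ) < 2 ^ h := by positivity
  have j1' : (2 : ℝ) ^ h ≤ j := by exact_mod_cast j1
  set e : ℝ := 1 / 2 ^ h with he
  have he0 : 0 < e := by positivity
  have he1 : e ≤ 1 := by
    rw [he, div_le_one h4]
    exact one_le_pow₀ (by norm_num)
  have a1 : (2 : ℝ) ^ (s - h) ≤ e * |z.re| := by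
    have : (2 : ℝ) ^ h * (2 : ℝ) ^ (s - h) ≤ |z.re| :=
      (mul_le_mul_of_nonneg_right j1' h0.le).trans r1
    rw [he, div_mul_eq_mul_div, one_mul, le_div_iff₀ h4]
    linarith
  have a2 : |w.re| ≤ (1 + e) * |z.re| := by linarith
  have hzn := norm_pos' z
  have hwn := norm_pos' w
  have a3 : ‖(w : ℂ)‖ * (1 - 1 / 2 * e) ≤ (1 + e) * ‖(z : ℂ)‖ := by
    refine w1.trans (a2.trans ?_)
    exact mul_le_mul_of_nonneg_left (abs_re_le_norm z) (by linarith)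
  have a4 : ‖(w : ℂ)‖ ≤ (1 + 4 * e) * ‖(z : ℂ)‖ := by
    have b1 : (1 + e) ≤ (1 + 4 * e) * (1 - 1 / 2 * e) := by nlinarith
    have b2 : (1 + e) * ‖(z : ℂ)‖ ≤ ((1 + 4 * e) * (1 - 1 / 2 * e)) * ‖(z : ℂ)‖ :=
      mul_le_mul_of_nonneg_right b1 hzn.le
    have b3 : ‖(w : ℂ)‖ * (1 - 1 / 2 * e) ≤ ((1 + 4 * e) * ‖(z : ℂ)‖) * (1 - 1 / 2 * e) := by
      linarith
    exact le_of_mul_le_mul_right b3 (by linarith)
  have a5 : sc w ≤ Real.log (1 + 4 * e) + sc z := by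
    unfold sc
    rw [← Real.log_mul (by positivity) hzn.ne']
    exact Real.log_le_log hwn a4
  have a6 : Real.log (1 + 4 * e) ≤ 4 * e := by
    have := Real.log_le_sub_one_of_pos (show 0 < 1 + 4 * e by positivity)
    linarith
  have a7 : 4 * e = 4 / 2 ^ h := by rw [he]; ring
  linarith

theorem colOf_bound {h M : ℕ} {z : ℍ} (hz : (2 : ℝ) ^ (h + 1) < kp z)
    (h1 : (2 : ℝ) ^ (-(M : ℤ)) ≤ ‖(z : ℂ)‖) (h2 : ‖(z : ℂ)‖ ≤ (2 : ℝ) ^ (M : ℤ)) :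
    |colOf h (|z.re|)| ≤ ((M + 2) * 2 ^ h : ℕ) := by
  obtain ⟨_, r2, r3⟩ := norm_le_two_re hz
  obtain ⟨m1, m2⟩ := mantissa (h := h) r3
  have s1 := Int.zpow_log_le_self (b := 2) (by norm_num) r3
  have s2 := Int.lt_zpow_succ_log_self (b := 2) (by norm_num) |z.re|
  push_cast at s1 s2
  have hcol : colOf h |z.re| = Int.log 2 |z.re| * 2 ^ h +
    ((⌊|z.re| / (2 : ℝ) ^ (Int.log 2 |z.re| - h)⌋₊ : ℤ) - 2 ^ h) := rfl
  rw [hcol]
  set s := Int.log 2 |z.re|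
  set j := ⌊|z.re| / (2 : ℝ) ^ (s - h)⌋₊
  have hs1 : s ≤ M := by
    have := s1.trans ((abs_re_le_norm z).trans h2)
    exact (zpow_le_zpow_iff_right₀ (by norm_num : (1 : ℝ) < 2)).mp this
  have hs2 : -(M : ℤ) < s + 2 := by
    have e : (2 : ℝ) ^ (s + 2) = 2 * (2 : ℝ) ^ (s + 1) := by
      rw [show s + 2 = (s + 1) + 1 by ring, zpow_add₀ (by norm_num : (2 : ℝ) ≠ 0) (s + 1) 1,
        zpow_one]
      ring
    have : (2 : ℝ) ^ (-(M : ℤ)) < (2 : ℝ) ^ (s + 2) := by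
      rw [e]; linarith
    exact (zpow_lt_zpow_iff_right₀ (by norm_num : (1 : ℝ) < 2)).mp this
  have hp : (0 : ℤ) < 2 ^ h := by positivity
  have j1 : (2 : ℤ) ^ h ≤ j := by exact_mod_cast m1
  have j2 : (j : ℤ) < 2 ^ h * 2 := by
    rw [pow_succ] at m2
    exact_mod_cast m2
  push_cast
  rw [abs_le]
  constructor
  · nlinarith
  · nlinarith

/-- the total length of disjoint long steps far from the axis is small -/
theorem high_sum {A : Set ℍ} {h α c₀ m₀ M : ℕ} (hα : 4 ≤ α) (hc₀ : c₀ ≤ 2 * α - 3)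
    (hH : HighOK A h c₀ m₀) (hM : m₀ ≤ (M + 2) * 2 ^ h) {ι : Type*} (J : Finset ι)
    (x z : ι → ℍ) (hc : ∀ j ∈ J, z j ∈ cell A (x j))
    (hz : ∀ j ∈ J, (2 : ℝ) ^ (h + 1) < kp (z j)) (hx : ∀ j ∈ J, (2 : ℝ) ^ (h + 1) < kp (x j))
    (hΔ : ∀ j ∈ J, (2 : ℝ) ^ α ≤ 2 ^ h * |sc (x j) - sc (z j)|)
    (h1 : ∀ j ∈ J, (2 : ℝ) ^ (-(M : ℤ)) ≤ ‖(z j : ℂ)‖)
    (h2 : ∀ j ∈ J, ‖(z j : ℂ)‖ ≤ (2 : ℝ) ^ (M : ℤ))
    (hdisj : ∀ j ∈ J, ∀ l ∈ J, j ≠ l → |sc (x j) - sc (z j)| ≤ |sc (z j) - sc (z l)|) :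
    ∑ j ∈ J, |sc (x j) - sc (z j)| ≤ (8 * M + 20) / 2 ^ c₀ := by
  classical
  have h4 : (0 : ℝ) < 2 ^ h := by positivity
  have hlev : ∀ j ∈ J, ∃ k : ℕ, (2 : ℝ) ^ h * |sc (x j) - sc (z j)| ≤ 2 ^ (k + c₀) ∧
      1 ≤ colCnt h (k + c₀) (colOf h |(z j).re|) A := by
    intro j hj
    obtain ⟨b, hb1, hb2, hb3⟩ := pair_level hα (hc j hj) (hz j hj) (hx j hj) (hΔ j hj)
    obtain ⟨k, hk⟩ : ∃ k : ℕ, b = k + c₀ := ⟨b - c₀, by omega⟩
    subst hk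
    exact ⟨k, hb2, hb3⟩
  choose! kk hkk using hlev
  set m : ℕ := (M + 2) * 2 ^ h with hm
  set f : ι → ℕ × ℤ := fun j => (kk j, colOf h |(z j).re|) with hf
  have hinj : Set.InjOn f J := by
    intro j hj l hl hjl
    by_contra hne
    have e1 : colOf h |(z j).re| = colOf h |(z l).re| := congrArg Prod.snd hjl
    have e2 := sc_sub_le_of_col (hz j hj) (hz l hl) e1
    have e3 := sc_sub_le_of_col (hz l hl) (hz j hj) e1.symm
    have e4 : |sc (z j) - sc (z l)| ≤ 4 / 2 ^ h := abs_le.mpr ⟨by linarith, by linarith⟩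
    have e5 := hdisj j hj l hl hne
    have e6 := hΔ j hj
    have e7 : (2 : ℝ) ^ 4 ≤ 2 ^ α := pow_le_pow_right₀ (by norm_num) hα
    have e8 : 2 ^ h * |sc (x j) - sc (z j)| ≤ 4 := by
      have := mul_le_mul_of_nonneg_left (e5.trans e4) h4.le
      have e9 : (2 : ℝ) ^ h * (4 / 2 ^ h) = 4 := by field_simp
      linarith
    norm_num at e7
    linarith
  obtain ⟨K, hK⟩ : ∃ K : ℕ, ∀ j ∈ J, kk j < K :=
    ⟨J.sup kk + 1, fun j hj => Nat.lt_succ_of_le (Finset.le_sup (f := kk) hj)⟩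
  set g : ℕ × ℤ → ℝ := fun p => 2 ^ (p.1 + c₀) / 2 ^ h * colCnt h (p.1 + c₀) p.2 A with hg
  have hg0 : ∀ p, 0 ≤ g p := fun p => mul_nonneg (by positivity) (colCnt_nonneg _ _ _ _)
  have s1 : ∑ j ∈ J, |sc (x j) - sc (z j)| ≤ ∑ j ∈ J, g (f j) := by
    refine Finset.sum_le_sum fun j hj => ?_
    obtain ⟨a1, a2⟩ := hkk j hj
    have a3 : |sc (x j) - sc (z j)| ≤ 2 ^ (kk j + c₀) / 2 ^ h := by
      rw [le_div_iff₀ h4]; linarith
    refine a3.trans ?_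
    exact le_mul_of_one_le_right (by positivity) a2
  have s2 : ∑ j ∈ J, g (f j) = ∑ p ∈ J.image f, g p := by
    rw [Finset.sum_image]
    intro j hj l hl hjl
    exact hinj hj hl hjl
  have s3 : ∑ p ∈ J.image f, g p ≤
      ∑ p ∈ Finset.range K ×ˢ Finset.Icc (-(m : ℤ)) m, g p := by
    refine Finset.sum_le_sum_of_subset_of_nonneg ?_ fun p _ _ => hg0 p
    intro p hp
    rw [Finset.mem_image] at hp
    obtain ⟨j, hj, rfl⟩ := hp
    rw [Finset.mem_product, Finset.mem_range, Finset.mem_Icc]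
    have := colOf_bound (hz j hj) (h1 j hj) (h2 j hj)
    rw [abs_le] at this
    exact ⟨hK j hj, this.1, this.2⟩
  have s4 : ∑ p ∈ Finset.range K ×ˢ Finset.Icc (-(m : ℤ)) m, g p ≤
      ∑ k ∈ Finset.range K, 2 * (2 * (m : ℝ) + 1) / 2 ^ h * (1 / 2 ^ c₀) * (1 / 2) ^ k := by
    rw [Finset.sum_product]
    refine Finset.sum_le_sum fun k _ => ?_
    show ∑ n ∈ Finset.Icc (-(m : ℤ)) m, 2 ^ (k + c₀) / 2 ^ h * colCnt h (k + c₀) n A ≤ _
    rw [← Finset.mul_sum]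
    have b1 := mul_le_mul_of_nonneg_left (hH m hM k)
      (show (0 : ℝ) ≤ 2 ^ (k + c₀) / 2 ^ h by positivity)
    refine b1.trans (le_of_eq ?_)
    have b2 : (1 / 4 : ℝ) ^ (k + c₀) = 1 / (2 ^ (k + c₀) * 2 ^ (k + c₀)) := by
      rw [← mul_pow, one_div_pow]; norm_num
    have b3 : (1 / 2 : ℝ) ^ k = 1 / 2 ^ k := one_div_pow 2 k
    rw [b2, b3, pow_add]
    field_simp
  have s5 : ∑ k ∈ Finset.range K, 2 * (2 * (m : ℝ) + 1) / 2 ^ h * (1 / 2 ^ c₀) * (1 / 2) ^ k ≤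
      2 * (2 * (m : ℝ) + 1) / 2 ^ h * (1 / 2 ^ c₀) * 2 := by
    rw [← Finset.mul_sum]
    refine mul_le_mul_of_nonneg_left ?_ (by positivity)
    have := (summable_geometric_of_lt_one (r := (1 / 2 : ℝ)) (by norm_num)
      (by norm_num)).sum_le_tsum (Finset.range K) (fun i _ => by positivity)
    rwa [tsum_geometric_two] at this
  rw [s2] at s1
  refine s1.trans (s3.trans (s4.trans (s5.trans ?_)))
  have hmc : (m : ℝ) = (M + 2) * 2 ^ h := by rw [hm]; push_cast; ring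
  have t1 : (2 * (m : ℝ) + 1) / 2 ^ h ≤ 2 * M + 5 := by
    rw [div_le_iff₀ h4, hmc]
    have : (1 : ℝ) ≤ 2 ^ h := one_le_pow₀ (by norm_num)
    nlinarith
  have t2 : 2 * (2 * (m : ℝ) + 1) / 2 ^ h * (1 / 2 ^ c₀) * 2 =
      4 * ((2 * (m : ℝ) + 1) / 2 ^ h) / 2 ^ c₀ := by ring
  rw [t2]
  apply div_le_div_of_nonneg_right _ (by positivity)
  linarith

end

end Pool.Agent.Y979.HV
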