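import Pool.Agent.Y979.HV.Cells

/-!
# Regions in which the Voronoi graph is connected
-/

set_option autoImplicit false

open UpperHalfPlane Real

namespace Pool.Agent.Y979.HV

noncomputable section

/-- a sector between two circles -/
def reg (a b t : ℝ) : Set ℍ := {z | a < ‖(z : ℂ)‖ ∧ ‖(z : ℂ)‖ < b ∧ |z.re| < t * z.im}

theorem isOpen_reg (a b t : ℝ) : IsOpen (reg a b t) := by
  have h1 : Continuous fun z : ℍ => ‖(z : ℂ)‖ := UpperHalfPlane.continuous_coe.norm
  have h2 : Continuous fun z : ℍ => |z.re| := UpperHalfPlane.continuous_re.abs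
  have h3 : Continuous fun z : ℍ => t * z.im := UpperHalfPlane.continuous_im.const_mul t
  have e : reg a b t = {z : ℍ | a < ‖(z : ℂ)‖} ∩ ({z : ℍ | ‖(z : ℂ)‖ < b} ∩
      {z : ℍ | |z.re| < t * z.im}) := by
    ext z; simp [reg]
  rw [e]
  exact (isOpen_lt continuous_const h1).inter ((isOpen_lt h1 continuous_const).inter
    (isOpen_lt h2 h3))

theorem exists_arc {a b : ℝ} (hab : a < b) : ∃ g : ℝ → ℝ, Continuous g ∧ Function.Injective g ∧
    Set.range g = Set.Ioo a b := by
  refine ⟨fun u => (a + b) / 2 + (b - a) / π * Real.arctan u, ?_, ?_, ?_⟩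
  · exact continuous_const.add (Real.continuous_arctan.const_mul _)
  · intro u v h
    have h1 : (b - a) / π ≠ 0 := by
      have := Real.pi_pos
      have : 0 < b - a := by linarith
      positivity
    have h2 : (b - a) / π * Real.arctan u = (b - a) / π * Real.arctan v := by
      have h' : (a + b) / 2 + (b - a) / π * Real.arctan u =
        (a + b) / 2 + (b - a) / π * Real.arctan v := h
      linarith
    exact Real.arctan_injective (mul_left_cancel₀ h1 h2)
  · ext y
    have hpi := Real.pi_pos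
    have hba : 0 < b - a := by linarith
    constructor
    · rintro ⟨u, rfl⟩
      have h1 := Real.neg_pi_div_two_lt_arctan u
      have h2 := Real.arctan_lt_pi_div_two u
      have h3 : 0 < (b - a) / π := by positivity
      have h4 : (b - a) / π * (-(π / 2)) < (b - a) / π * Real.arctan u :=
        mul_lt_mul_of_pos_left h1 h3
      have h5 : (b - a) / π * Real.arctan u < (b - a) / π * (π / 2) :=
        mul_lt_mul_of_pos_left h2 h3
      have h6 : (b - a) / π * (π / 2) = (b - a) / 2 := by field_simp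
      have h7 : (b - a) / π * (-(π / 2)) = -((b - a) / 2) := by rw [mul_neg, h6]
      rw [h7] at h4
      rw [h6] at h5
      constructor
      · show a < (a + b) / 2 + (b - a) / π * Real.arctan u
        linarith
      · show (a + b) / 2 + (b - a) / π * Real.arctan u < b
        linarith
    · rintro ⟨h1, h2⟩
      have h3 : (y - (a + b) / 2) * (π / (b - a)) ∈ Set.range Real.arctan := by
        rw [Real.range_arctan]
        constructor
        · have : -((b - a) / 2) < y - (a + b) / 2 := by linarith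
          have h4 := mul_lt_mul_of_pos_right this (show 0 < π / (b - a) by positivity)
          have h5 : -((b - a) / 2) * (π / (b - a)) = -(π / 2) := by field_simp
          rwa [h5] at h4
        · have : y - (a + b) / 2 < (b - a) / 2 := by linarith
          have h4 := mul_lt_mul_of_pos_right this (show 0 < π / (b - a) by positivity)
          have h5 : (b - a) / 2 * (π / (b - a)) = π / 2 := by field_simp
          rwa [h5] at h4
      obtain ⟨u, hu⟩ := h3
      refine ⟨u, ?_⟩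
      show (a + b) / 2 + (b - a) / π * Real.arctan u = y
      rw [hu]
      have hne : b - a ≠ 0 := hba.ne'
      field_simp
      ring

/-- polar type coordinates -/
def polar (s t : ℝ) (hs : 0 < s) : ℍ :=
  ⟨⟨s * t / √(1 + t ^ 2), s / √(1 + t ^ 2)⟩, by
    have : 0 < √(1 + t ^ 2) := Real.sqrt_pos.mpr (by positivity)
    positivity⟩

theorem polar_re (s t : ℝ) (hs : 0 < s) : (polar s t hs).re = s * t / √(1 + t ^ 2) := rfl
theorem polar_im (s t : ℝ) (hs : 0 < s) : (polar s t hs).im = s / √(1 + t ^ 2) := rfl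

theorem polar_norm (s t : ℝ) (hs : 0 < s) : ‖(polar s t hs : ℂ)‖ = s := by
  have h := norm_sq_eq (polar s t hs)
  rw [polar_re, polar_im] at h
  have h1 : 0 < 1 + t ^ 2 := by positivity
  have h2 : (s * t / √(1 + t ^ 2)) ^ 2 + (s / √(1 + t ^ 2)) ^ 2 = s ^ 2 := by
    rw [div_pow, div_pow, Real.sq_sqrt h1.le]
    field_simp
    ring
  rw [h2] at h
  exact (sq_eq_sq₀ (norm_nonneg _) hs.le).mp h

theorem polar_ratio (s t : ℝ) (hs : 0 < s) : (polar s t hs).re = t * (polar s t hs).im := by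
  rw [polar_re, polar_im]
  ring

theorem eq_of_norm_ratio {z w : ℍ} {t : ℝ} (h1 : ‖(z : ℂ)‖ = ‖(w : ℂ)‖) (h2 : z.re = t * z.im)
    (h3 : w.re = t * w.im) : z = w := by
  have e1 := norm_sq_eq z
  have e2 := norm_sq_eq w
  have hz := z.im_pos
  have hw := w.im_pos
  rw [h1, e2, h2, h3] at e1
  have h4 : w.im ^ 2 * (1 + t ^ 2) = z.im ^ 2 * (1 + t ^ 2) := by nlinarith
  have h5 : (1 + t ^ 2) ≠ 0 := by positivity
  have h6 : w.im ^ 2 = z.im ^ 2 := mul_right_cancel₀ h5 h4
  have h7 : w.im = z.im := (sq_eq_sq₀ hw.le hz.le).mp h6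
  apply UpperHalfPlane.ext
  · apply Complex.ext
    · show z.re = w.re
      rw [h2, h3, h7]
    · show z.im = w.im
      exact h7.symm

theorem reg_diff_preconnected {a b t : ℝ} (ha : 0 < a) (hab : a < b) (ht : 0 < t) {B : Set ℍ}
    (hB : B.Finite) : IsPreconnected (reg a b t \ B) := by
  obtain ⟨g, hg, hgi, hgr⟩ := exists_arc hab
  obtain ⟨f, hf, hfi, hfr⟩ := exists_arc (show -t < t by linarith)
  have hgm : ∀ u, g u ∈ Set.Ioo a b := fun u => hgr ▸ Set.mem_range_self u
  have hfm : ∀ u, f u ∈ Set.Ioo (-t) t := fun u => hfr ▸ Set.mem_range_self u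
  have hgp : ∀ u, 0 < g u := fun u => ha.trans (hgm u).1
  let Φ : ℝ × ℝ → ℍ := fun p => polar (g p.1) (f p.2) (hgp p.1)
  have hΦc : Continuous Φ := by
    have h1 : Continuous fun p : ℝ × ℝ => g p.1 := hg.comp continuous_fst
    have h2 : Continuous fun p : ℝ × ℝ => f p.2 := hf.comp continuous_snd
    have h3 : Continuous fun p : ℝ × ℝ => √(1 + f p.2 ^ 2) :=
      (continuous_const.add (h2.pow 2)).sqrt
    have h3' : ∀ p : ℝ × ℝ, √(1 + f p.2 ^ 2) ≠ 0 := fun p =>
      (Real.sqrt_pos.mpr (by positivity)).ne'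
    refine UpperHalfPlane.isEmbedding_coe.continuous_iff.mpr ?_
    have h4 : (UpperHalfPlane.coe ∘ Φ) = fun p : ℝ × ℝ =>
        ((g p.1 * f p.2 / √(1 + f p.2 ^ 2) : ℝ) : ℂ) +
          ((g p.1 / √(1 + f p.2 ^ 2) : ℝ) : ℂ) * Complex.I := by
      funext p
      apply Complex.ext
      · simp [Φ, polar]
      · simp [Φ, polar]
    rw [h4]
    exact (Complex.continuous_ofReal.comp ((h1.mul h2).div h3 h3')).add
      ((Complex.continuous_ofReal.comp (h1.div h3 h3')).mul continuous_const)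
  have hΦi : Function.Injective Φ := by
    intro p q h
    have h1 : g p.1 = g q.1 := by
      rw [← polar_norm (g p.1) (f p.2) (hgp p.1), ← polar_norm (g q.1) (f q.2) (hgp q.1)]
      exact congrArg (fun z : ℍ => ‖(z : ℂ)‖) h
    have h2 : f p.2 = f q.2 := by
      have e1 := polar_ratio (g p.1) (f p.2) (hgp p.1)
      have e2 := polar_ratio (g q.1) (f q.2) (hgp q.1)
      have h' : polar (g p.1) (f p.2) (hgp p.1) = polar (g q.1) (f q.2) (hgp q.1) := h
      rw [h'] at e1
      have hpos := (polar (g q.1) (f q.2) (hgp q.1)).im_pos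
      exact mul_right_cancel₀ hpos.ne' (e1.symm.trans e2)
    exact Prod.ext (hgi h1) (hfi h2)
  have hΦr : Set.range Φ = reg a b t := by
    ext z
    constructor
    · rintro ⟨p, rfl⟩
      refine ⟨?_, ?_, ?_⟩
      · show a < ‖(polar (g p.1) (f p.2) (hgp p.1) : ℂ)‖
        rw [polar_norm]; exact (hgm p.1).1
      · show ‖(polar (g p.1) (f p.2) (hgp p.1) : ℂ)‖ < b
        rw [polar_norm]; exact (hgm p.1).2
      · show |(polar (g p.1) (f p.2) (hgp p.1)).re| < t * (polar (g p.1) (f p.2) (hgp p.1)).im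
        have hpos := (polar (g p.1) (f p.2) (hgp p.1)).im_pos
        rw [polar_ratio, abs_mul, abs_of_pos hpos]
        exact mul_lt_mul_of_pos_right (abs_lt.mpr (hfm p.2)) hpos
    · rintro ⟨h1, h2, h3⟩
      have hz := z.im_pos
      have m1 : ‖(z : ℂ)‖ ∈ Set.range g := by rw [hgr]; exact ⟨h1, h2⟩
      have m2 : z.re / z.im ∈ Set.range f := by
        rw [hfr, Set.mem_Ioo, ← abs_lt, abs_div, abs_of_pos hz, div_lt_iff₀ hz]
        exact h3
      obtain ⟨u, hu⟩ := m1
      obtain ⟨v, hv⟩ := m2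
      refine ⟨(u, v), ?_⟩
      refine eq_of_norm_ratio (t := f v) ?_ (polar_ratio _ _ _) ?_
      · show ‖(polar (g u) (f v) (hgp u) : ℂ)‖ = ‖(z : ℂ)‖
        rw [polar_norm, hu]
      · rw [hv]
        field_simp
  have himg : reg a b t \ B = Φ '' (Φ ⁻¹' B)ᶜ := by
    rw [← hΦr]
    ext z
    constructor
    · rintro ⟨⟨p, rfl⟩, h⟩
      exact ⟨p, h, rfl⟩
    · rintro ⟨p, h, rfl⟩
      exact ⟨⟨p, rfl⟩, h⟩
  rw [himg]
  have hcount : (Φ ⁻¹' B).Countable := (hB.preimage hΦi.injOn).countable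
  have hrank : 1 < Module.rank ℝ (ℝ × ℝ) := by
    rw [rank_prod', Module.rank_self, one_add_one_eq_two]
    exact Cardinal.one_lt_two
  exact (hcount.isConnected_compl_of_one_lt_rank hrank).isPreconnected.image Φ hΦc.continuousOn

/-- the nuclei of the cells that meet `U` -/
def meeting (A : Set ℍ) (U : Set ℍ) : Set A := {x | (U ∩ cell A x).Nonempty}

theorem reachable_meeting {A : Set ℍ} (hA : LocFin A) {U : Set ℍ} (hU : IsOpen U)
    (hUc : ∀ B : Set ℍ, B.Finite → IsPreconnected (U \ B)) (hF : (meeting A U).Finite)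
    (x y : A) (hx : x ∈ meeting A U) (hy : y ∈ meeting A U) :
    ((voronoiGraph A).induce (meeting A U)).Reachable ⟨x, hx⟩ ⟨y, hy⟩ := by
  by_contra hcon
  set H := (voronoiGraph A).induce (meeting A U) with hH
  set F1 : Set A := {v | ∃ h : v ∈ meeting A U, H.Reachable ⟨x, hx⟩ ⟨v, h⟩} with hF1
  set F2 : Set A := meeting A U \ F1 with hF2
  have hx1 : x ∈ F1 := ⟨hx, SimpleGraph.Reachable.refl _⟩
  have hy2 : y ∈ F2 := ⟨hy, fun ⟨_, h⟩ => hcon h⟩
  have hF1f : F1.Finite := hF.subset (fun v ⟨h, _⟩ => h)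
  have hF2f : F2.Finite := hF.subset Set.sdiff_subset
  set B : Set ℍ := ⋃ v ∈ F1, ⋃ w ∈ F2, cell A v ∩ cell A w with hB
  have hBf : B.Finite := by
    refine hF1f.biUnion fun v hv => hF2f.biUnion fun w hw => ?_
    have hvw : v ≠ w := fun h => hw.2 (h ▸ hv)
    refine Set.Subsingleton.finite ?_
    intro z hz z' hz'
    by_contra hne
    have hadj := adj_of_two hvw hne hz hz'
    apply hw.2
    obtain ⟨hvm, hvr⟩ := hv
    refine ⟨hw.1, hvr.trans (SimpleGraph.Adj.reachable ?_)⟩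
    exact hadj
  have hpre := hUc B hBf
  rw [isPreconnected_closed_iff] at hpre
  have h1 := hpre (⋃ v ∈ F1, cell A v) (⋃ v ∈ F2, cell A v)
    (hF1f.isClosed_biUnion fun v _ => isClosed_cell A v)
    (hF2f.isClosed_biUnion fun v _ => isClosed_cell A v) ?_ ?_ ?_
  · obtain ⟨z, ⟨_, hzB⟩, hz1, hz2⟩ := h1
    apply hzB
    rw [Set.mem_iUnion₂] at hz1 hz2
    obtain ⟨v, hv, hzv⟩ := hz1
    obtain ⟨w, hw, hzw⟩ := hz2
    rw [hB]
    refine Set.mem_iUnion₂.mpr ⟨v, hv, Set.mem_iUnion₂.mpr ⟨w, hw, hzv, hzw⟩⟩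
  · rintro z ⟨hzU, _⟩
    obtain ⟨v, hvA, hv⟩ := exists_nucleus hA ⟨x, x.2⟩ z
    have hvm : (⟨v, hvA⟩ : A) ∈ meeting A U := ⟨z, hzU, hv⟩
    by_cases hv1 : (⟨v, hvA⟩ : A) ∈ F1
    · exact Or.inl (Set.mem_iUnion₂.mpr ⟨⟨v, hvA⟩, hv1, hv⟩)
    · exact Or.inr (Set.mem_iUnion₂.mpr ⟨⟨v, hvA⟩, ⟨hvm, hv1⟩, hv⟩)
  · obtain ⟨z, hzU, hzc⟩ := hx
    have hinf := infinite_inter hA hU hzU hzc
    obtain ⟨w, hw, hwB⟩ := (hinf.sdiff hBf).nonempty
    exact ⟨w, ⟨hw.1, hwB⟩, Set.mem_iUnion₂.mpr ⟨x, hx1, hw.2⟩⟩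
  · obtain ⟨z, hzU, hzc⟩ := hy
    have hinf := infinite_inter hA hU hzU hzc
    obtain ⟨w, hw, hwB⟩ := (hinf.sdiff hBf).nonempty
    exact ⟨w, ⟨hw.1, hwB⟩, Set.mem_iUnion₂.mpr ⟨y, hy2, hw.2⟩⟩

theorem exists_walk_meeting {A : Set ℍ} (hA : LocFin A) {U : Set ℍ} (hU : IsOpen U)
    (hUc : ∀ B : Set ℍ, B.Finite → IsPreconnected (U \ B)) (hF : (meeting A U).Finite)
    {x y : A} (hx : x ∈ meeting A U) (hy : y ∈ meeting A U) :
    ∃ p : (voronoiGraph A).Walk x y, p.length < (meeting A U).ncard := by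
  obtain ⟨p, hp⟩ := (reachable_meeting hA hU hUc hF x y hx hy).exists_isPath
  have : Fintype (meeting A U) := hF.fintype
  have h1 := hp.length_lt
  rw [← Nat.card_eq_fintype_card] at h1
  exact ⟨p.map (SimpleGraph.Embedding.induce (meeting A U)).toHom,
    lt_of_eq_of_lt (SimpleGraph.Walk.length_map _ _) h1⟩

end

end Pool.Agent.Y979.HV
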